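import Mathlib

/-! Cauchy estimates for first and second differences of a holomorphic function. -/

set_option autoImplicit false

namespace Pool.Agent.H19.Euler

open Complex Metric

theorem cauchy_second_diff {f : ℂ → ℂ} {z : ℂ} {g E : ℝ} (hg : 1 < g)
    (hd : DifferentiableOn ℂ f (closedBall z g))
    (hE : ∀ ζ ∈ closedBall z g, ‖f ζ‖ ≤ E) :
    ‖f (z + 1) + f (z - 1) - 2 * f z‖ ≤ 2 * E / (g ^ 2 - 1) := by
  have hg0 : 0 < g := by linarith
  have hg2 : 0 < g ^ 2 - 1 := by nlinarith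
  have hE0 : 0 ≤ E := le_trans (norm_nonneg _) (hE z (mem_closedBall_self hg0.le))
  have hcont : ContinuousOn f (sphere z g) :=
    hd.continuousOn.mono sphere_subset_closedBall
  have key : ∀ w : ℂ, w ∈ ball z g →
      (∮ ζ in C(z, g), (ζ - w)⁻¹ • f ζ) = (2 * Real.pi * I : ℂ) • f w := by
    intro w hw
    exact hd.circleIntegral_sub_inv_smul hw
  have hint : ∀ w : ℂ, w ∈ ball z g → CircleIntegrable (fun ζ => (ζ - w)⁻¹ • f ζ) z g := by
    intro w hw
    apply ContinuousOn.circleIntegrable hg0.le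
    simp only [smul_eq_mul]
    refine ContinuousOn.mul ?_ hcont
    refine ContinuousOn.inv₀ (by fun_prop) ?_
    intro ζ hζ h0
    have : ζ = w := sub_eq_zero.mp h0
    rw [this] at hζ
    rw [mem_sphere] at hζ
    rw [mem_ball] at hw
    linarith
  have m1 : z + 1 ∈ ball z g := by simp [mem_ball, dist_eq_norm]; exact hg
  have m2 : z - 1 ∈ ball z g := by simp [mem_ball, dist_eq_norm]; exact hg
  have m0 : z ∈ ball z g := mem_ball_self hg0
  have h1 := key _ m1
  have h2 := key _ m2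
  have h0 := key _ m0
  have hsum : (∮ ζ in C(z, g), ((ζ - (z + 1))⁻¹ • f ζ + (ζ - (z - 1))⁻¹ • f ζ
        - (2 : ℂ) • ((ζ - z)⁻¹ • f ζ)))
      = (2 * Real.pi * I : ℂ) • (f (z + 1) + f (z - 1) - 2 * f z) := by
    have i12 : CircleIntegrable (fun ζ => (ζ - (z + 1))⁻¹ • f ζ + (ζ - (z - 1))⁻¹ • f ζ) z g :=
      (hint _ m1).add (hint _ m2)
    have i0 : CircleIntegrable (fun ζ => (2 : ℂ) • ((ζ - z)⁻¹ • f ζ)) z g :=
      (hint _ m0).const_smul
    rw [circleIntegral.integral_sub i12 i0,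
      circleIntegral.integral_add (hint _ m1) (hint _ m2),
      circleIntegral.integral_smul, h1, h2, h0]
    simp only [smul_eq_mul]
    ring
  have hbound : ‖(2 * Real.pi * I : ℂ)⁻¹ • ∮ ζ in C(z, g), ((ζ - (z + 1))⁻¹ • f ζ
        + (ζ - (z - 1))⁻¹ • f ζ - (2 : ℂ) • ((ζ - z)⁻¹ • f ζ))‖
        ≤ g * (2 * E / (g * (g ^ 2 - 1))) := by
    apply circleIntegral.norm_two_pi_i_inv_smul_integral_le_of_norm_le_const hg0.le
    intro ζ hζ
    have hu : ‖ζ - z‖ = g := by rw [← dist_eq_norm]; exact mem_sphere.mp hζ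
    have hfe : ‖f ζ‖ ≤ E := hE ζ (sphere_subset_closedBall hζ)
    set u := ζ - z with hu_def
    have e1 : ζ - (z + 1) = u - 1 := by rw [hu_def]; ring
    have e2 : ζ - (z - 1) = u + 1 := by rw [hu_def]; ring
    have hu0 : u ≠ 0 := by
      intro h; rw [h, norm_zero] at hu; linarith
    have hu1 : u - 1 ≠ 0 := by
      intro h
      have : u = 1 := sub_eq_zero.mp h
      rw [this, norm_one] at hu; linarith
    have hu2 : u + 1 ≠ 0 := by
      intro h
      have : u = -1 := eq_neg_of_add_eq_zero_left h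
      rw [this, norm_neg, norm_one] at hu; linarith
    have hform : (ζ - (z + 1))⁻¹ • f ζ + (ζ - (z - 1))⁻¹ • f ζ - (2 : ℂ) • (u⁻¹ • f ζ)
        = (2 / (u * (u ^ 2 - 1))) * f ζ := by
      rw [e1, e2]
      have hu3 : u ^ 2 - 1 ≠ 0 := by
        have : u ^ 2 - 1 = (u - 1) * (u + 1) := by ring
        rw [this]; exact mul_ne_zero hu1 hu2
      simp only [smul_eq_mul]
      have hu3' : u ^ 2 - 1 = (u - 1) * (u + 1) := by ring
      rw [hu3']
      field_simp
      ring
    rw [hform, norm_mul, norm_div, norm_mul, hu]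
    have hlow : g ^ 2 - 1 ≤ ‖u ^ 2 - 1‖ := by
      have := norm_sub_norm_le (u ^ 2) 1
      rw [norm_pow, hu, norm_one] at this
      exact this
    have h2n : ‖(2 : ℂ)‖ = 2 := by simp
    rw [h2n]
    calc 2 / (g * ‖u ^ 2 - 1‖) * ‖f ζ‖ ≤ 2 / (g * (g ^ 2 - 1)) * E := by
          gcongr
      _ = 2 * E / (g * (g ^ 2 - 1)) := by ring
  rw [hsum] at hbound
  have hpi : (2 * Real.pi * I : ℂ) ≠ 0 := by simp [Real.pi_ne_zero, I_ne_zero]
  rw [inv_smul_smul₀ hpi] at hbound
  calc ‖f (z + 1) + f (z - 1) - 2 * f z‖ ≤ g * (2 * E / (g * (g ^ 2 - 1))) := hbound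
    _ = 2 * E / (g ^ 2 - 1) := by field_simp

theorem cauchy_first_diff {f : ℂ → ℂ} {z s : ℂ} {g E : ℝ} (hg : 1 < g) (hs : ‖s‖ = 1)
    (hd : DifferentiableOn ℂ f (closedBall z g))
    (hE : ∀ ζ ∈ closedBall z g, ‖f ζ‖ ≤ E) :
    ‖f (z + s) - f z‖ ≤ E / (g - 1) := by
  have hg0 : 0 < g := by linarith
  have hg2 : 0 < g - 1 := by linarith
  have hE0 : 0 ≤ E := le_trans (norm_nonneg _) (hE z (mem_closedBall_self hg0.le))
  have hcont : ContinuousOn f (sphere z g) :=
    hd.continuousOn.mono sphere_subset_closedBall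
  have key : ∀ w : ℂ, w ∈ ball z g →
      (∮ ζ in C(z, g), (ζ - w)⁻¹ • f ζ) = (2 * Real.pi * I : ℂ) • f w := by
    intro w hw
    exact hd.circleIntegral_sub_inv_smul hw
  have hint : ∀ w : ℂ, w ∈ ball z g → CircleIntegrable (fun ζ => (ζ - w)⁻¹ • f ζ) z g := by
    intro w hw
    apply ContinuousOn.circleIntegrable hg0.le
    simp only [smul_eq_mul]
    refine ContinuousOn.mul ?_ hcont
    refine ContinuousOn.inv₀ (by fun_prop) ?_
    intro ζ hζ h0
    have : ζ = w := sub_eq_zero.mp h0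
    rw [this] at hζ
    rw [mem_sphere] at hζ
    rw [mem_ball] at hw
    linarith
  have m1 : z + s ∈ ball z g := by simp [mem_ball, dist_eq_norm, hs]; exact hg
  have m0 : z ∈ ball z g := mem_ball_self hg0
  have h1 := key _ m1
  have h0 := key _ m0
  have hsum : (∮ ζ in C(z, g), ((ζ - (z + s))⁻¹ • f ζ - (ζ - z)⁻¹ • f ζ))
      = (2 * Real.pi * I : ℂ) • (f (z + s) - f z) := by
    rw [circleIntegral.integral_sub (hint _ m1) (hint _ m0), h1, h0]
    simp only [smul_eq_mul]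
    ring
  have hbound : ‖(2 * Real.pi * I : ℂ)⁻¹ • ∮ ζ in C(z, g), ((ζ - (z + s))⁻¹ • f ζ
        - (ζ - z)⁻¹ • f ζ)‖ ≤ g * (E / (g * (g - 1))) := by
    apply circleIntegral.norm_two_pi_i_inv_smul_integral_le_of_norm_le_const hg0.le
    intro ζ hζ
    have hu : ‖ζ - z‖ = g := by rw [← dist_eq_norm]; exact mem_sphere.mp hζ
    have hfe : ‖f ζ‖ ≤ E := hE ζ (sphere_subset_closedBall hζ)
    set u := ζ - z with hu_def
    have e1 : ζ - (z + s) = u - s := by rw [hu_def]; ring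
    have hu0 : u ≠ 0 := by
      intro h; rw [h, norm_zero] at hu; linarith
    have hu1 : u - s ≠ 0 := by
      intro h
      have : u = s := sub_eq_zero.mp h
      rw [this, hs] at hu; linarith
    have hform : (ζ - (z + s))⁻¹ • f ζ - u⁻¹ • f ζ
        = (s / (u * (u - s))) * f ζ := by
      rw [e1]
      simp only [smul_eq_mul]
      field_simp
      ring
    rw [hform, norm_mul, norm_div, norm_mul, hu, hs]
    have hlow : g - 1 ≤ ‖u - s‖ := by
      have := norm_sub_norm_le u s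
      rw [hu, hs] at this
      exact this
    calc 1 / (g * ‖u - s‖) * ‖f ζ‖ ≤ 1 / (g * (g - 1)) * E := by
          gcongr
      _ = E / (g * (g - 1)) := by ring
  rw [hsum] at hbound
  have hpi : (2 * Real.pi * I : ℂ) ≠ 0 := by simp [Real.pi_ne_zero, I_ne_zero]
  rw [inv_smul_smul₀ hpi] at hbound
  calc ‖f (z + s) - f z‖ ≤ g * (E / (g * (g - 1))) := hbound
    _ = E / (g - 1) := by field_simp

end Pool.Agent.H19.Euler
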