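import Mathlib
import Pool.Agent.H19.Euler.Cauchy

/-! One step of the recursion `w' = w₋ w₊ / (w₋ w₊ - (w-1)^2)` for functions close to linear. -/

set_option autoImplicit false

namespace Pool.Agent.H19.Euler

open Complex Metric

/-- The new error bound. -/
noncomputable def newE (c D E P : ℝ) : ℝ :=
  c ^ 2 / (4 * D) + (E / 2 * (D + c ^ 2 / D) + E ^ 2 + P * D / 4) / (D - 2 * E - P)

theorem newE_mono {c d D E P : ℝ} (hD : 2 * E + P < D) (hE : 0 ≤ E) (hP : 0 ≤ P)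
    (hd : D ≤ d) : newE c d E P ≤ newE c D E P := by
  have hD0 : 0 < D := by linarith
  have hd0 : 0 < d := by linarith
  have hs : 0 < D - 2 * E - P := by linarith
  have hs' : 0 < d - 2 * E - P := by linarith
  have hc : 0 ≤ c ^ 2 := sq_nonneg c
  have t1 : c ^ 2 / (4 * d) ≤ c ^ 2 / (4 * D) := by
    apply div_le_div_of_nonneg_left hc (by linarith) (by linarith)
  have e1 : ∀ u : ℝ, 0 < u → 0 < u - 2 * E - P →
      (E / 2 * (u + c ^ 2 / u) + E ^ 2 + P * u / 4) / (u - 2 * E - P)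
      = (E / 2 + P / 4) * (u / (u - 2 * E - P)) + (c ^ 2 * E / 2) * (1 / u * (1 / (u - 2 * E - P)))
        + E ^ 2 * (1 / (u - 2 * E - P)) := by
    intro u hu hus
    field_simp
    ring
  have m1 : d / (d - 2 * E - P) ≤ D / (D - 2 * E - P) := by
    rw [div_le_div_iff₀ hs' hs]
    nlinarith
  have m2 : 1 / (d - 2 * E - P) ≤ 1 / (D - 2 * E - P) := by
    apply one_div_le_one_div_of_le hs (by linarith)
  have m3 : 1 / d ≤ 1 / D := one_div_le_one_div_of_le hD0 hd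
  have m4 : 1 / d * (1 / (d - 2 * E - P)) ≤ 1 / D * (1 / (D - 2 * E - P)) := by
    apply mul_le_mul m3 m2 (by positivity) (by positivity)
  unfold newE
  rw [e1 d hd0 hs', e1 D hD0 hs]
  have a1 : (E / 2 + P / 4) * (d / (d - 2 * E - P)) ≤ (E / 2 + P / 4) * (D / (D - 2 * E - P)) :=
    mul_le_mul_of_nonneg_left m1 (by linarith)
  have a2 : (c ^ 2 * E / 2) * (1 / d * (1 / (d - 2 * E - P)))
      ≤ (c ^ 2 * E / 2) * (1 / D * (1 / (D - 2 * E - P))) :=
    mul_le_mul_of_nonneg_left m4 (by positivity)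
  have a3 : E ^ 2 * (1 / (d - 2 * E - P)) ≤ E ^ 2 * (1 / (D - 2 * E - P)) :=
    mul_le_mul_of_nonneg_left m2 (by positivity)
  linarith

/-- Algebraic core of the step. -/
theorem step_alg {x e ep em : ℂ} {α D E P : ℝ} (hα0 : 0 ≤ α) (hα1 : α ≤ 1)
    (hD : D ≤ (2 * x - 1 - (α : ℂ) ^ 2).re) (hDc : (1 - α ^ 2) / 2 ≤ D)
    (he : ‖e‖ ≤ E)
    (hP : ‖(x + e) * (ep + em - 2 * e) - α * (ep - em) + (ep - e) * (em - e)‖ ≤ P)
    (hDs : 2 * E + P < D) :
    (x - α + em) * (x + α + ep) - (x + e - 1) ^ 2 ≠ 0 ∧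
    ‖(x - α + em) * (x + α + ep) / ((x - α + em) * (x + α + ep) - (x + e - 1) ^ 2)
      - (x / 2 + (1 + (α : ℂ) ^ 2) / 4)‖ ≤ newE (1 - α ^ 2) D E P := by
  set π' : ℂ := (x + e) * (ep + em - 2 * e) - α * (ep - em) + (ep - e) * (em - e) with hπ
  set D0 : ℂ := 2 * x - 1 - (α : ℂ) ^ 2 with hD0
  have hE0 : 0 ≤ E := le_trans (norm_nonneg _) he
  have hP0 : 0 ≤ P := le_trans (norm_nonneg _) hP
  have hDpos : 0 < D := by linarith
  have hden : (x - α + em) * (x + α + ep) - (x + e - 1) ^ 2 = D0 + 2 * e + π' := by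
    rw [hπ, hD0]; ring
  set d : ℝ := ‖D0‖ with hd
  have hdD : D ≤ d := le_trans hD (Complex.re_le_norm D0)
  have hd0 : 0 < d := lt_of_lt_of_le hDpos hdD
  have hD0ne : D0 ≠ 0 := by
    intro h; rw [h, norm_zero] at hd; linarith
  have hlow : d - 2 * E - P ≤ ‖D0 + 2 * e + π'‖ := by
    have h1 : ‖D0‖ - ‖-(2 * e + π')‖ ≤ ‖D0 - (-(2 * e + π'))‖ := norm_sub_norm_le _ _
    have h2 : ‖-(2 * e + π')‖ ≤ 2 * E + P := by
      rw [norm_neg]
      calc ‖2 * e + π'‖ ≤ ‖2 * e‖ + ‖π'‖ := norm_add_le _ _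
        _ ≤ 2 * E + P := by
            have : ‖2 * e‖ = 2 * ‖e‖ := by simp
            rw [this]; linarith
    have h3 : D0 - (-(2 * e + π')) = D0 + 2 * e + π' := by ring
    rw [h3] at h1
    linarith
  have hsub : 0 < d - 2 * E - P := by linarith
  have hdenne : D0 + 2 * e + π' ≠ 0 := by
    intro h; rw [h, norm_zero] at hlow; linarith
  refine ⟨by rw [hden]; exact hdenne, ?_⟩
  set c : ℝ := 1 - α ^ 2 with hc
  have hc0 : 0 ≤ c := by rw [hc]; nlinarith
  have hform : (x - α + em) * (x + α + ep) / ((x - α + em) * (x + α + ep) - (x + e - 1) ^ 2)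
      - (x / 2 + (1 + (α : ℂ) ^ 2) / 4)
      = (c : ℂ) ^ 2 / (4 * D0) + ((D0 - c) * (D0 + c) / 2 * e + D0 * e ^ 2
          - (D0 - c) ^ 2 / 4 * π') / (D0 * (D0 + 2 * e + π')) := by
    have hcc : (c : ℂ) = 1 - (α : ℂ) ^ 2 := by rw [hc]; push_cast; ring
    have hx : x = (D0 + 1 + (α : ℂ) ^ 2) / 2 := by rw [hD0]; ring
    have hnum : (x - α + em) * (x + α + ep) = (x + e) ^ 2 - (α : ℂ) ^ 2 + π' := by
      rw [hπ]; ring
    rw [hden, hnum, hcc, hx]
    field_simp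
    ring
  rw [hform]
  have b1 : ‖(c : ℂ) ^ 2 / (4 * D0)‖ = c ^ 2 / (4 * d) := by
    rw [norm_div, norm_pow, norm_mul, Complex.norm_real, Real.norm_of_nonneg hc0]
    simp [hd]
  have b2 : ‖(D0 - c) * (D0 + c)‖ ≤ d ^ 2 + c ^ 2 := by
    have : (D0 - c) * (D0 + c) = D0 ^ 2 - (c : ℂ) ^ 2 := by ring
    rw [this]
    calc ‖D0 ^ 2 - (c : ℂ) ^ 2‖ ≤ ‖D0 ^ 2‖ + ‖(c : ℂ) ^ 2‖ := norm_sub_le _ _
      _ = d ^ 2 + c ^ 2 := by
        rw [norm_pow, norm_pow, Complex.norm_real, Real.norm_of_nonneg hc0]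
  have b3 : ‖D0 - c‖ ≤ d := by
    have hre : c / 2 ≤ D0.re := le_trans hDc hD
    have h1 : ‖D0 - c‖ ^ 2 ≤ d ^ 2 := by
      rw [hd, ← Complex.normSq_eq_norm_sq, ← Complex.normSq_eq_norm_sq, Complex.normSq_apply,
        Complex.normSq_apply]
      simp only [Complex.sub_re, Complex.ofReal_re, Complex.sub_im, Complex.ofReal_im, sub_zero]
      nlinarith
    exact le_of_sq_le_sq h1 hd0.le
  have b3' : ‖D0 - c‖ ^ 2 ≤ d ^ 2 := by
    apply pow_le_pow_left₀ (norm_nonneg _) b3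
  have b4 : ‖(D0 - c) * (D0 + c) / 2 * e + D0 * e ^ 2 - (D0 - c) ^ 2 / 4 * π'‖
      ≤ (d ^ 2 + c ^ 2) / 2 * E + d * E ^ 2 + d ^ 2 / 4 * P := by
    calc ‖(D0 - c) * (D0 + c) / 2 * e + D0 * e ^ 2 - (D0 - c) ^ 2 / 4 * π'‖
        ≤ ‖(D0 - c) * (D0 + c) / 2 * e + D0 * e ^ 2‖ + ‖(D0 - c) ^ 2 / 4 * π'‖ :=
          norm_sub_le _ _
      _ ≤ ‖(D0 - c) * (D0 + c) / 2 * e‖ + ‖D0 * e ^ 2‖ + ‖(D0 - c) ^ 2 / 4 * π'‖ := by
          gcongr; exact norm_add_le _ _
      _ ≤ (d ^ 2 + c ^ 2) / 2 * E + d * E ^ 2 + d ^ 2 / 4 * P := by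
          have u1 : ‖(D0 - c) * (D0 + c) / 2 * e‖ ≤ (d ^ 2 + c ^ 2) / 2 * E := by
            rw [norm_mul, norm_div]
            have : ‖(2 : ℂ)‖ = 2 := by simp
            rw [this]
            gcongr
          have u2 : ‖D0 * e ^ 2‖ ≤ d * E ^ 2 := by
            rw [norm_mul, norm_pow]
            gcongr
          have u3 : ‖(D0 - c) ^ 2 / 4 * π'‖ ≤ d ^ 2 / 4 * P := by
            rw [norm_mul, norm_div, norm_pow]
            have : ‖(4 : ℂ)‖ = 4 := by simp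
            rw [this]
            gcongr
          linarith
  have b5 : ‖((D0 - c) * (D0 + c) / 2 * e + D0 * e ^ 2
          - (D0 - c) ^ 2 / 4 * π') / (D0 * (D0 + 2 * e + π'))‖
        ≤ ((d ^ 2 + c ^ 2) / 2 * E + d * E ^ 2 + d ^ 2 / 4 * P) / (d * (d - 2 * E - P)) := by
    rw [norm_div, norm_mul]
    apply div_le_div₀ (by positivity) b4 (by positivity)
    exact mul_le_mul_of_nonneg_left hlow hd0.le
  have b6 : ((d ^ 2 + c ^ 2) / 2 * E + d * E ^ 2 + d ^ 2 / 4 * P) / (d * (d - 2 * E - P))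
      = (E / 2 * (d + c ^ 2 / d) + E ^ 2 + P * d / 4) / (d - 2 * E - P) := by
    field_simp
  calc ‖(c : ℂ) ^ 2 / (4 * D0) + ((D0 - c) * (D0 + c) / 2 * e + D0 * e ^ 2
          - (D0 - c) ^ 2 / 4 * π') / (D0 * (D0 + 2 * e + π'))‖
      ≤ ‖(c : ℂ) ^ 2 / (4 * D0)‖ + ‖((D0 - c) * (D0 + c) / 2 * e + D0 * e ^ 2
          - (D0 - c) ^ 2 / 4 * π') / (D0 * (D0 + 2 * e + π'))‖ := norm_add_le _ _
    _ ≤ newE c d E P := by
        rw [b1]; unfold newE
        rw [← b6]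
        linarith
    _ ≤ newE c D E P := newE_mono hDs hE0 hP0 hdD

/-- The step on discs. -/
theorem step {w : ℂ → ℂ} {k ρ ρ' α β E : ℝ} (hα0 : 0 ≤ α) (hα1 : α ≤ 1) (hβ : 0 ≤ β)
    (hk : 0 ≤ k) (hρ' : 0 ≤ ρ') (hg : 1 < ρ - ρ')
    (hw : ∀ z ∈ closedBall (k : ℂ) ρ, ‖w z - (α * z + β)‖ ≤ E)
    (hd : DifferentiableOn ℂ w (closedBall (k : ℂ) ρ))
    {D X P : ℝ} (hD : D = 2 * (α * (k - ρ') + β) - 1 - α ^ 2)
    (hX : X = α * (k + ρ') + β)
    (hP : (X + E) * (2 * E / ((ρ - ρ') ^ 2 - 1)) + 2 * α * (E / (ρ - ρ' - 1))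
        + (E / (ρ - ρ' - 1)) ^ 2 ≤ P)
    (hDc : (1 - α ^ 2) / 2 ≤ D) (hDs : 2 * E + P < D) :
    (∀ z ∈ closedBall (k : ℂ) ρ', w (z - 1) * w (z + 1) - (w z - 1) ^ 2 ≠ 0) ∧
    (∀ z ∈ closedBall (k : ℂ) ρ',
      ‖w (z - 1) * w (z + 1) / (w (z - 1) * w (z + 1) - (w z - 1) ^ 2)
        - ((α / 2 : ℝ) * z + (β / 2 + (1 + α ^ 2) / 4 : ℝ))‖ ≤ newE (1 - α ^ 2) D E P) ∧
    DifferentiableOn ℂ
      (fun z => w (z - 1) * w (z + 1) / (w (z - 1) * w (z + 1) - (w z - 1) ^ 2))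
      (closedBall (k : ℂ) ρ') := by
  set g := ρ - ρ' with hg_def
  have hsubset : ∀ z ∈ closedBall (k : ℂ) ρ', closedBall z g ⊆ closedBall (k : ℂ) ρ := by
    intro z hz
    apply closedBall_subset_closedBall'
    rw [mem_closedBall] at hz
    linarith
  have hshift : ∀ z ∈ closedBall (k : ℂ) ρ', ∀ s : ℂ, ‖s‖ ≤ 1 → z + s ∈ closedBall (k : ℂ) ρ := by
    intro z hz s hs
    apply hsubset z hz
    rw [mem_closedBall, dist_eq_norm]
    simp only [add_sub_cancel_left]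
    linarith
  set e : ℂ → ℂ := fun z => w z - (α * z + β) with he_def
  have hed : DifferentiableOn ℂ e (closedBall (k : ℂ) ρ) := by
    apply hd.sub
    fun_prop
  have hE0 : 0 ≤ E := by
    refine le_trans (norm_nonneg _) (hw (k : ℂ) (mem_closedBall_self (by linarith)))
  have core : ∀ z ∈ closedBall (k : ℂ) ρ',
      w (z - 1) * w (z + 1) - (w z - 1) ^ 2 ≠ 0 ∧
      ‖w (z - 1) * w (z + 1) / (w (z - 1) * w (z + 1) - (w z - 1) ^ 2)
        - ((α / 2 : ℝ) * z + (β / 2 + (1 + α ^ 2) / 4 : ℝ))‖ ≤ newE (1 - α ^ 2) D E P := by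
    intro z hz
    have hsub := hsubset z hz
    have hedz : DifferentiableOn ℂ e (closedBall z g) := hed.mono hsub
    have hEz : ∀ ζ ∈ closedBall z g, ‖e ζ‖ ≤ E := fun ζ hζ => hw ζ (hsub hζ)
    have c2 := cauchy_second_diff hg hedz hEz
    have c1p := cauchy_first_diff (s := 1) hg (by simp) hedz hEz
    have c1m := cauchy_first_diff (s := -1) hg (by simp) hedz hEz
    have hez : ‖e z‖ ≤ E := hEz z (mem_closedBall_self (by linarith))
    set x : ℂ := α * z + β with hx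
    have hzre : k - ρ' ≤ z.re ∧ ‖z‖ ≤ k + ρ' := by
      rw [mem_closedBall, dist_eq_norm] at hz
      constructor
      · have h1 := Complex.abs_re_le_norm (z - k)
        simp only [Complex.sub_re, Complex.ofReal_re] at h1
        have := (abs_le.mp (h1.trans hz)).1
        linarith
      · have h2 : ‖z‖ ≤ ‖z - k‖ + ‖(k : ℂ)‖ := by
          calc ‖z‖ = ‖(z - k) + k‖ := by ring_nf
            _ ≤ _ := norm_add_le _ _
        rw [Complex.norm_real, Real.norm_of_nonneg hk] at h2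
        linarith
    have hxn : ‖x‖ ≤ X := by
      rw [hx, hX]
      calc ‖(α : ℂ) * z + β‖ ≤ ‖(α : ℂ) * z‖ + ‖(β : ℂ)‖ := norm_add_le _ _
        _ = α * ‖z‖ + β := by
            rw [norm_mul, Complex.norm_real, Complex.norm_real, Real.norm_of_nonneg hα0,
              Real.norm_of_nonneg hβ]
        _ ≤ α * (k + ρ') + β := by
            have := mul_le_mul_of_nonneg_left hzre.2 hα0
            linarith
    have hDre : D ≤ (2 * x - 1 - (α : ℂ) ^ 2).re := by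
      have : (2 * x - 1 - (α : ℂ) ^ 2).re = 2 * (α * z.re + β) - 1 - α ^ 2 := by
        rw [hx]
        have h4 : (2 * ((α : ℂ) * z + β) - 1 - (α : ℂ) ^ 2) =
          ((2 * α : ℝ) : ℂ) * z + ((2 * β - 1 - α ^ 2 : ℝ) : ℂ) := by push_cast; ring
        rw [h4, Complex.add_re, Complex.re_ofReal_mul, Complex.ofReal_re]
        ring
      rw [this, hD]
      have := mul_le_mul_of_nonneg_left hzre.1 hα0
      linarith
    have hwz : w z = x + e z := by rw [he_def]; simp only []; ring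
    have hwm : w (z - 1) = x - α + e (z - 1) := by
      rw [he_def, hx]; simp only []; ring
    have hwp : w (z + 1) = x + α + e (z + 1) := by
      rw [he_def, hx]; simp only []; ring
    have hg1 : 0 < g - 1 := by linarith
    have hg2 : 0 < g ^ 2 - 1 := by nlinarith
    have hPbound : ‖(x + e z) * (e (z + 1) + e (z - 1) - 2 * e z) - α * (e (z + 1) - e (z - 1))
        + (e (z + 1) - e z) * (e (z - 1) - e z)‖ ≤ P := by
      have hm : z - 1 = z + (-1) := by ring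
      have q1 : ‖e (z + 1) - e z‖ ≤ E / (g - 1) := c1p
      have q2 : ‖e (z - 1) - e z‖ ≤ E / (g - 1) := by rw [hm]; exact c1m
      have q3 : ‖e (z + 1) - e (z - 1)‖ ≤ 2 * (E / (g - 1)) := by
        have : e (z + 1) - e (z - 1) = (e (z + 1) - e z) - (e (z - 1) - e z) := by ring
        rw [this]
        calc _ ≤ ‖e (z + 1) - e z‖ + ‖e (z - 1) - e z‖ := norm_sub_le _ _
          _ ≤ _ := by linarith
      have q4 : ‖x + e z‖ ≤ X + E := (norm_add_le _ _).trans (by linarith)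
      have hd1 : 0 ≤ E / (g - 1) := by positivity
      calc _ ≤ ‖(x + e z) * (e (z + 1) + e (z - 1) - 2 * e z) - α * (e (z + 1) - e (z - 1))‖
              + ‖(e (z + 1) - e z) * (e (z - 1) - e z)‖ := norm_add_le _ _
        _ ≤ ‖(x + e z) * (e (z + 1) + e (z - 1) - 2 * e z)‖ + ‖(α : ℂ) * (e (z + 1) - e (z - 1))‖
              + ‖(e (z + 1) - e z) * (e (z - 1) - e z)‖ := by
            gcongr; exact norm_sub_le _ _
        _ ≤ (X + E) * (2 * E / (g ^ 2 - 1)) + α * (2 * (E / (g - 1)))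
              + (E / (g - 1)) * (E / (g - 1)) := by
            rw [norm_mul, norm_mul, norm_mul, Complex.norm_real, Real.norm_of_nonneg hα0]
            have hXE : 0 ≤ X + E := le_trans (norm_nonneg _) q4
            gcongr
        _ ≤ P := by
            refine le_trans (le_of_eq ?_) hP
            ring
    have := step_alg hα0 hα1 hDre hDc hez hPbound hDs
    rw [hwz, hwm, hwp]
    refine ⟨this.1, ?_⟩
    have h5 : ((α / 2 : ℝ) : ℂ) * z + ((β / 2 + (1 + α ^ 2) / 4 : ℝ) : ℂ)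
        = x / 2 + (1 + (α : ℂ) ^ 2) / 4 := by
      rw [hx]; push_cast; ring
    rw [h5]
    exact this.2
  refine ⟨fun z hz => (core z hz).1, fun z hz => (core z hz).2, ?_⟩
  have dm : DifferentiableOn ℂ (fun z => w (z - 1)) (closedBall (k : ℂ) ρ') := by
    apply hd.comp (by fun_prop)
    intro z hz
    have := hshift z hz (-1) (by simp)
    rwa [← sub_eq_add_neg] at this
  have dp : DifferentiableOn ℂ (fun z => w (z + 1)) (closedBall (k : ℂ) ρ') := by
    apply hd.comp (by fun_prop)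
    intro z hz
    exact hshift z hz 1 (by simp)
  have d0 : DifferentiableOn ℂ w (closedBall (k : ℂ) ρ') := by
    apply hd.mono
    apply closedBall_subset_closedBall
    linarith
  have dprod : DifferentiableOn ℂ (fun z => w (z - 1) * w (z + 1)) (closedBall (k : ℂ) ρ') :=
    dm.mul dp
  have dsq : DifferentiableOn ℂ (fun z => (w z - 1) ^ 2) (closedBall (k : ℂ) ρ') :=
    (d0.sub_const 1).pow 2
  exact dprod.div (dprod.sub dsq) (fun z hz => (core z hz).1)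

end Pool.Agent.H19.Euler
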