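import Mathlib
import Pool.Agent.H19.Euler.Step

/-! The step in normalised form: error `A / (α k)` at a level with slope `α`. -/

set_option autoImplicit false

namespace Pool.Agent.H19.Euler

open Complex Metric

/-- The constant term at a level with slope `α`. -/
noncomputable def bet (α : ℝ) : ℝ := 1 / 2 + 3 / 2 * α - α ^ 2

theorem bet_half (α : ℝ) : bet α / 2 + (1 + α ^ 2) / 4 = bet (α / 2) := by
  unfold bet; ring

/-- The next iterate. -/
noncomputable def nxt (w : ℂ → ℂ) : ℂ → ℂ :=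
  fun z => w (z - 1) * w (z + 1) / (w (z - 1) * w (z + 1) - (w z - 1) ^ 2)

/-- `w` is within `E` of `α z + bet α` on the closed disc of radius `ρ` about `k`. -/
structure Lvl (w : ℂ → ℂ) (k ρ α E : ℝ) : Prop where
  bound : ∀ z ∈ closedBall (k : ℂ) ρ, ‖w z - ((α : ℂ) * z + (bet α : ℝ))‖ ≤ E
  diff : DifferentiableOn ℂ w (closedBall (k : ℂ) ρ)

theorem Lvl.weaken {w : ℂ → ℂ} {k ρ α E E' : ℝ} (h : Lvl w k ρ α E) (hE : E ≤ E') :
    Lvl w k ρ α E' :=
  ⟨fun z hz => (h.bound z hz).trans hE, h.diff⟩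

theorem aux_gap {t g0 : ℝ} (ht : 1 ≤ t) (hg0 : 0 < g0 ^ 2 - 1) :
    2 / ((t * g0) ^ 2 - 1) ≤ 2 / (t * (g0 ^ 2 - 1)) := by
  have h1 : t * (g0 ^ 2 - 1) ≤ (t * g0) ^ 2 - 1 := by
    have e : (t * g0) ^ 2 - 1 - t * (g0 ^ 2 - 1) = (t - 1) * (t * g0 ^ 2 + 1) := by ring
    have : 0 ≤ (t - 1) * (t * g0 ^ 2 + 1) := by
      apply mul_nonneg (by linarith)
      have : 0 ≤ t * g0 ^ 2 := mul_nonneg (by linarith) (sq_nonneg _)
      linarith
    linarith
  exact div_le_div_of_nonneg_left (by norm_num) (mul_pos (by linarith) hg0) h1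

theorem aux_P {S0 t b A g0 α q π : ℝ} (hS0 : 0 < S0) (ht : 1 ≤ t) (hb : 0 ≤ b) (hA : 0 ≤ A)
    (hα : 0 ≤ α) (hg0 : 1 < g0) (hq : 0 ≤ q)
    (hπ : (S0 * q + b + A / S0) * (2 / (g0 ^ 2 - 1)) + 2 * α / (g0 - 1)
        + A / S0 / (g0 - 1) ^ 2 ≤ π) :
    ((t * S0) * q + b + A / (t * S0)) * (2 * (A / (t * S0)) / ((t * g0) ^ 2 - 1))
      + 2 * α * (A / (t * S0) / (t * g0 - 1)) + (A / (t * S0) / (t * g0 - 1)) ^ 2
      ≤ π * (A / (t * S0)) := by
  have hg0m : 0 < g0 ^ 2 - 1 := by nlinarith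
  have ht0 : 0 < t := by linarith
  have hEE : A / (t * S0) ≤ A / S0 := by
    apply div_le_div_of_nonneg_left hA hS0
    nlinarith
  have hE0 : 0 ≤ A / (t * S0) := by positivity
  have hAS : 0 ≤ A / S0 := by positivity
  have hg01 : 0 < g0 - 1 := by linarith
  have htg : g0 - 1 ≤ t * g0 - 1 := by nlinarith
  have htg0 : 0 < t * g0 - 1 := by linarith
  have hgap := aux_gap ht hg0m
  have h1 : (t * S0) * q + b + A / (t * S0) ≤ t * (S0 * q + b + A / S0) := by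
    have e2 : b ≤ t * b := by nlinarith
    have e3 : A / (t * S0) ≤ t * (A / S0) := by nlinarith
    nlinarith
  have hpos2 : 0 ≤ 2 / (t * (g0 ^ 2 - 1)) := by positivity
  have hsum0 : 0 ≤ t * (S0 * q + b + A / S0) := by positivity
  have hgm : 0 < (t * g0) ^ 2 - 1 := by nlinarith
  have p1 : ((t * S0) * q + b + A / (t * S0)) * (2 / ((t * g0) ^ 2 - 1))
      ≤ (S0 * q + b + A / S0) * (2 / (g0 ^ 2 - 1)) := by
    calc _ ≤ (t * (S0 * q + b + A / S0)) * (2 / (t * (g0 ^ 2 - 1))) :=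
          mul_le_mul h1 hgap (by positivity) hsum0
      _ = _ := by field_simp
  have p2 : 2 * α / (t * g0 - 1) ≤ 2 * α / (g0 - 1) :=
    div_le_div_of_nonneg_left (by positivity) hg01 htg
  have p3 : A / (t * S0) / (t * g0 - 1) ^ 2 ≤ A / S0 / (g0 - 1) ^ 2 := by
    apply div_le_div₀ hAS hEE (by positivity)
    gcongr
  have htot := mul_le_mul_of_nonneg_right (add_le_add (add_le_add p1 p2) p3) hE0
  have hfin := mul_le_mul_of_nonneg_right hπ hE0
  refine le_trans (le_of_eq ?_) (htot.trans hfin)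
  generalize t * g0 - 1 = u
  generalize A / (t * S0) = v
  ring

theorem aux_newE {c S S0 τ A π A' : ℝ} (hS0 : 0 < S0) (hSS : S0 ≤ S) (hτ : 0 < τ) (hA : 0 ≤ A)
    (hπ0 : 0 ≤ π)
    (hden : (2 + π) * (A / (2 * S0 ^ 2 * τ)) < 1)
    (hA' : c ^ 2 / (16 * τ) + A / 2 *
      ((1 / 2 * (1 + c ^ 2 / (2 * S0 * τ) ^ 2) + A / (2 * S0 ^ 2 * τ) + π / 4)
        / (1 - (2 + π) * (A / (2 * S0 ^ 2 * τ)))) ≤ A') :
    newE c (2 * S * τ) (A / S) (π * (A / S)) ≤ A' / (S / 2) ∧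
      2 * (A / S) + π * (A / S) < 2 * S * τ := by
  have hS : 0 < S := by linarith
  have hD : 0 < 2 * S * τ := by positivity
  have hratio : A / (2 * S ^ 2 * τ) ≤ A / (2 * S0 ^ 2 * τ) := by
    apply div_le_div_of_nonneg_left hA (by positivity)
    gcongr
  have hM0 : 0 < 1 - (2 + π) * (A / (2 * S0 ^ 2 * τ)) := by linarith
  have hM : 1 - (2 + π) * (A / (2 * S0 ^ 2 * τ)) ≤ 1 - (2 + π) * (A / (2 * S ^ 2 * τ)) := by
    have := mul_le_mul_of_nonneg_left hratio (by linarith : (0:ℝ) ≤ 2 + π)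
    linarith
  have hMp : 0 < 1 - (2 + π) * (A / (2 * S ^ 2 * τ)) := by linarith
  have hlt : 2 * (A / S) + π * (A / S) < 2 * S * τ := by
    have e : (2 + π) * (A / (2 * S ^ 2 * τ)) = (2 * (A / S) + π * (A / S)) / (2 * S * τ) := by
      field_simp
    rw [e] at hMp
    have : (2 * (A / S) + π * (A / S)) / (2 * S * τ) < 1 := by linarith
    rwa [div_lt_one hD] at this
  refine ⟨?_, hlt⟩
  have hN : 1 / 2 * (1 + c ^ 2 / (2 * S * τ) ^ 2) + A / (2 * S ^ 2 * τ) + π / 4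
      ≤ 1 / 2 * (1 + c ^ 2 / (2 * S0 * τ) ^ 2) + A / (2 * S0 ^ 2 * τ) + π / 4 := by
    have : c ^ 2 / (2 * S * τ) ^ 2 ≤ c ^ 2 / (2 * S0 * τ) ^ 2 := by
      apply div_le_div_of_nonneg_left (sq_nonneg c) (by positivity)
      gcongr
    linarith
  have hN0 : 0 ≤ 1 / 2 * (1 + c ^ 2 / (2 * S * τ) ^ 2) + A / (2 * S ^ 2 * τ) + π / 4 := by
    positivity
  have hfrac := div_le_div₀ (hN0.trans hN) hN hM0 hM
  have hne : (2 * S * τ - 2 * (A / S) - π * (A / S)) ≠ 0 := by linarith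
  have hid : newE c (2 * S * τ) (A / S) (π * (A / S))
      = (c ^ 2 / (16 * τ) + A / 2 *
        ((1 / 2 * (1 + c ^ 2 / (2 * S * τ) ^ 2) + A / (2 * S ^ 2 * τ) + π / 4)
        / (1 - (2 + π) * (A / (2 * S ^ 2 * τ))))) / (S / 2) := by
    have hM' : 1 - (2 + π) * (A / (2 * S ^ 2 * τ))
        = (2 * S * τ - 2 * (A / S) - π * (A / S)) / (2 * S * τ) := by
      field_simp
      ring
    rw [hM']
    unfold newE
    generalize hm : 2 * S * τ - 2 * (A / S) - π * (A / S) = m at hne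
    field_simp
    ring
  rw [hid]
  apply div_le_div_of_nonneg_right _ (by positivity)
  refine le_trans ?_ hA'
  have := mul_le_mul_of_nonneg_left hfrac (by linarith : (0:ℝ) ≤ A / 2)
  linarith

theorem Lvl.step_A {w : ℂ → ℂ} {k r α A A' γ π k0 : ℝ} (hα : 0 < α) (hα1 : α ≤ 1)
    (hk0 : 0 < k0) (hk : k0 ≤ k) (hγ : 0 < γ) (hr : 0 < r)
    (hr1 : γ * r < 1) (hA : 0 ≤ A)
    (hg : 1 < (1 - γ) * r * k0)
    (hπ : (α * k0 * (1 + γ * r) + bet α + A / (α * k0)) * (2 / (((1 - γ) * r * k0) ^ 2 - 1))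
      + 2 * α / ((1 - γ) * r * k0 - 1) + A / (α * k0) / ((1 - γ) * r * k0 - 1) ^ 2 ≤ π)
    (hden : (2 + π) * (A / (2 * (α * k0) ^ 2 * (1 - γ * r))) < 1)
    (hA' : (1 - α ^ 2) ^ 2 / (16 * (1 - γ * r)) + A / 2 *
      ((1 / 2 * (1 + (1 - α ^ 2) ^ 2 / (2 * (α * k0) * (1 - γ * r)) ^ 2)
        + A / (2 * (α * k0) ^ 2 * (1 - γ * r)) + π / 4)
        / (1 - (2 + π) * (A / (2 * (α * k0) ^ 2 * (1 - γ * r))))) ≤ A')
    (hDc : (1 - α ^ 2) / 2 ≤ 2 * (α * k0) * (1 - γ * r))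
    (h : Lvl w k (r * k) α (A / (α * k))) :
    (∀ z ∈ closedBall (k : ℂ) (γ * r * k), w (z - 1) * w (z + 1) - (w z - 1) ^ 2 ≠ 0) ∧
    Lvl (nxt w) k (γ * r * k) (α / 2) (A' / (α / 2 * k)) := by
  have hk' : 0 < k := lt_of_lt_of_le hk0 hk
  have hτ0 : 0 < 1 - γ * r := by linarith
  have hS0p : 0 < α * k0 := mul_pos hα hk0
  have hSp : 0 < α * k := mul_pos hα hk'
  have hSS : α * k0 ≤ α * k := mul_le_mul_of_nonneg_left hk hα.le
  have hbet0 : 0 ≤ bet α := by unfold bet; nlinarith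
  have hgap : r * k - γ * r * k = (1 - γ) * r * k := by ring
  have hg01 : 0 < (1 - γ) * r * k0 - 1 := by linarith
  have hg02 : 0 < ((1 - γ) * r * k0) ^ 2 - 1 := by nlinarith
  have hπ0 : 0 ≤ π := by
    refine le_trans ?_ hπ
    have : 0 ≤ A / (α * k0) := div_nonneg hA hS0p.le
    positivity
  obtain ⟨t, ht, htk⟩ : ∃ t : ℝ, 1 ≤ t ∧ k = t * k0 := by
    refine ⟨k / k0, ?_, by field_simp⟩
    rw [le_div_iff₀ hk0]; linarith
  have hgt : (1 - γ) * r * k = t * ((1 - γ) * r * k0) := by rw [htk]; ring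
  have hSt : α * k = t * (α * k0) := by rw [htk]; ring
  have hg1 : 1 < (1 - γ) * r * k := by rw [hgt]; nlinarith
  have hP : (α * (k + γ * r * k) + bet α + A / (α * k))
        * (2 * (A / (α * k)) / ((r * k - γ * r * k) ^ 2 - 1))
      + 2 * α * (A / (α * k) / (r * k - γ * r * k - 1))
      + (A / (α * k) / (r * k - γ * r * k - 1)) ^ 2 ≤ π * (A / (α * k)) := by
    have := aux_P (S0 := α * k0) (t := t) (b := bet α) (A := A) (g0 := (1 - γ) * r * k0) (α := α)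
      (q := 1 + γ * r) (π := π) hS0p ht hbet0 hA hα.le hg (by positivity) hπ
    rw [hgap, hgt, hSt]
    have e : α * (k + γ * r * k) = t * (α * k0) * (1 + γ * r) := by rw [htk]; ring
    rw [e]
    exact this
  have hD1 : 2 * (α * k) * (1 - γ * r) ≤ 2 * (α * (k - γ * r * k) + bet α) - 1 - α ^ 2 := by
    have e : 2 * (α * (k - γ * r * k) + bet α) - 1 - α ^ 2
        = 2 * (α * k) * (1 - γ * r) + 3 * α * (1 - α) := by
      unfold bet; ring
    rw [e]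
    have : 0 ≤ 3 * α * (1 - α) := mul_nonneg (by linarith) (by linarith)
    linarith
  have hnew := aux_newE (c := 1 - α ^ 2) (S := α * k) (S0 := α * k0) (τ := 1 - γ * r) (A := A)
    (π := π) (A' := A') hS0p hSS hτ0 hA hπ0 hden hA'
  have hE0 : 0 ≤ A / (α * k) := div_nonneg hA hSp.le
  have hDc' : (1 - α ^ 2) / 2 ≤ 2 * (α * (k - γ * r * k) + bet α) - 1 - α ^ 2 := by
    have : 2 * (α * k0) * (1 - γ * r) ≤ 2 * (α * k) * (1 - γ * r) := by gcongr
    linarith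
  have hst := step (w := w) (k := k) (ρ := r * k) (ρ' := γ * r * k) (α := α) (β := bet α)
    (E := A / (α * k))
    hα.le hα1 hbet0 hk'.le (by positivity) (by rw [hgap]; exact hg1) h.bound h.diff rfl rfl hP
    hDc' (by linarith [hnew.2])
  refine ⟨hst.1, ?_, hst.2.2⟩
  intro z hz
  have h1 := hst.2.1 z hz
  rw [bet_half] at h1
  refine h1.trans ?_
  refine (newE_mono hnew.2 hE0 (by positivity) hD1).trans ?_
  have e : α / 2 * k = α * k / 2 := by ring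
  rw [e]
  exact hnew.1

end Pool.Agent.H19.Euler
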