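import Mathlib
import Pool.Agent.H19.Euler.StepA

/-! The chain of levels for a fixed index `k ≥ 20`. -/

set_option autoImplicit false

namespace Pool.Agent.H19.Euler

open Complex Metric

/-- The iterates. -/
noncomputable def itr (w : ℂ → ℂ) : ℕ → ℂ → ℂ
  | 0 => w
  | (j + 1) => nxt (itr w j)

theorem Lvl.re_pos {w : ℂ → ℂ} {k ρ α E : ℝ} (h : Lvl w k ρ α E) (hρ : 0 ≤ ρ)
    (hE : E < α * k + bet α) : 0 < (w (k : ℂ)).re := by
  have h1 := h.bound (k : ℂ) (mem_closedBall_self hρ)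
  have h2 := (Complex.abs_re_le_norm _).trans h1
  have h3 : (w (k : ℂ) - ((α : ℂ) * k + (bet α : ℝ))).re = (w (k : ℂ)).re - (α * k + bet α) := by
    simp
  rw [h3] at h2
  have := (abs_le.mp h2).1
  linarith

/-- The final estimate at the last controlled level. -/
theorem Lvl.final {w : ℂ → ℂ} {k ρ α E : ℝ} (h : Lvl w k ρ α E) (hρ : 1 ≤ ρ)
    (hα0 : 0 ≤ α) (hα : α ≤ 1 / 16)
    (hx : 383 / 1000 * (α * k) + 1617 / 1000 * E + 575 / 1000 * α + 235 / 1000 * α ^ 2
      ≤ 8085 / 10000)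
    (hx1 : 31 / 40 ≤ α * k) (hE3 : E ≤ 3 / 10)
    {a b c : ℝ} (ha : (a : ℂ) = w ((k : ℂ) - 1)) (hb : (b : ℂ) = w (k : ℂ))
    (hc : (c : ℂ) = w ((k : ℂ) + 1)) :
    0 < a ∧ 0 < b ∧ 0 < c ∧ (b - 1) ^ 2 ≤ 3808 / 10000 * (a * c) := by
  have key : ∀ (z v : ℝ), (z : ℂ) ∈ closedBall (k : ℂ) ρ → (v : ℂ) = w (z : ℂ) →
      |v - (α * z + bet α)| ≤ E := by
    intro z v hz hv
    have h1 := h.bound (z : ℂ) hz
    rw [← hv] at h1
    have e : ((v : ℂ) - ((α : ℂ) * z + (bet α : ℝ))) = ((v - (α * z + bet α) : ℝ) : ℂ) := by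
      push_cast; ring
    rw [e, Complex.norm_real, Real.norm_eq_abs] at h1
    exact h1
  have m0 : ((k : ℝ) : ℂ) ∈ closedBall (k : ℂ) ρ := mem_closedBall_self (by linarith)
  have m1 : ((k - 1 : ℝ) : ℂ) ∈ closedBall (k : ℂ) ρ := by
    rw [mem_closedBall, dist_eq_norm]; push_cast
    have : (k : ℂ) - 1 - k = -1 := by ring
    rw [this]; simpa using hρ
  have m2 : ((k + 1 : ℝ) : ℂ) ∈ closedBall (k : ℂ) ρ := by
    rw [mem_closedBall, dist_eq_norm]; push_cast
    have : (k : ℂ) + 1 - k = 1 := by ring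
    rw [this]; simpa using hρ
  have ka := abs_le.mp (key (k - 1) a m1 (by rw [ha]; push_cast; rfl))
  have kb := abs_le.mp (key k b m0 hb)
  have kc := abs_le.mp (key (k + 1) c m2 (by rw [hc]; push_cast; rfl))
  set x : ℝ := α * k + bet α with hxdef
  have hbet : bet α = 1 / 2 + 3 / 2 * α - α ^ 2 := rfl
  have hxlow : 1275 / 1000 ≤ x := by rw [hxdef, hbet]; nlinarith
  have hE0 : 0 ≤ E := le_trans (abs_nonneg _) (key k b m0 hb)
  have a1 : x - α - E ≤ a := by nlinarith [ka.1]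
  have c1 : x + α - E ≤ c := by nlinarith [kc.1]
  have b1 : b ≤ x + E := by linarith [kb.2]
  have b2 : x - E ≤ b := by linarith [kb.1]
  have hpos : 0 < x - α - E := by linarith
  have hα2 : α ^ 2 ≤ 1 / 256 := by nlinarith
  have hac : (x - E) ^ 2 - α ^ 2 ≤ a * c := by
    have : (x - α - E) * (x + α - E) ≤ a * c := by
      apply mul_le_mul a1 c1 (by linarith) (by linarith)
    nlinarith
  have hy : (x - E - α ^ 2) ^ 2 ≤ (x - E) ^ 2 - α ^ 2 := by
    nlinarith [sq_nonneg α]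
  have hlin : x + E - 1 ≤ 617 / 1000 * (x - E - α ^ 2) := by
    rw [hxdef, hbet]; nlinarith
  have hy0 : 0 ≤ x - E - α ^ 2 := by linarith
  have hbsq : (b - 1) ^ 2 ≤ (x + E - 1) ^ 2 := by
    apply sq_le_sq'
    · linarith
    · linarith
  have hsq : (x + E - 1) ^ 2 ≤ (617 / 1000 * (x - E - α ^ 2)) ^ 2 := by
    apply pow_le_pow_left₀ (by linarith) hlin
  refine ⟨by linarith, by linarith, by linarith, ?_⟩
  nlinarith

/-- Output of the chain for the index `k`. -/
structure Out (w : ℂ → ℂ) (k : ℝ) (J : ℕ) : Prop where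
  pos : ∀ j ≤ J, 0 < (itr w j (k : ℂ)).re
  den : ∀ j < J, itr w j ((k : ℂ) - 1) * itr w j ((k : ℂ) + 1) - (itr w j (k : ℂ) - 1) ^ 2 ≠ 0
  fin : ∀ a b c : ℝ, (a : ℂ) = itr w J ((k : ℂ) - 1) → (b : ℂ) = itr w J (k : ℂ) →
    (c : ℂ) = itr w J ((k : ℂ) + 1) →
    0 < a ∧ 0 < b ∧ 0 < c ∧ (b - 1) ^ 2 ≤ 3808 / 10000 * (a * c)

theorem chain_low {w : ℂ → ℂ} {k : ℝ} (hk : 20 ≤ k) (hk2 : k ≤ 24 ∨ (25 ≤ k ∧ k ≤ 40))
    (h : Lvl w k (94 / 100 * k) 1 (4 / 100 / (1 * k))) : ∃ J, Out w k J := by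
  have kpos : 0 < k := by linarith
  have s0 := Lvl.step_A (w := w) (k := k) (r := 94 / 100) (α := 1) (A := 4 / 100) (A' := 217 / 10000)
    (γ := 68 / 100) (π := 232 / 100) (k0 := 20) (by norm_num) (by norm_num) (by norm_num) hk
    (by norm_num) (by norm_num) (by norm_num) (by norm_num) (by norm_num) (by norm_num [bet])
    (by norm_num) (by norm_num) (by norm_num) h
  have s1 := Lvl.step_A (w := nxt w) (k := k) (r := 68 / 100 * (94 / 100)) (α := 1 / 2)
    (A := 217 / 10000) (A' := 739 / 10000)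
    (γ := 68 / 100) (π := 2275 / 1000) (k0 := 20) (by norm_num) (by norm_num) (by norm_num) hk
    (by norm_num) (by norm_num) (by norm_num) (by norm_num) (by norm_num) (by norm_num [bet])
    (by norm_num) (by norm_num) (by norm_num) s0.2
  have s2 := Lvl.step_A (w := nxt (nxt w)) (k := k) (r := 68 / 100 * (68 / 100 * (94 / 100)))
    (α := 1 / 2 / 2) (A := 739 / 10000) (A' := 12 / 100)
    (γ := 68 / 100) (π := 2454 / 1000) (k0 := 20) (by norm_num) (by norm_num) (by norm_num) hk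
    (by norm_num) (by norm_num) (by norm_num) (by norm_num) (by norm_num) (by norm_num [bet])
    (by norm_num) (by norm_num) (by norm_num) s1.2
  have s3 := Lvl.step_A (w := nxt (nxt (nxt w))) (k := k)
    (r := 68 / 100 * (68 / 100 * (68 / 100 * (94 / 100))))
    (α := 1 / 2 / 2 / 2) (A := 12 / 100) (A' := 1623 / 10000)
    (γ := 68 / 100) (π := 3229 / 1000) (k0 := 20) (by norm_num) (by norm_num) (by norm_num) hk
    (by norm_num) (by norm_num) (by norm_num) (by norm_num) (by norm_num) (by norm_num [bet])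
    (by norm_num) (by norm_num) (by norm_num) s2.2
  have mem0 : ∀ ρ : ℝ, 0 ≤ ρ → (k : ℂ) ∈ closedBall (k : ℂ) ρ := fun ρ hρ => mem_closedBall_self hρ
  have p0 : 0 < (itr w 0 (k : ℂ)).re := h.re_pos (by positivity) (by
    unfold bet; rw [div_lt_iff₀ (by positivity)]; nlinarith)
  have p1 : 0 < (itr w 1 (k : ℂ)).re := s0.2.re_pos (by positivity) (by
    unfold bet; rw [div_lt_iff₀ (by positivity)]; nlinarith)
  have p2 : 0 < (itr w 2 (k : ℂ)).re := s1.2.re_pos (by positivity) (by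
    unfold bet; rw [div_lt_iff₀ (by positivity)]; nlinarith)
  have p3 : 0 < (itr w 3 (k : ℂ)).re := s2.2.re_pos (by positivity) (by
    unfold bet; rw [div_lt_iff₀ (by positivity)]; nlinarith)
  have p4 : 0 < (itr w 4 (k : ℂ)).re := s3.2.re_pos (by positivity) (by
    unfold bet; rw [div_lt_iff₀ (by positivity)]; nlinarith)
  have d0 := s0.1 (k : ℂ) (mem0 _ (by positivity))
  have d1 := s1.1 (k : ℂ) (mem0 _ (by positivity))
  have d2 := s2.1 (k : ℂ) (mem0 _ (by positivity))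
  have d3 := s3.1 (k : ℂ) (mem0 _ (by positivity))
  rcases hk2 with hk24 | ⟨hk25, hk40⟩
  · refine ⟨4, ?_, ?_, ?_⟩
    · intro j hj
      interval_cases j <;> assumption
    · intro j hj
      interval_cases j <;> assumption
    · intro a b c ha hb hc
      have hE : (1623 / 10000 / (1 / 2 / 2 / 2 / 2 * k) : ℝ) ≤ 13 / 100 := by
        rw [div_le_iff₀ (by positivity)]; nlinarith
      refine Lvl.final s3.2 (by nlinarith) (by norm_num) (by norm_num) ?_ (by nlinarith)
        (by linarith) ha hb hc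
      have hE2 : (1623 / 10000 / (1 / 2 / 2 / 2 / 2 * k) : ℝ)
          ≤ 1623 / 10000 * 16 * ((44 - k) / 480) := by
        rw [div_le_iff₀ (by positivity)]
        nlinarith [mul_nonneg (by linarith : (0:ℝ) ≤ k - 20) (by linarith : (0:ℝ) ≤ 24 - k)]
      nlinarith
  · have s4 := Lvl.step_A (w := nxt (nxt (nxt (nxt w)))) (k := k)
      (r := 68 / 100 * (68 / 100 * (68 / 100 * (68 / 100 * (94 / 100)))))
      (α := 1 / 2 / 2 / 2 / 2) (A := 1623 / 10000) (A' := 2279 / 10000)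
      (γ := 68 / 100) (π := 3603 / 1000) (k0 := 25) (by norm_num) (by norm_num) (by norm_num) hk25
      (by norm_num) (by norm_num) (by norm_num) (by norm_num) (by norm_num) (by norm_num [bet])
      (by norm_num) (by norm_num) (by norm_num) s3.2
    have p5 : 0 < (itr w 5 (k : ℂ)).re := s4.2.re_pos (by positivity) (by
      unfold bet; rw [div_lt_iff₀ (by positivity)]; nlinarith)
    have d4 := s4.1 (k : ℂ) (mem0 _ (by positivity))
    refine ⟨5, ?_, ?_, ?_⟩
    · intro j hj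
      interval_cases j <;> assumption
    · intro j hj
      interval_cases j <;> assumption
    · intro a b c ha hb hc
      have hE : (2279 / 10000 / (1 / 2 / 2 / 2 / 2 / 2 * k) : ℝ) ≤ 292 / 1000 := by
        rw [div_le_iff₀ (by positivity)]; nlinarith
      refine Lvl.final s4.2 (by nlinarith) (by norm_num) (by norm_num) ?_ (by nlinarith)
        (by linarith) ha hb hc
      have hE2 : (2279 / 10000 / (1 / 2 / 2 / 2 / 2 / 2 * k) : ℝ)
          ≤ 2279 / 10000 * 32 * ((65 - k) / 1000) := by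
        rw [div_le_iff₀ (by positivity)]
        nlinarith [mul_nonneg (by linarith : (0:ℝ) ≤ k - 25) (by linarith : (0:ℝ) ≤ 40 - k)]
      nlinarith

end Pool.Agent.H19.Euler
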