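import Mathlib
import Pool.Agent.H19.Euler.Chain

/-! The chain of levels for `k ≥ 41`. -/

set_option autoImplicit false

namespace Pool.Agent.H19.Euler

open Complex Metric

theorem itr_nxt (w : ℂ → ℂ) (j : ℕ) : itr (nxt w) j = itr w (j + 1) := by
  induction j with
  | zero => rfl
  | succ j ih => show nxt (itr (nxt w) j) = nxt (itr w (j + 1)); rw [ih]

theorem Out.cons {w : ℂ → ℂ} {k : ℝ} {J : ℕ} (hpos : 0 < (w (k : ℂ)).re)
    (hden : w ((k : ℂ) - 1) * w ((k : ℂ) + 1) - (w (k : ℂ) - 1) ^ 2 ≠ 0)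
    (h : Out (nxt w) k J) : Out w k (J + 1) := by
  refine ⟨?_, ?_, ?_⟩
  · intro j hj
    cases j with
    | zero => exact hpos
    | succ j =>
      have := h.pos j (by omega)
      rwa [itr_nxt] at this
  · intro j hj
    cases j with
    | zero => exact hden
    | succ j =>
      have := h.den j (by omega)
      rwa [itr_nxt] at this
  · intro a b c ha hb hc
    rw [← itr_nxt] at ha hb hc
    exact h.fin a b c ha hb hc

theorem step_uniform {w : ℂ → ℂ} {k α r : ℝ} (hα : 0 < α) (hα1 : α ≤ 1 / 64)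
    (hk : 155 / 100 / α ≤ k) (hr : 0 < r) (hr1 : r ≤ 93 / 1000)
    (hg : 2949 / 1000 ≤ 32 / 100 * r * (155 / 100 / α))
    (h : Lvl w k (r * k) α (171 / 1000 / (α * k))) :
    (∀ z ∈ closedBall (k : ℂ) (68 / 100 * r * k), w (z - 1) * w (z + 1) - (w z - 1) ^ 2 ≠ 0) ∧
    Lvl (nxt w) k (68 / 100 * r * k) (α / 2) (171 / 1000 / (α / 2 * k)) := by
  have hk0 : 0 < 155 / 100 / α := by positivity
  have e1 : α * (155 / 100 / α) = 155 / 100 := by field_simp
  have hα2 : α ^ 2 ≤ 1 / 4096 := by nlinarith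
  have hc0 : 0 ≤ (1 - α ^ 2) := by linarith [sq_nonneg α, hα2]
  have hc1 : (1 - α ^ 2) ^ 2 ≤ 1 := by nlinarith [sq_nonneg α]
  have hτ : 9367 / 10000 ≤ 1 - 68 / 100 * r := by linarith
  have hτ0 : 0 < 1 - 68 / 100 * r := by linarith
  have hbet : bet α ≤ 5235 / 10000 := by unfold bet; nlinarith [sq_nonneg α]
  have hbet0 : 0 ≤ bet α := by unfold bet; nlinarith [sq_nonneg α]
  have ht : 1 / (1 - 68 / 100 * r) ≤ 1 / (9367 / 10000) := one_div_le_one_div_of_le (by norm_num) hτ
  refine Lvl.step_A (γ := 68 / 100) (π := 64 / 100) (k0 := 155 / 100 / α) hα (by linarith) hk0 hk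
    (by norm_num) hr (by linarith) (by norm_num) ?_ ?_ ?_ ?_ ?_ h
  · have e : (1 - 68 / 100 : ℝ) = 32 / 100 := by norm_num
    rw [e]; linarith
  · have e : (1 - 68 / 100 : ℝ) = 32 / 100 := by norm_num
    rw [e, e1]
    set g := 32 / 100 * r * (155 / 100 / α) with hgdef
    have h1 : 2 / (g ^ 2 - 1) ≤ 26 / 100 := by
      rw [div_le_iff₀ (by nlinarith)]; nlinarith
    have h10 : 0 ≤ 2 / (g ^ 2 - 1) := by
      apply div_nonneg (by norm_num); nlinarith
    have h2 : 2 * α / (g - 1) ≤ 17 / 1000 := by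
      rw [div_le_iff₀ (by linarith)]; nlinarith
    have h3 : (171 / 1000 / (155 / 100) : ℝ) / (g - 1) ^ 2 ≤ 2910 / 100000 := by
      rw [div_le_iff₀ (by nlinarith)]; nlinarith
    have h4 : (155 / 100 * (1 + 68 / 100 * r) + bet α + 171 / 1000 / (155 / 100) : ℝ)
        ≤ 2283 / 1000 := by linarith
    have h5 : (155 / 100 * (1 + 68 / 100 * r) + bet α + 171 / 1000 / (155 / 100) : ℝ)
        * (2 / (g ^ 2 - 1)) ≤ 2283 / 1000 * (26 / 100) := by
      apply mul_le_mul h4 h1 h10 (by norm_num)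
    linarith
  · rw [e1]
    have : (171 / 1000 / (2 * (155 / 100) ^ 2 * (1 - 68 / 100 * r)) : ℝ)
        ≤ 171 / 1000 / (2 * (155 / 100) ^ 2 * (9367 / 10000)) := by
      apply div_le_div_of_nonneg_left (by norm_num) (by norm_num)
      linarith
    nlinarith
  · rw [e1]
    have q1 : (171 / 1000 / (2 * (155 / 100) ^ 2 * (1 - 68 / 100 * r)) : ℝ) ≤ 38 / 1000 := by
      rw [div_le_iff₀ (by positivity)]; nlinarith
    have q2 : (1 - α ^ 2) ^ 2 / (2 * (155 / 100) * (1 - 68 / 100 * r)) ^ 2 ≤ 12 / 100 := by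
      rw [div_le_iff₀ (by positivity)]; nlinarith
    have q3 : (1 - α ^ 2) ^ 2 / (16 * (1 - 68 / 100 * r)) ≤ 67 / 1000 := by
      rw [div_le_iff₀ (by positivity)]; nlinarith
    have q4 : (1 / 2 * (1 + (1 - α ^ 2) ^ 2 / (2 * (155 / 100) * (1 - 68 / 100 * r)) ^ 2)
        + 171 / 1000 / (2 * (155 / 100) ^ 2 * (1 - 68 / 100 * r)) + 64 / 100 / 4)
        / (1 - (2 + 64 / 100) * (171 / 1000 / (2 * (155 / 100) ^ 2 * (1 - 68 / 100 * r))))
        ≤ 85 / 100 := by
      rw [div_le_iff₀ (by nlinarith)]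
      nlinarith
    linarith
  · rw [e1]; nlinarith [sq_nonneg α]

theorem chain_uniform (n : ℕ) : ∀ {w : ℂ → ℂ} {k α r : ℝ}, 0 < α → α ≤ 1 / 64 →
    775 / 1000 ≤ α * k → α * k < 155 / 100 * 2 ^ n → 0 < r → r ≤ 93 / 1000 →
    2949 / 1000 ≤ 32 / 100 * r * (155 / 100 / α) →
    Lvl w k (r * k) α (171 / 1000 / (α * k)) → ∃ J, Out w k J := by
  induction n with
  | zero =>
    intro w k α r hα hα1 hS1 hS2 hr hr1 hg h
    simp only [pow_zero, mul_one] at hS2
    have hk : 0 < k := by
      by_contra hcon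
      push Not at hcon
      have : α * k ≤ 0 := mul_nonpos_of_nonneg_of_nonpos hα.le hcon
      linarith
    have hSp : 0 < α * k := by linarith
    have hE : (171 / 1000 / (α * k) : ℝ) ≤ 171 / 1000 * ((2325 / 1000 - α * k) / (120125 / 100000)) := by
      rw [div_le_iff₀ hSp]
      nlinarith [mul_nonneg (by linarith : (0:ℝ) ≤ α * k - 775 / 1000)
        (by linarith : (0:ℝ) ≤ 155 / 100 - α * k)]
    have hE2 : (171 / 1000 / (α * k) : ℝ) ≤ 23 / 100 := by
      rw [div_le_iff₀ hSp]; nlinarith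
    have hρ : 1 ≤ r * k := by
      have h1 : 32 / 100 * r * (155 / 100 / α) ≤ 32 / 100 * r * (2 * k) := by
        apply mul_le_mul_of_nonneg_left _ (by positivity)
        rw [div_le_iff₀ hα]; nlinarith
      nlinarith
    refine ⟨0, ?_, ?_, ?_⟩
    · intro j hj
      have : j = 0 := by omega
      subst this
      exact h.re_pos (by linarith) (by unfold bet; nlinarith)
    · intro j hj; omega
    · intro a b c ha hb hc
      exact h.final hρ hα.le (by linarith) (by nlinarith) (by linarith) (by linarith) ha hb hc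
  | succ n ih =>
    intro w k α r hα hα1 hS1 hS2 hr hr1 hg h
    have hk : 0 < k := by
      by_contra hcon
      push Not at hcon
      have : α * k ≤ 0 := mul_nonpos_of_nonneg_of_nonpos hα.le hcon
      linarith
    by_cases hlt : α * k < 155 / 100 * 2 ^ n
    · exact ih hα hα1 hS1 hlt hr hr1 hg h
    · push Not at hlt
      have h2n : (1 : ℝ) ≤ 2 ^ n := one_le_pow₀ (by norm_num)
      have hS3 : 155 / 100 ≤ α * k := by nlinarith
      have hk2 : 155 / 100 / α ≤ k := by rw [div_le_iff₀ hα]; linarith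
      have hs := step_uniform hα hα1 hk2 hr hr1 hg h
      have hpos : 0 < (w (k : ℂ)).re := by
        apply h.re_pos (by positivity)
        have hSp : 0 < α * k := by linarith
        have : (171 / 1000 / (α * k) : ℝ) ≤ 23 / 100 := by
          rw [div_le_iff₀ hSp]; nlinarith
        unfold bet; nlinarith
      obtain ⟨J, hJ⟩ := ih (w := nxt w) (k := k) (α := α / 2) (r := 68 / 100 * r) (by positivity)
        (by linarith) (by linarith) (by rw [pow_succ] at hS2; linarith) (by positivity)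
        (by linarith) (by
          have e : 32 / 100 * (68 / 100 * r) * (155 / 100 / (α / 2))
            = 136 / 100 * (32 / 100 * r * (155 / 100 / α)) := by field_simp; norm_num
          rw [e]; nlinarith) hs.2
      exact ⟨J + 1, Out.cons hpos (hs.1 _ (mem_closedBall_self (by positivity))) hJ⟩

theorem chain_high {w : ℂ → ℂ} {k : ℝ} (hk : 41 ≤ k) (hk2 : k ≤ 49 ∨ 50 ≤ k)
    (h : Lvl w k (94 / 100 * k) 1 (5 / (1 * k))) : ∃ J, Out w k J := by
  have kpos : 0 < k := by linarith
  have s0 := Lvl.step_A (w := w) (k := k) (r := 94 / 100) (α := 1) (A := 5) (A' := 19622 / 10000)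
    (γ := 68 / 100) (π := 1083 / 1000) (k0 := 41) (by norm_num) (by norm_num) (by norm_num) hk
    (by norm_num) (by norm_num) (by norm_num) (by norm_num) (by norm_num) (by norm_num [bet])
    (by norm_num) (by norm_num) (by norm_num) h
  have s1 := Lvl.step_A (w := nxt w) (k := k) (r := 68 / 100 * (94 / 100)) (α := 1 / 2)
    (A := 19622 / 10000) (A' := 8165 / 10000)
    (γ := 68 / 100) (π := 1018 / 1000) (k0 := 41) (by norm_num) (by norm_num) (by norm_num) hk
    (by norm_num) (by norm_num) (by norm_num) (by norm_num) (by norm_num) (by norm_num [bet])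
    (by norm_num) (by norm_num) (by norm_num) s0.2
  have s2 := Lvl.step_A (w := nxt (nxt w)) (k := k) (r := 68 / 100 * (68 / 100 * (94 / 100)))
    (α := 1 / 2 / 2) (A := 8165 / 10000) (A' := 3936 / 10000)
    (γ := 68 / 100) (π := 1010 / 1000) (k0 := 41) (by norm_num) (by norm_num) (by norm_num) hk
    (by norm_num) (by norm_num) (by norm_num) (by norm_num) (by norm_num) (by norm_num [bet])
    (by norm_num) (by norm_num) (by norm_num) s1.2
  have s3 := Lvl.step_A (w := nxt (nxt (nxt w))) (k := k)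
    (r := 68 / 100 * (68 / 100 * (68 / 100 * (94 / 100))))
    (α := 1 / 2 / 2 / 2) (A := 3936 / 10000) (A' := 2353 / 10000)
    (γ := 68 / 100) (π := 1080 / 1000) (k0 := 41) (by norm_num) (by norm_num) (by norm_num) hk
    (by norm_num) (by norm_num) (by norm_num) (by norm_num) (by norm_num) (by norm_num [bet])
    (by norm_num) (by norm_num) (by norm_num) s2.2
  have s4 := Lvl.step_A (w := nxt (nxt (nxt (nxt w)))) (k := k)
    (r := 68 / 100 * (68 / 100 * (68 / 100 * (68 / 100 * (94 / 100)))))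
    (α := 1 / 2 / 2 / 2 / 2) (A := 2353 / 10000) (A' := 1826 / 10000)
    (γ := 68 / 100) (π := 1319 / 1000) (k0 := 41) (by norm_num) (by norm_num) (by norm_num) hk
    (by norm_num) (by norm_num) (by norm_num) (by norm_num) (by norm_num) (by norm_num [bet])
    (by norm_num) (by norm_num) (by norm_num) s3.2
  have mem0 : ∀ ρ : ℝ, 0 ≤ ρ → (k : ℂ) ∈ closedBall (k : ℂ) ρ := fun ρ hρ => mem_closedBall_self hρ
  have p0 : 0 < (w (k : ℂ)).re := h.re_pos (by positivity) (by
    unfold bet; rw [div_lt_iff₀ (by positivity)]; nlinarith)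
  have p1 : 0 < (nxt w (k : ℂ)).re := s0.2.re_pos (by positivity) (by
    unfold bet; rw [div_lt_iff₀ (by positivity)]; nlinarith)
  have p2 : 0 < (nxt (nxt w) (k : ℂ)).re := s1.2.re_pos (by positivity) (by
    unfold bet; rw [div_lt_iff₀ (by positivity)]; nlinarith)
  have p3 : 0 < (nxt (nxt (nxt w)) (k : ℂ)).re := s2.2.re_pos (by positivity) (by
    unfold bet; rw [div_lt_iff₀ (by positivity)]; nlinarith)
  have p4 : 0 < (nxt (nxt (nxt (nxt w))) (k : ℂ)).re := s3.2.re_pos (by positivity) (by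
    unfold bet; rw [div_lt_iff₀ (by positivity)]; nlinarith)
  have p5 : 0 < (nxt (nxt (nxt (nxt (nxt w)))) (k : ℂ)).re := s4.2.re_pos (by positivity) (by
    unfold bet; rw [div_lt_iff₀ (by positivity)]; nlinarith)
  have d0 := s0.1 (k : ℂ) (mem0 _ (by positivity))
  have d1 := s1.1 (k : ℂ) (mem0 _ (by positivity))
  have d2 := s2.1 (k : ℂ) (mem0 _ (by positivity))
  have d3 := s3.1 (k : ℂ) (mem0 _ (by positivity))
  have d4 := s4.1 (k : ℂ) (mem0 _ (by positivity))
  have build : ∀ J, Out (nxt (nxt (nxt (nxt (nxt w))))) k J → ∃ J, Out w k J := by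
    intro J hJ
    exact ⟨_, Out.cons p0 d0 (Out.cons p1 d1 (Out.cons p2 d2 (Out.cons p3 d3 (Out.cons p4 d4 hJ))))⟩
  rcases hk2 with hk49 | hk50
  · apply build 0
    refine ⟨?_, ?_, ?_⟩
    · intro j hj
      have : j = 0 := by omega
      subst this
      exact p5
    · intro j hj; omega
    · intro a b c ha hb hc
      have hE : (1826 / 10000 / (1 / 2 / 2 / 2 / 2 / 2 * k) : ℝ) ≤ 15 / 100 := by
        rw [div_le_iff₀ (by positivity)]; nlinarith
      refine Lvl.final s4.2 (by nlinarith) (by norm_num) (by norm_num) ?_ (by nlinarith)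
        (by linarith) ha hb hc
      have hE2 : (1826 / 10000 / (1 / 2 / 2 / 2 / 2 / 2 * k) : ℝ)
          ≤ 1826 / 10000 * 32 * ((90 - k) / 2009) := by
        rw [div_le_iff₀ (by positivity)]
        nlinarith [mul_nonneg (by linarith : (0:ℝ) ≤ k - 41) (by linarith : (0:ℝ) ≤ 49 - k)]
      nlinarith
  · have s5 := Lvl.step_A (w := nxt (nxt (nxt (nxt (nxt w))))) (k := k)
      (r := 68 / 100 * (68 / 100 * (68 / 100 * (68 / 100 * (68 / 100 * (94 / 100))))))
      (α := 1 / 2 / 2 / 2 / 2 / 2) (A := 1826 / 10000) (A' := 171 / 1000)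
      (γ := 68 / 100) (π := 1413 / 1000) (k0 := 50) (by norm_num) (by norm_num) (by norm_num) hk50
      (by norm_num) (by norm_num) (by norm_num) (by norm_num) (by norm_num) (by norm_num [bet])
      (by norm_num) (by norm_num) (by norm_num) s4.2
    have d5 := s5.1 (k : ℂ) (mem0 _ (by positivity))
    obtain ⟨n, hn⟩ : ∃ n : ℕ, k < 2 ^ n := by
      obtain ⟨n, hn⟩ := exists_nat_gt k
      exact ⟨n, hn.trans_le (by exact_mod_cast Nat.lt_two_pow_self.le)⟩
    obtain ⟨J, hJ⟩ := chain_uniform n (w := nxt (nxt (nxt (nxt (nxt (nxt w)))))) (k := k)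
      (α := 1 / 2 / 2 / 2 / 2 / 2 / 2)
      (r := 68 / 100 * (68 / 100 * (68 / 100 * (68 / 100 * (68 / 100 * (68 / 100 * (94 / 100)))))))
      (by norm_num) (by norm_num) (by linarith) (by
        have : (0:ℝ) < 2 ^ n := by positivity
        nlinarith) (by norm_num) (by norm_num) (by norm_num) s5.2
    exact build _ (Out.cons p5 d5 hJ)

end Pool.Agent.H19.Euler
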