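import Mathlib

/-! The iterated table and the assembly lemma. -/

set_option autoImplicit false

namespace Pool.Agent.H19.Euler

/-- all entries of the levels up to `j` are positive -/
def PosUpTo (A : ℕ → ℕ → ℝ) (n j : ℕ) : Prop := ∀ i ≤ j, ∀ k, i ≤ k → k + i ≤ n → 0 < A i k

/-- the recursion of the levels -/
def IsTab (A : ℕ → ℕ → ℝ) : Prop :=
  ∀ j k, A (j + 1) k = A j k ^ 2 - A j (k - 1) * A j (k + 1)

/-- the ratios of consecutive levels -/
noncomputable def UU (A : ℕ → ℕ → ℝ) (j k : ℕ) : ℝ := A j k ^ 2 / A (j + 1) k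

theorem PosUpTo.mono {A : ℕ → ℕ → ℝ} {n j i : ℕ} (h : PosUpTo A n j) (hij : i ≤ j) :
    PosUpTo A n i := fun a ha => h a (ha.trans hij)

theorem UU_pos_iff {A : ℕ → ℕ → ℝ} {n j k : ℕ} (hp : PosUpTo A n j) (hk : j + 1 ≤ k)
    (hk2 : k + j + 1 ≤ n) (hU : 0 < UU A j k) : 0 < A (j + 1) k := by
  have h1 : 0 < A j k := hp j le_rfl k (by omega) (by omega)
  by_contra hcon
  push Not at hcon
  have : UU A j k ≤ 0 := by
    unfold UU
    exact div_nonpos_of_nonneg_of_nonpos (sq_nonneg _) hcon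
  linarith

theorem UU_ge_one {A : ℕ → ℕ → ℝ} (hA : IsTab A) {n j k : ℕ} (hp : PosUpTo A n (j + 1))
    (hk : j + 1 ≤ k) (hk2 : k + (j + 1) ≤ n) : 1 ≤ UU A j k := by
  have h1 : 0 < A (j + 1) k := hp (j + 1) le_rfl k hk hk2
  have h2 : 0 < A j (k - 1) := hp j (by omega) (k - 1) (by omega) (by omega)
  have h3 : 0 < A j (k + 1) := hp j (by omega) (k + 1) (by omega) (by omega)
  have h4 := hA j k
  unfold UU
  rw [le_div_iff₀ h1]
  nlinarith [mul_pos h2 h3]

theorem UU_rec {A : ℕ → ℕ → ℝ} (hA : IsTab A) {n j k : ℕ} (hp : PosUpTo A n (j + 1))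
    (hk : j + 2 ≤ k) (hk2 : k + j + 2 ≤ n) :
    UU A (j + 1) k = UU A j (k - 1) * UU A j (k + 1)
      / (UU A j (k - 1) * UU A j (k + 1) - (UU A j k - 1) ^ 2) := by
  have a1 : 0 < A j (k - 1) := hp j (by omega) _ (by omega) (by omega)
  have a2 : 0 < A j k := hp j (by omega) _ (by omega) (by omega)
  have a3 : 0 < A j (k + 1) := hp j (by omega) _ (by omega) (by omega)
  have b1 : 0 < A (j + 1) (k - 1) := hp (j + 1) le_rfl _ (by omega) (by omega)
  have b2 : 0 < A (j + 1) k := hp (j + 1) le_rfl _ (by omega) (by omega)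
  have b3 : 0 < A (j + 1) (k + 1) := hp (j + 1) le_rfl _ (by omega) (by omega)
  have e2 : UU A j k - 1 = A j (k - 1) * A j (k + 1) / A (j + 1) k := by
    unfold UU
    have := hA j k
    field_simp
    linarith
  have e3 : A (j + 1 + 1) k = A (j + 1) k ^ 2 - A (j + 1) (k - 1) * A (j + 1) (k + 1) := hA _ _
  rw [e2]
  have hden : UU A j (k - 1) * UU A j (k + 1) - (A j (k - 1) * A j (k + 1) / A (j + 1) k) ^ 2
      = (A j (k - 1) * A j (k + 1)) ^ 2 * A (j + 1 + 1) k
        / (A (j + 1) k ^ 2 * (A (j + 1) (k - 1) * A (j + 1) (k + 1))) := by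
    unfold UU
    rw [e3]
    field_simp
  rw [hden]
  unfold UU
  by_cases h0 : A (j + 1 + 1) k = 0
  · rw [h0]; simp
  · field_simp

/-- one step for an index whose ratio is at most `323/200` -/
theorem safe_step {A : ℕ → ℕ → ℝ} (hA : IsTab A) {n j k : ℕ} (hp : PosUpTo A n (j + 1))
    (hk : j + 2 ≤ k) (hk2 : k + j + 2 ≤ n) (hU : UU A j k ≤ 323 / 200) :
    0 < A (j + 2) k ∧ UU A (j + 1) k ≤ 323 / 200 := by
  have h1 : 1 ≤ UU A j k := UU_ge_one hA hp (by omega) (by omega)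
  have h2 : 1 ≤ UU A j (k - 1) := UU_ge_one hA hp (by omega) (by omega)
  have h3 : 1 ≤ UU A j (k + 1) := UU_ge_one hA hp (by omega) (by omega)
  have hr := UU_rec hA hp hk hk2
  have hP : 1 ≤ UU A j (k - 1) * UU A j (k + 1) := by nlinarith
  have hQ : (UU A j k - 1) ^ 2 ≤ 15129 / 40000 := by nlinarith
  set P := UU A j (k - 1) * UU A j (k + 1) with hPdef
  set Q := (UU A j k - 1) ^ 2 with hQdef
  have hPQ : 0 < P - Q := by linarith
  have hU1 : UU A (j + 1) k ≤ 323 / 200 := by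
    rw [hr, div_le_iff₀ hPQ]; linarith
  refine ⟨?_, hU1⟩
  have hU0 : 0 < UU A (j + 1) k := by
    rw [hr]; exact div_pos (by linarith) hPQ
  exact UU_pos_iff hp (by omega) (by omega) hU0

/-- one step for an index with `Q ≤ 0.3808 P` -/
theorem fin_step {A : ℕ → ℕ → ℝ} (hA : IsTab A) {n j k : ℕ} (hp : PosUpTo A n (j + 1))
    (hk : j + 2 ≤ k) (hk2 : k + j + 2 ≤ n)
    (hQ : (UU A j k - 1) ^ 2 ≤ 3808 / 10000 * (UU A j (k - 1) * UU A j (k + 1))) :
    0 < A (j + 2) k ∧ UU A (j + 1) k ≤ 323 / 200 := by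
  have h2 : 1 ≤ UU A j (k - 1) := UU_ge_one hA hp (by omega) (by omega)
  have h3 : 1 ≤ UU A j (k + 1) := UU_ge_one hA hp (by omega) (by omega)
  have hr := UU_rec hA hp hk hk2
  have hP : 1 ≤ UU A j (k - 1) * UU A j (k + 1) := by nlinarith
  set P := UU A j (k - 1) * UU A j (k + 1) with hPdef
  set Q := (UU A j k - 1) ^ 2 with hQdef
  have hPQ : 0 < P - Q := by linarith
  have hU1 : UU A (j + 1) k ≤ 323 / 200 := by
    rw [hr, div_le_iff₀ hPQ]; linarith
  refine ⟨?_, hU1⟩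
  have hU0 : 0 < UU A (j + 1) k := by
    rw [hr]; exact div_pos (by linarith) hPQ
  exact UU_pos_iff hp (by omega) (by omega) hU0

/-- the local hypothesis at the index `k` -/
def Loc (A : ℕ → ℕ → ℝ) (n k T : ℕ) : Prop :=
  ∀ j, PosUpTo A n j → j + 1 ≤ k → k + j + 1 ≤ n →
    (j ≤ T → 0 < A (j + 1) k) ∧ (j = T → UU A j k ≤ 323 / 200)

theorem assembly {A : ℕ → ℕ → ℝ} (hA : IsTab A) {n : ℕ} (h0 : PosUpTo A n 0)
    (hloc : ∀ k, 1 ≤ k → k + 1 ≤ n → ∃ T, Loc A n k T) : ∀ j, PosUpTo A n j := by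
  have hloc' : ∀ k, ∃ T, 1 ≤ k → k + 1 ≤ n → Loc A n k T := by
    intro k
    by_cases hk : 1 ≤ k ∧ k + 1 ≤ n
    · obtain ⟨T, hT⟩ := hloc k hk.1 hk.2
      exact ⟨T, fun _ _ => hT⟩
    · exact ⟨0, fun h1 h2 => absurd ⟨h1, h2⟩ hk⟩
  choose T hT using hloc'
  have main : ∀ j, PosUpTo A n (j + 1) ∧
      (∀ k, T k ≤ j → j + 1 ≤ k → k + j + 1 ≤ n → UU A j k ≤ 323 / 200) := by
    intro j
    induction j with
    | zero =>
      have hp1 : ∀ k, 1 ≤ k → k + 1 ≤ n → 0 < A 1 k := fun k hk hk2 =>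
        (hT k hk hk2 0 h0 (by omega) (by omega)).1 (Nat.zero_le _)
      refine ⟨?_, ?_⟩
      · intro i hi k hk hk2
        rcases Nat.eq_zero_or_pos i with h | h
        · subst h; exact h0 0 le_rfl k hk hk2
        · have : i = 1 := by omega
          subst this
          exact hp1 k hk hk2
      · intro k hTk hk hk2
        exact (hT k (by omega) (by omega) 0 h0 hk hk2).2 (by omega)
    | succ j ih =>
      obtain ⟨ihp, ihU⟩ := ih
      have key : ∀ k, j + 2 ≤ k → k + j + 2 ≤ n → 0 < A (j + 2) k ∧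
          (T k ≤ j + 1 → UU A (j + 1) k ≤ 323 / 200) := by
        intro k hk hk2
        by_cases hc : T k ≤ j
        · have hU := ihU k hc (by omega) (by omega)
          have := safe_step hA ihp hk hk2 hU
          exact ⟨this.1, fun _ => this.2⟩
        · have := hT k (by omega) (by omega) (j + 1) ihp (by omega) (by omega)
          exact ⟨this.1 (by omega), fun hle => this.2 (by omega)⟩
      refine ⟨?_, ?_⟩
      · intro i hi k hk hk2
        by_cases hij : i ≤ j + 1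
        · exact ihp i hij k hk hk2
        · have : i = j + 2 := by omega
          subst this
          exact (key k hk (by omega)).1
      · intro k hTk hk hk2
        exact (key k (by omega) (by omega)).2 hTk
  intro j
  exact (main j).1.mono (by omega)

end Pool.Agent.H19.Euler
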