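import Mathlib
import Pool.Agent.H19.Euler.Discrete

/-! Interval recursion for the ratios, with a fixed-point scale `S`. -/

set_option autoImplicit false

namespace Pool.Agent.H19.Euler

/-- next list of intervals -/
def nx (S : ℕ) : List (ℕ × ℕ) → List (ℕ × ℕ)
  | a :: b :: c :: t => ((S * (a.2 * c.2)) / (a.2 * c.2 - (b.1 - S) ^ 2),
      (S * (a.1 * c.1)) / (a.1 * c.1 - (b.2 - S) ^ 2) + 1) :: nx S (b :: c :: t)
  | _ => []

/-- validity of the step -/
def okk (S : ℕ) : List (ℕ × ℕ) → Bool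
  | a :: b :: c :: t => Nat.blt ((b.2 - S) ^ 2) (a.1 * c.1) && okk S (b :: c :: t)
  | _ => true

/-- all upper ends at most `323/200` -/
def safe (S : ℕ) : List (ℕ × ℕ) → Bool
  | a :: t => Nat.ble (200 * a.2) (323 * S) && safe S t
  | [] => true

/-- the whole recursion -/
def run (S : ℕ) : ℕ → List (ℕ × ℕ) → Bool
  | 0, l => safe S l
  | t + 1, l => okk S l && run S t (nx S l)

/-- the list of intervals covers the values of `f` from the index `k` on -/
def Cov (S : ℕ) : List (ℕ × ℕ) → (ℕ → ℝ) → ℕ → Prop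
  | [], _, _ => True
  | a :: t, f, k => (0 < f k ∧ (a.1 : ℝ) ≤ S * f k ∧ S * f k ≤ a.2) ∧ Cov S t f (k + 1)

theorem nx_length (S : ℕ) : ∀ l : List (ℕ × ℕ), (nx S l).length = l.length - 2
  | [] => rfl
  | [_] => rfl
  | [_, _] => rfl
  | a :: b :: c :: t => by
    have ih := nx_length S (b :: c :: t)
    simp only [nx, List.length_cons] at *
    omega

theorem frac_mono {X Y X0 Y1 : ℝ} (hY : 0 ≤ Y) (hX : X0 ≤ X) (hY1 : Y ≤ Y1) (h : Y1 < X0) :
    X / (X - Y) ≤ X0 / (X0 - Y1) := by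
  have h1 : 0 < X - Y := by linarith
  have h2 : 0 < X0 - Y1 := by linarith
  rw [div_le_div_iff₀ h1 h2]
  nlinarith [mul_le_mul hX hY1 hY (by linarith : (0 : ℝ) ≤ X)]

theorem nat_div_upper (a b : ℕ) (hb : 0 < b) : (a : ℝ) / b ≤ ((a / b + 1 : ℕ) : ℝ) := by
  have h := Nat.lt_mul_div_succ a hb
  have hb' : (0 : ℝ) < b := by exact_mod_cast hb
  rw [div_le_iff₀ hb']
  have : (a : ℝ) < (b * (a / b + 1) : ℕ) := by exact_mod_cast h
  push_cast at this ⊢
  linarith

theorem head_sound {S a1 a2 b1 b2 c1 c2 : ℕ} {p q r g : ℝ} (hp : 1 ≤ p) (hq : 1 ≤ q) (hr : 1 ≤ r)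
    (ha1 : (a1 : ℝ) ≤ S * p) (ha2 : S * p ≤ a2) (hb1 : (b1 : ℝ) ≤ S * q) (hb2 : S * q ≤ b2)
    (hc1 : (c1 : ℝ) ≤ S * r) (hc2 : S * r ≤ c2) (hok : (b2 - S) ^ 2 < a1 * c1)
    (hg : g = p * r / (p * r - (q - 1) ^ 2)) :
    0 < g ∧ (((S * (a2 * c2)) / (a2 * c2 - (b1 - S) ^ 2) : ℕ) : ℝ) ≤ S * g ∧
      S * g ≤ ((S * (a1 * c1)) / (a1 * c1 - (b2 - S) ^ 2) + 1 : ℕ) := by
  have hS0 : (0 : ℝ) ≤ S := Nat.cast_nonneg S
  have hSpos : (0 : ℝ) < S := by
    rcases hS0.lt_or_eq with h | h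
    · exact h
    · exfalso
      rw [← h, zero_mul] at ha1
      have : a1 = 0 := by
        have : (a1 : ℝ) = 0 := le_antisymm ha1 (Nat.cast_nonneg _)
        exact_mod_cast this
      subst this
      simp at hok
  have hSb2 : S ≤ b2 := by
    have : (S : ℝ) ≤ b2 := by nlinarith
    exact_mod_cast this
  have hcast2 : ((b2 - S : ℕ) : ℝ) = (b2 : ℝ) - S := by rw [Nat.cast_sub hSb2]
  have hY1 : (S * (q - 1)) ^ 2 ≤ ((b2 - S : ℕ) : ℝ) ^ 2 := by
    rw [hcast2]
    apply pow_le_pow_left₀ (by nlinarith)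
    nlinarith
  have hY0 : ((b1 - S : ℕ) : ℝ) ^ 2 ≤ (S * (q - 1)) ^ 2 := by
    apply pow_le_pow_left₀ (Nat.cast_nonneg _)
    by_cases h : S ≤ b1
    · rw [Nat.cast_sub h]; nlinarith
    · have : b1 - S = 0 := by omega
      rw [this, Nat.cast_zero]; nlinarith
  have hX0 : (a1 : ℝ) * c1 ≤ (S * p) * (S * r) :=
    mul_le_mul ha1 hc1 (Nat.cast_nonneg _) (by positivity)
  have hX1 : (S * p) * (S * r) ≤ (a2 : ℝ) * c2 :=
    mul_le_mul ha2 hc2 (by positivity) (by positivity)
  have hok' : ((b2 - S : ℕ) : ℝ) ^ 2 < (a1 : ℝ) * c1 := by exact_mod_cast hok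
  have hg2 : g = (S * p) * (S * r) / ((S * p) * (S * r) - (S * (q - 1)) ^ 2) := by
    rw [hg]
    have : (S * p) * (S * r) - (S * (q - 1)) ^ 2 = (S : ℝ) ^ 2 * (p * r - (q - 1) ^ 2) := by ring
    rw [this]
    have h2 : (S * p) * (S * r) = (S : ℝ) ^ 2 * (p * r) := by ring
    rw [h2, mul_div_mul_left _ _ (by positivity)]
  have hden : 0 < (S * p) * (S * r) - (S * (q - 1)) ^ 2 := by linarith
  refine ⟨?_, ?_, ?_⟩
  · rw [hg2]; exact div_pos (by positivity) hden
  · refine (Nat.cast_div_le).trans ?_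
    have hle : (b1 - S) ^ 2 ≤ a2 * c2 := by
      have : (((b1 - S : ℕ) : ℝ)) ^ 2 ≤ (a2 : ℝ) * c2 := by linarith
      exact_mod_cast this
    rw [Nat.cast_sub hle]
    push_cast
    rw [mul_div_assoc]
    apply mul_le_mul_of_nonneg_left _ hS0
    rw [hg2]
    exact frac_mono (sq_nonneg _) hX1 hY0 (by linarith)
  · have hlt : 0 < a1 * c1 - (b2 - S) ^ 2 := by omega
    refine le_trans ?_ (nat_div_upper _ _ hlt)
    rw [Nat.cast_sub hok.le]
    push_cast
    rw [mul_div_assoc]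
    apply mul_le_mul_of_nonneg_left _ hS0
    rw [hg2]
    exact frac_mono (sq_nonneg _) hX0 hY1 hok'

theorem nx_sound (S : ℕ) (f g : ℕ → ℝ) : ∀ (l : List (ℕ × ℕ)) (k : ℕ),
    (∀ i < l.length, 1 ≤ f (k + i)) →
    (∀ i, i + 2 < l.length → g (k + i + 1) = f (k + i) * f (k + i + 2)
      / (f (k + i) * f (k + i + 2) - (f (k + i + 1) - 1) ^ 2)) →
    okk S l = true → Cov S l f k → Cov S (nx S l) g (k + 1)
  | [], _, _, _, _, _ => trivial
  | [_], _, _, _, _, _ => trivial
  | [_, _], _, _, _, _, _ => trivial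
  | a :: b :: c :: t, k, h1, hg, hok, hc => by
    simp only [okk, Bool.and_eq_true] at hok
    obtain ⟨hok1, hok2⟩ := hok
    obtain ⟨ca, hc'⟩ := hc
    have hc'' := hc'
    obtain ⟨cb, cc, -⟩ := hc'
    have hok1' : (b.2 - S) ^ 2 < a.1 * c.1 := Nat.lt_of_succ_le (Nat.le_of_ble_eq_true hok1)
    have f0 := h1 0 (by simp)
    have f1 := h1 1 (by simp)
    have f2 := h1 2 (by simp)
    have hg0 := hg 0 (by simp)
    simp only [add_zero] at f0 hg0
    refine ⟨?_, ?_⟩
    · exact head_sound f0 f1 f2 ca.2.1 ca.2.2 cb.2.1 cb.2.2 cc.2.1 cc.2.2 hok1' hg0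
    · apply nx_sound S f g (b :: c :: t) (k + 1) _ _ hok2 hc''
      · intro i hi
        have := h1 (i + 1) (by simp only [List.length_cons] at *; omega)
        rwa [show k + 1 + i = k + (i + 1) by omega]
      · intro i hi
        have := hg (i + 1) (by simp only [List.length_cons] at *; omega)
        rw [show k + 1 + i + 1 = k + (i + 1) + 1 by omega, show k + 1 + i = k + (i + 1) by omega,
          show k + (i + 1) + 1 + 1 = k + (i + 1) + 2 by omega]
        exact this

theorem Cov.get {S : ℕ} {f : ℕ → ℝ} : ∀ {l : List (ℕ × ℕ)} {k : ℕ}, Cov S l f k →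
    ∀ i < l.length, 0 < f (k + i)
  | [], _, _, i, hi => by simp at hi
  | a :: t, k, hc, i, hi => by
    cases i with
    | zero => exact hc.1.1
    | succ i =>
      have := Cov.get hc.2 i (by simpa using hi)
      rwa [show k + (i + 1) = k + 1 + i by omega]

theorem Cov.safe {S : ℕ} (hS : 0 < S) {f : ℕ → ℝ} : ∀ {l : List (ℕ × ℕ)} {k : ℕ}, Cov S l f k →
    safe S l = true → ∀ i < l.length, f (k + i) ≤ 323 / 200
  | [], _, _, _, i, hi => by simp at hi
  | a :: t, k, hc, hs, i, hi => by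
    simp only [Euler.safe, Bool.and_eq_true] at hs
    cases i with
    | zero =>
      have h1 : 200 * a.2 ≤ 323 * S := Nat.le_of_ble_eq_true hs.1
      have h1' : (200 : ℝ) * a.2 ≤ 323 * S := by exact_mod_cast h1
      have h2 := hc.1.2.2
      have hS' : (0 : ℝ) < S := by exact_mod_cast hS
      rw [add_zero]
      have h3 : (S : ℝ) * (200 * f k) ≤ S * 323 := by linarith
      have := le_of_mul_le_mul_left h3 hS'
      linarith
    | succ i =>
      have := Cov.safe hS hc.2 hs.2 i (by simpa using hi)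
      rwa [show k + (i + 1) = k + 1 + i by omega]

theorem run_split (S : ℕ) : ∀ (T : ℕ) (l : List (ℕ × ℕ)), run S T l = true →
    (∀ t < T, okk S ((nx S)^[t] l) = true) ∧ safe S ((nx S)^[T] l) = true := by
  intro T
  induction T with
  | zero =>
    intro l h
    refine ⟨?_, ?_⟩
    · intro t ht; omega
    · simpa [run] using h
  | succ T ih =>
    intro l h
    simp only [run, Bool.and_eq_true] at h
    obtain ⟨h1, h2⟩ := h
    obtain ⟨i1, i2⟩ := ih _ h2
    refine ⟨?_, ?_⟩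
    · intro t ht
      cases t with
      | zero => exact h1
      | succ t =>
        rw [Function.iterate_succ_apply]
        exact i1 t (by omega)
    · rw [Function.iterate_succ_apply]; exact i2

theorem iter_length (S : ℕ) (l : List (ℕ × ℕ)) : ∀ t, ((nx S)^[t] l).length = l.length - 2 * t := by
  intro t
  induction t with
  | zero => simp
  | succ t ih => rw [Function.iterate_succ_apply', nx_length, ih]; omega

theorem window {A : ℕ → ℕ → ℝ} (hA : IsTab A) {n : ℕ} (S : ℕ) (l0 : List (ℕ × ℕ))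
    (hlen : l0.length + 1 ≤ n) (hc : Cov S l0 (UU A 0) 1) (T : ℕ)
    (hrun : run S T l0 = true) :
    ∀ t ≤ T, PosUpTo A n t → Cov S ((nx S)^[t] l0) (UU A t) (t + 1) := by
  obtain ⟨r1, -⟩ := run_split S T l0 hrun
  intro t
  induction t with
  | zero => intro _ _; exact hc
  | succ t ih =>
    intro ht hp
    have h1 := ih (by omega) (hp.mono (by omega))
    rw [Function.iterate_succ_apply']
    have hl := iter_length S l0 t
    apply nx_sound S (UU A t) (UU A (t + 1)) _ (t + 1) _ _ (r1 t (by omega)) h1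
    · intro i hi
      exact UU_ge_one hA hp (by omega) (by omega)
    · intro i hi
      have := UU_rec hA (n := n) (j := t) (k := t + 1 + i + 1) hp (by omega) (by omega)
      rw [this, show t + 1 + i + 1 - 1 = t + 1 + i by omega, show t + 1 + i + 1 + 1 = t + 1 + i + 2 by omega]

theorem window_Loc {A : ℕ → ℕ → ℝ} (hA : IsTab A) {n : ℕ} (S : ℕ) (hS : 0 < S)
    (l0 : List (ℕ × ℕ))
    (hlen : l0.length + 1 ≤ n) (hc : Cov S l0 (UU A 0) 1) (T : ℕ)
    (hrun : run S T l0 = true) (k : ℕ) (hk : ∀ j ≤ T, k + j + 1 ≤ n → k + j ≤ l0.length) :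
    Loc A n k T := by
  obtain ⟨-, r2⟩ := run_split S T l0 hrun
  intro j hp h1 h2
  refine ⟨fun hj => ?_, fun hj => ?_⟩
  · have hw := window hA S l0 hlen hc T hrun j hj hp
    have hl := iter_length S l0 j
    have hkj := hk j hj h2
    have := hw.get (k - (j + 1)) (by omega)
    rw [show j + 1 + (k - (j + 1)) = k by omega] at this
    exact UU_pos_iff hp h1 h2 this
  · subst hj
    have hw := window hA S l0 hlen hc j hrun j le_rfl hp
    have hl := iter_length S l0 j
    have hkj := hk j le_rfl h2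
    have := hw.safe hS r2 (k - (j + 1)) (by omega)
    rwa [show j + 1 + (k - (j + 1)) = k by omega] at this

end Pool.Agent.H19.Euler
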