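import Mathlib
import Pool.Agent.H19.Euler.Interval

/-! The checking functions for small rows and for small indices. -/

set_option autoImplicit false

namespace Pool.Agent.H19.Euler

/-- all lower ends at least `S` -/
def geS (S : ℕ) : List (ℕ × ℕ) → Bool
  | a :: t => Nat.ble S a.1 && geS S t
  | [] => true

/-- the initial list of a row, computed from the right end of the row -/
def mk (S n : ℕ) : ℕ → ℕ → ℕ → List (ℕ × ℕ) → List (ℕ × ℕ)
  | 0, _, _, acc => acc
  | k + 1, x, y, acc =>
    let z := ((2 * k + 1) * x + (n - k - 1) * y - n * x) / (k + 1)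
    let q := (S * ((k + 2) * x ^ 2)) / ((k + 2) * x ^ 2 - (k + 1) * (z * y))
    mk S n k z x ((q, q + 1) :: acc)

/-- the initial list -/
def start (S n : ℕ) : List (ℕ × ℕ) :=
  mk S n (n - 1) ((n - 1) * Nat.factorial (n - 1)) (Nat.factorial n) []

/-- the complete check of a row -/
def chk (S T n : ℕ) : Bool := geS S (start S n) && run S T (start S n)

/-- the initial list for small indices of a long row -/
def ini (S : ℕ) : ℕ → ℕ → List (ℕ × ℕ)
  | _, 0 => []
  | j, m + 1 =>
    (S * (j + 1) - ((1101 * S * (j * (j + 1))) / (8 * 10 ^ 9) + 1),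
      S * (j + 1) + ((1101 * S * (j * (j + 1))) / (8 * 10 ^ 9) + 1)) :: ini S (j + 1) m

theorem mk_length (S n : ℕ) : ∀ m x y acc, (mk S n m x y acc).length = m + acc.length := by
  intro m
  induction m with
  | zero => intro x y acc; simp [mk]
  | succ m ih => intro x y acc; simp only [mk]; rw [ih]; simp; omega

theorem mk_geS (S n : ℕ) : ∀ m x y acc, geS S (mk S n m x y acc) = true → geS S acc = true := by
  intro m
  induction m with
  | zero => intro x y acc h; simpa [mk] using h
  | succ m ih =>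
    intro x y acc h
    simp only [mk] at h
    have := ih _ _ _ h
    simp only [geS, Bool.and_eq_true] at this
    exact this.2

theorem ini_length (S : ℕ) : ∀ m j, (ini S j m).length = m := by
  intro m
  induction m with
  | zero => intro j; simp [ini]
  | succ m ih => intro j; simp [ini, ih]

theorem mk_sound (S n : ℕ) (hS : 0 < S) (E : ℕ → ℕ) (f : ℕ → ℝ) (hEpos : ∀ k ≤ n, 0 < E k)
    (hE : ∀ k, k + 2 ≤ n → (k + 1) * E k + n * E (k + 1)
      = (2 * k + 1) * E (k + 1) + (n - k - 1) * E (k + 2))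
    (hf : ∀ k, k + 2 ≤ n → f (k + 1) = ((k + 2) * (E (k + 1) : ℝ) ^ 2)
      / ((k + 2) * (E (k + 1) : ℝ) ^ 2 - (k + 1) * ((E k : ℝ) * (E (k + 2) : ℝ)))) :
    ∀ m acc, m + 1 ≤ n → geS S (mk S n m (E m) (E (m + 1)) acc) = true →
      Cov S acc f (m + 1) → Cov S (mk S n m (E m) (E (m + 1)) acc) f 1 := by
  intro m
  induction m with
  | zero => intro acc _ _ hc; simpa [mk] using hc
  | succ k ih =>
    intro acc hm hg hc
    simp only [mk] at hg ⊢
    have hz : ((2 * k + 1) * E (k + 1) + (n - k - 1) * E (k + 1 + 1) - n * E (k + 1)) / (k + 1)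
        = E k := by
      have h := hE k (by omega)
      rw [show k + 1 + 1 = k + 2 by omega, ← h]
      rw [Nat.add_sub_cancel]
      exact Nat.mul_div_cancel_left _ (Nat.succ_pos k)
    rw [hz] at hg ⊢
    have hg2 := mk_geS S n _ _ _ _ hg
    simp only [geS, Bool.and_eq_true] at hg2
    have hSq := Nat.le_of_ble_eq_true hg2.1
    apply ih _ (by omega) hg
    refine ⟨?_, hc⟩
    set num := (k + 2) * E (k + 1) ^ 2 with hnum
    set sb := (k + 1) * (E k * E (k + 1 + 1)) with hsb
    have hdpos : 0 < num - sb := by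
      rcases Nat.eq_zero_or_pos (num - sb) with h | h
      · rw [h, Nat.div_zero] at hSq; omega
      · exact h
    have hcast : ((num - sb : ℕ) : ℝ) = (k + 2) * (E (k + 1) : ℝ) ^ 2
        - (k + 1) * ((E k : ℝ) * (E (k + 2) : ℝ)) := by
      rw [Nat.cast_sub (by omega), hnum, hsb]
      push_cast
      rfl
    have hfk := hf k (by omega)
    rw [← hcast] at hfk
    have hnumc : (num : ℝ) = (k + 2) * (E (k + 1) : ℝ) ^ 2 := by
      rw [hnum]; push_cast; rfl
    rw [← hnumc] at hfk
    have hd' : (0 : ℝ) < ((num - sb : ℕ) : ℝ) := by exact_mod_cast hdpos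
    have hn' : (0 : ℝ) < (num : ℝ) := by exact_mod_cast (by omega : 0 < num)
    have hSf : S * f (k + 1) = ((S * num : ℕ) : ℝ) / ((num - sb : ℕ) : ℝ) := by
      rw [hfk]; push_cast; ring
    refine ⟨?_, ?_, ?_⟩
    · rw [hfk]; exact div_pos hn' hd'
    · rw [hSf]; exact Nat.cast_div_le
    · rw [hSf]; exact nat_div_upper _ _ hdpos

theorem ini_sound (S : ℕ) (hS : 0 < S) (f : ℕ → ℝ) : ∀ m j,
    (∀ i < m, 0 < f (j + i) ∧ |f (j + i) - (((j + i : ℕ) : ℝ) + 1)|
      ≤ 1101 * (((j + i : ℕ) : ℝ) * (((j + i : ℕ) : ℝ) + 1)) / (8 * 10 ^ 9)) →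
    Cov S (ini S j m) f j := by
  intro m
  induction m with
  | zero => intro j _; trivial
  | succ m ih =>
    intro j h
    have hS' : (0 : ℝ) < S := by exact_mod_cast hS
    refine ⟨?_, ?_⟩
    · obtain ⟨h0, h1⟩ := h 0 (by omega)
      rw [add_zero] at h0 h1
      have hup := nat_div_upper (1101 * S * (j * (j + 1))) (8 * 10 ^ 9) (by norm_num)
      set d := (1101 * S * (j * (j + 1))) / (8 * 10 ^ 9) + 1 with hd
      have hc : ((1101 * S * (j * (j + 1)) : ℕ) : ℝ) / ((8 * 10 ^ 9 : ℕ) : ℝ)
          = S * (1101 * ((j : ℝ) * ((j : ℝ) + 1)) / (8 * 10 ^ 9)) := by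
        push_cast; ring
      rw [hc] at hup
      have h2 := mul_le_mul_of_nonneg_left h1 hS'.le
      have h3 : S * |f j - ((j : ℝ) + 1)| = |S * f j - S * ((j : ℝ) + 1)| := by
        rw [← mul_sub, abs_mul, abs_of_pos hS']
      rw [h3] at h2
      have h4 := abs_le.mp (h2.trans hup)
      refine ⟨h0, ?_, ?_⟩
      · show ((S * (j + 1) - d : ℕ) : ℝ) ≤ S * f j
        by_cases hle : d ≤ S * (j + 1)
        · rw [Nat.cast_sub hle]; push_cast; linarith [h4.1]
        · have : S * (j + 1) - d = 0 := by omega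
          rw [this, Nat.cast_zero]; positivity
      · show S * f j ≤ ((S * (j + 1) + d : ℕ) : ℝ)
        push_cast
        have := h4.2
        linarith
    · apply ih
      intro i hi
      have := h (i + 1) (by omega)
      rw [show j + (i + 1) = j + 1 + i by omega] at this
      exact this

end Pool.Agent.H19.Euler
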