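import Mathlib

/-! The polynomials `hh n m = ∑ (-1)^i (n-i)!/i! m(m-1)...(m-i+1)` interpolating Euler's
difference table and their normalisation `gg`. -/

set_option autoImplicit false

namespace Pool.Agent.H19.Euler

open Finset Nat

/-- Falling factorial. -/
noncomputable def ff (m : ℂ) (i : ℕ) : ℂ := ∏ j ∈ range i, (m - j)

theorem ff_zero (m : ℂ) : ff m 0 = 1 := by simp [ff]

theorem ff_succ (m : ℂ) (i : ℕ) : ff m (i + 1) = ff m i * (m - i) := by
  unfold ff; rw [prod_range_succ]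

theorem ff_succ' (m : ℂ) (i : ℕ) : ff m (i + 1) = m * ff (m - 1) i := by
  unfold ff
  rw [prod_range_succ']
  rw [mul_comm]
  congr 1
  · simp
  · apply prod_congr rfl
    intro j _
    push_cast; ring

theorem ff_diff (m : ℂ) (i : ℕ) : ff m (i + 1) - ff (m - 1) (i + 1) = (i + 1) * ff (m - 1) i := by
  rw [ff_succ', ff_succ]; ring

/-- The unnormalised polynomials. -/
noncomputable def hh (n : ℕ) (m : ℂ) : ℂ :=
  ∑ i ∈ range (n + 1), (-1) ^ i * ((n - i)! : ℂ) / (i ! : ℂ) * ff m i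

theorem hh_F1 (n : ℕ) (m : ℂ) : hh (n + 1) m = hh (n + 1) (m - 1) - hh n (m - 1) := by
  have key : hh (n + 1) m - hh (n + 1) (m - 1) = - hh n (m - 1) := by
    unfold hh
    rw [← sum_sub_distrib, sum_range_succ', ← sum_neg_distrib]
    simp only [ff_zero, sub_self, add_zero]
    apply sum_congr rfl
    intro i hi
    have hi' : i ≤ n := by rw [mem_range] at hi; omega
    have e1 : n + 1 - (i + 1) = n - i := by omega
    rw [← mul_sub, ff_diff, e1, Nat.factorial_succ]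
    have h1 : ((i : ℂ) + 1) ≠ 0 := Nat.cast_add_one_ne_zero i
    have h2 : (i ! : ℂ) ≠ 0 := Nat.cast_ne_zero.mpr (Nat.factorial_ne_zero i)
    push_cast
    field_simp
    ring
  rw [← sub_eq_zero] at key ⊢
  rw [← key]; ring

theorem hh_F2 (n : ℕ) (m : ℂ) :
    hh (n + 1) m = (n + 1 - m) * hh n m + m * hh n (m - 1)
      + (-1) ^ (n + 1) * ff m (n + 1) / ((n + 1)! : ℂ) := by
  unfold hh
  rw [sum_range_succ]
  have hlast : (-1 : ℂ) ^ (n + 1) * ((n + 1 - (n + 1))! : ℂ) / ((n + 1)! : ℂ) * ff m (n + 1)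
      = (-1) ^ (n + 1) * ff m (n + 1) / ((n + 1)! : ℂ) := by
    simp only [Nat.sub_self, Nat.factorial_zero, Nat.cast_one]
    ring
  rw [hlast, mul_sum, mul_sum, ← sum_add_distrib]
  congr 1
  apply sum_congr rfl
  intro i hi
  have hi' : i ≤ n := by rw [mem_range] at hi; omega
  have e1 : n + 1 - i = (n - i) + 1 := by omega
  have e2 : ((n - i : ℕ) : ℂ) = (n : ℂ) - i := by rw [Nat.cast_sub hi']
  have e3 : m * ff (m - 1) i = ff m i * (m - i) := by rw [← ff_succ', ff_succ]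
  rw [e1, Nat.factorial_succ]
  push_cast
  rw [e2]
  have : m * ((-1) ^ i * ((n - i)! : ℂ) / (i ! : ℂ) * ff (m - 1) i)
      = (-1) ^ i * ((n - i)! : ℂ) / (i ! : ℂ) * (m * ff (m - 1) i) := by ring
  rw [this, e3]
  ring

theorem hh_zero_right (n : ℕ) : hh n 0 = n ! := by
  unfold hh
  rw [sum_range_succ']
  have : ∀ i, ff 0 (i + 1) = 0 := by intro i; rw [ff_succ']; ring
  simp [this, ff_zero]

/-- The normalised polynomials. -/
noncomputable def gg (n : ℕ) (m : ℂ) : ℂ := hh n m / (n ! : ℂ)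

theorem gg_F1 (n : ℕ) (m : ℂ) :
    gg (n + 1) m = gg (n + 1) (m - 1) - gg n (m - 1) / (n + 1) := by
  unfold gg
  rw [hh_F1, Nat.factorial_succ]
  have h1 : ((n : ℂ) + 1) ≠ 0 := Nat.cast_add_one_ne_zero n
  have h2 : (n ! : ℂ) ≠ 0 := Nat.cast_ne_zero.mpr (Nat.factorial_ne_zero n)
  push_cast
  field_simp

theorem gg_F2 (n : ℕ) (m : ℂ) :
    gg (n + 1) m = (n + 1 - m) / (n + 1) * gg n m + m / (n + 1) * gg n (m - 1)
      + (-1) ^ (n + 1) * ff m (n + 1) / (((n + 1)! : ℂ) * ((n + 1)! : ℂ)) := by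
  unfold gg
  rw [hh_F2]
  have hf : ((n + 1)! : ℂ) = ((n : ℂ) + 1) * (n ! : ℂ) := by
    rw [Nat.factorial_succ]; push_cast; ring
  have h1 : ((n : ℂ) + 1) ≠ 0 := Nat.cast_add_one_ne_zero n
  have h2 : (n ! : ℂ) ≠ 0 := Nat.cast_ne_zero.mpr (Nat.factorial_ne_zero n)
  rw [hf]
  field_simp

/-- product form of the terms -/
noncomputable def PP (n : ℕ) (m : ℂ) (i : ℕ) : ℂ := ∏ j ∈ range i, ((m - j) / ((n : ℂ) - j))

theorem fact_prod (n : ℕ) : ∀ i, i ≤ n → ((n - i)! : ℂ) * ∏ j ∈ range i, ((n : ℂ) - j) = n ! := by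
  intro i
  induction i with
  | zero => intro _; simp
  | succ i ih =>
    intro hi
    rw [prod_range_succ, ← ih (by omega)]
    have e1 : n - i = (n - (i + 1)) + 1 := by omega
    have e2 : ((n - i : ℕ) : ℂ) = (n : ℂ) - i := by rw [Nat.cast_sub (by omega)]
    have e3 : ((n - i)! : ℂ) = ((n : ℂ) - i) * ((n - (i + 1))! : ℂ) := by
      rw [← e2]
      conv_lhs => rw [e1, Nat.factorial_succ, ← e1]
      push_cast; ring
    rw [e3]; ring

theorem prod_ne_zero' (n i : ℕ) (hi : i ≤ n) : ∏ j ∈ range i, ((n : ℂ) - j) ≠ 0 := by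
  rw [Finset.prod_ne_zero_iff]
  intro j hj
  rw [mem_range] at hj
  have : (n : ℂ) - j = ((n - j : ℕ) : ℂ) := by rw [Nat.cast_sub (by omega)]
  rw [this]
  exact Nat.cast_ne_zero.mpr (by omega)

theorem gg_eq (n : ℕ) (m : ℂ) :
    gg n m = ∑ i ∈ range (n + 1), (-1) ^ i / (i ! : ℂ) * PP n m i := by
  unfold gg hh
  rw [sum_div]
  apply sum_congr rfl
  intro i hi
  have hi' : i ≤ n := by rw [mem_range] at hi; omega
  have h1 := fact_prod n i hi'
  have h2 := prod_ne_zero' n i hi'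
  have h3 : ((n - i)! : ℂ) ≠ 0 := Nat.cast_ne_zero.mpr (Nat.factorial_ne_zero _)
  have h4 : (i ! : ℂ) ≠ 0 := Nat.cast_ne_zero.mpr (Nat.factorial_ne_zero i)
  have hP : PP n m i = ff m i / ∏ j ∈ range i, ((n : ℂ) - j) := by
    unfold PP ff; rw [prod_div_distrib]
  rw [hP, ← h1]
  field_simp

/-- the majorant -/
noncomputable def BB (n : ℕ) (i : ℕ) : ℝ := ∏ j ∈ range i, (((n : ℝ) + j) / ((n : ℝ) - j))

theorem BB_succ (n i : ℕ) : BB n (i + 1) = BB n i * (((n : ℝ) + i) / ((n : ℝ) - i)) := by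
  unfold BB; rw [prod_range_succ]

theorem BB_pos (n i : ℕ) (hi : i ≤ n) : 0 < BB n i := by
  unfold BB
  apply Finset.prod_pos
  intro j hj
  rw [mem_range] at hj
  have : (j : ℝ) < n := by exact_mod_cast (by omega : j < n)
  have h0 : (0 : ℝ) ≤ j := Nat.cast_nonneg j
  apply _root_.div_pos <;> linarith

theorem PP_bound (n : ℕ) (m : ℂ) (hm : ‖m‖ ≤ n) : ∀ i, i ≤ n →
    ‖PP n m i‖ ≤ BB n i ∧ ‖PP n m i - (m / n) ^ i‖ ≤ BB n i - 1 := by
  intro i
  induction i with
  | zero => intro _; simp [PP, BB]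
  | succ i ih =>
    intro hi
    obtain ⟨ih1, ih2⟩ := ih (by omega)
    have hin : (i : ℝ) < n := by exact_mod_cast (by omega : i < n)
    have hn0 : (0 : ℝ) < n := lt_of_le_of_lt (Nat.cast_nonneg i) hin
    have hi0 : (0 : ℝ) ≤ i := Nat.cast_nonneg i
    have hni : (0 : ℝ) < (n : ℝ) - i := by linarith
    have hBp := BB_pos n i (by omega)
    have hPs : PP n m (i + 1) = PP n m i * ((m - i) / ((n : ℂ) - i)) := by
      unfold PP; rw [prod_range_succ]
    have hnorm : ‖(n : ℂ) - i‖ = (n : ℝ) - i := by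
      have : (n : ℂ) - i = (((n : ℝ) - i : ℝ) : ℂ) := by push_cast; rfl
      rw [this, Complex.norm_real, Real.norm_of_nonneg hni.le]
    have ha : ‖(m - i) / ((n : ℂ) - i)‖ ≤ ((n : ℝ) + i) / ((n : ℝ) - i) := by
      rw [norm_div, hnorm]
      apply div_le_div_of_nonneg_right _ hni.le
      calc ‖m - i‖ ≤ ‖m‖ + ‖(i : ℂ)‖ := norm_sub_le _ _
        _ ≤ n + i := by
          have : ‖(i : ℂ)‖ = i := by simp
          rw [this]; linarith
    have hncn : (n : ℂ) ≠ 0 := by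
      have : n ≠ 0 := by omega
      exact Nat.cast_ne_zero.mpr this
    have hnin : (n : ℂ) - i ≠ 0 := by
      intro h; rw [h, norm_zero] at hnorm; linarith
    have hb : ‖m / n‖ ≤ 1 := by
      rw [norm_div]
      have : ‖(n : ℂ)‖ = n := by simp
      rw [this]
      exact (div_le_one hn0).mpr hm
    have hab : ‖(m - i) / ((n : ℂ) - i) - m / n‖ ≤ 2 * i / ((n : ℝ) - i) := by
      have e : (m - i) / ((n : ℂ) - i) - m / n = (i * (m - n)) / (n * ((n : ℂ) - i)) := by
        field_simp; ring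
      rw [e, norm_div, norm_mul, norm_mul, hnorm]
      have h1 : ‖(i : ℂ)‖ = i := by simp
      have h2 : ‖(n : ℂ)‖ = n := by simp
      rw [h1, h2]
      have h3 : ‖m - n‖ ≤ 2 * n := by
        calc ‖m - n‖ ≤ ‖m‖ + ‖(n : ℂ)‖ := norm_sub_le _ _
          _ ≤ 2 * n := by rw [h2]; linarith
      rw [div_le_div_iff₀ (by positivity) hni]
      have h4 : (i : ℝ) * ‖m - n‖ ≤ i * (2 * n) := mul_le_mul_of_nonneg_left h3 hi0
      nlinarith [mul_le_mul_of_nonneg_right h4 hni.le]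
    refine ⟨?_, ?_⟩
    · rw [hPs, norm_mul, BB_succ]
      exact mul_le_mul ih1 ha (norm_nonneg _) hBp.le
    · rw [hPs, BB_succ, pow_succ]
      have e : PP n m i * ((m - i) / ((n : ℂ) - i)) - (m / n) ^ i * (m / n)
          = PP n m i * ((m - i) / ((n : ℂ) - i) - m / n) + (PP n m i - (m / n) ^ i) * (m / n) := by
        ring
      rw [e]
      calc ‖PP n m i * ((m - i) / ((n : ℂ) - i) - m / n) + (PP n m i - (m / n) ^ i) * (m / n)‖
          ≤ ‖PP n m i‖ * ‖(m - i) / ((n : ℂ) - i) - m / n‖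
            + ‖PP n m i - (m / n) ^ i‖ * ‖m / n‖ := by
            refine (norm_add_le _ _).trans ?_
            rw [norm_mul, norm_mul]
        _ ≤ BB n i * (2 * i / ((n : ℝ) - i)) + (BB n i - 1) * 1 := by
            have : 0 ≤ BB n i - 1 := le_trans (norm_nonneg _) ih2
            apply _root_.add_le_add
            · exact mul_le_mul ih1 hab (norm_nonneg _) hBp.le
            · exact mul_le_mul ih2 hb (norm_nonneg _) this
        _ = BB n i * (((n : ℝ) + i) / ((n : ℝ) - i)) - 1 := by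
            field_simp; ring

end Pool.Agent.H19.Euler
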