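import Mathlib
import Pool.Agent.H19.Euler.Gfun

/-! Bounds for the majorant series and the crude bound for `gg`. -/

set_option autoImplicit false

namespace Pool.Agent.H19.Euler

open Finset Nat

/-- terms of the majorant series -/
noncomputable def CC (n : ℕ) (i : ℕ) : ℝ := BB n i / (i ! : ℝ)

theorem CC_zero (n : ℕ) : CC n 0 = 1 := by simp [CC, BB]

theorem CC_succ (n i : ℕ) :
    CC n (i + 1) = CC n i * (((n : ℝ) + i) / (((n : ℝ) - i) * (i + 1))) := by
  unfold CC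
  rw [BB_succ, Nat.factorial_succ]
  push_cast
  simp only [div_eq_mul_inv, mul_inv]
  ring

theorem CC_pos (n i : ℕ) (hi : i ≤ n) : 0 < CC n i := by
  unfold CC
  exact _root_.div_pos (BB_pos n i hi) (by positivity)

theorem CC_ratio (n i : ℕ) (h6 : 6 ≤ i) (hi : i + 3 ≤ n) :
    CC n (i + 1) ≤ 3 / 4 * CC n i := by
  rw [CC_succ]
  have hp := CC_pos n i (by omega)
  have h6' : (6 : ℝ) ≤ i := by exact_mod_cast h6
  have hi' : (i : ℝ) + 3 ≤ n := by exact_mod_cast hi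
  have hr : ((n : ℝ) + i) / (((n : ℝ) - i) * (i + 1)) ≤ 3 / 4 := by
    rw [div_le_iff₀ (by nlinarith)]
    nlinarith [mul_nonneg (by linarith : (0 : ℝ) ≤ (i : ℝ) - 6)
      (by linarith : (0 : ℝ) ≤ (n : ℝ) - 3 - i)]
  calc CC n i * (((n : ℝ) + i) / (((n : ℝ) - i) * (i + 1))) ≤ CC n i * (3 / 4) :=
        mul_le_mul_of_nonneg_left hr hp.le
    _ = 3 / 4 * CC n i := by ring

theorem CC_last (n : ℕ) (hn : 8 ≤ n) :
    CC n (n - 1) = CC n (n - 2) ∧ CC n n ≤ 2 * CC n (n - 2) := by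
  obtain ⟨k, rfl⟩ : ∃ k, n = k + 2 := ⟨n - 2, by omega⟩
  have e1 : k + 2 - 1 = k + 1 := by omega
  have e2 : k + 2 - 2 = k := by omega
  rw [e1, e2]
  have hk : (6 : ℝ) ≤ k := by exact_mod_cast (by omega : 6 ≤ k)
  have hp := CC_pos (k + 2) k (by omega)
  have h1 : CC (k + 2) (k + 1) = CC (k + 2) k := by
    rw [CC_succ]
    have : (((k + 2 : ℕ) : ℝ) + k) / ((((k + 2 : ℕ) : ℝ) - k) * (k + 1)) = 1 := by
      push_cast
      rw [div_eq_one_iff_eq (by nlinarith)]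
      ring
    rw [this, mul_one]
  refine ⟨h1, ?_⟩
  have e3 : k + 2 = (k + 1) + 1 := rfl
  conv_lhs => rw [e3, CC_succ]
  have : ((((k + 1 + 1 : ℕ)) : ℝ) + (k + 1 : ℕ)) / (((((k + 1 + 1 : ℕ)) : ℝ) - (k + 1 : ℕ))
      * (((k + 1 : ℕ) : ℝ) + 1)) ≤ 2 := by
    push_cast
    rw [div_le_iff₀ (by nlinarith)]
    nlinarith
  have h1' : CC (k + 1 + 1) (k + 1) = CC (k + 2) k := h1
  rw [h1']
  calc CC (k + 2) k * _ ≤ CC (k + 2) k * 2 := mul_le_mul_of_nonneg_left this hp.le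
    _ = 2 * CC (k + 2) k := by ring

theorem CC_tail (n : ℕ) (hn : 8 ≤ n) : ∀ d i, i + 2 + d = n → 6 ≤ i →
    ∑ t ∈ Ico i (n + 1), CC n t ≤ 4 * CC n i := by
  intro d
  induction d with
  | zero =>
    intro i hi h6
    have hi' : i = n - 2 := by omega
    subst hi'
    obtain ⟨l1, l2⟩ := CC_last n hn
    have e : Ico (n - 2) (n + 1) = {n - 2, n - 1, n} := by
      ext x; simp only [mem_Ico, mem_insert, mem_singleton]; omega
    rw [e, sum_insert (by simp only [mem_insert, mem_singleton]; omega),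
      sum_insert (by simp only [mem_singleton]; omega), sum_singleton, l1]
    linarith
  | succ d ih =>
    intro i hi h6
    have h1 := ih (i + 1) (by omega) (by omega)
    rw [sum_eq_sum_Ico_succ_bot (by omega)]
    have h2 := CC_ratio n i h6 (by omega)
    linarith

theorem CC_small (n : ℕ) (hn : 196 ≤ n) :
    CC n 1 = 1 ∧ CC n 2 ≤ 50513 / 100000 ∧ CC n 3 ≤ 171855 / 1000000 ∧ CC n 4 ≤ 443 / 10000 ∧
    CC n 5 ≤ 923 / 100000 ∧ CC n 6 ≤ 162 / 100000 := by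
  have hn' : (196 : ℝ) ≤ n := by exact_mod_cast hn
  have h1 : CC n 1 = 1 := by
    have := CC_succ n 0
    rw [CC_zero] at this
    rw [zero_add] at this
    rw [this]
    have : (n : ℝ) ≠ 0 := by linarith
    simp [this]
  have step : ∀ (i : ℕ) (b b' : ℝ), i < 10 → CC n i ≤ b → 0 ≤ b →
      b * ((196 + i) / ((196 - i) * (i + 1))) ≤ b' → CC n (i + 1) ≤ b' := by
    intro i b b' hi h0 hb hb'
    rw [CC_succ]
    have hi' : (i : ℝ) < 10 := by exact_mod_cast hi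
    have hi0 : (0 : ℝ) ≤ i := Nat.cast_nonneg i
    have hr : ((n : ℝ) + i) / (((n : ℝ) - i) * (i + 1)) ≤ (196 + i) / ((196 - i) * (i + 1)) := by
      rw [div_le_div_iff₀ (by nlinarith) (by nlinarith)]
      nlinarith [mul_nonneg hi0 (by linarith : (0 : ℝ) ≤ (n : ℝ) - 196),
        mul_nonneg (mul_nonneg hi0 (by linarith : (0 : ℝ) ≤ (n : ℝ) - 196)) hi0]
    have hr0 : 0 ≤ (196 + (i : ℝ)) / ((196 - i) * (i + 1)) := by
      apply div_nonneg
      · linarith
      · apply mul_nonneg <;> linarith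
    have hp := CC_pos n i (by omega)
    calc CC n i * _ ≤ b * ((196 + i) / ((196 - i) * (i + 1))) := by
          apply mul_le_mul h0 hr _ hb
          apply div_nonneg
          · linarith
          · apply mul_nonneg <;> linarith
      _ ≤ b' := hb'
  have h2 : CC n 2 ≤ 50513 / 100000 := step 1 1 _ (by norm_num) h1.le (by norm_num) (by norm_num)
  have h3 : CC n 3 ≤ 171855 / 1000000 := step 2 _ _ (by norm_num) h2 (by norm_num) (by norm_num)
  have h4 : CC n 4 ≤ 443 / 10000 := step 3 _ _ (by norm_num) h3 (by norm_num) (by norm_num)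
  have h5 : CC n 5 ≤ 923 / 100000 := step 4 _ _ (by norm_num) h4 (by norm_num) (by norm_num)
  have h6 : CC n 6 ≤ 162 / 100000 := step 5 _ _ (by norm_num) h5 (by norm_num) (by norm_num)
  exact ⟨h1, h2, h3, h4, h5, h6⟩

theorem CC_sum (n : ℕ) (hn : 196 ≤ n) : ∑ i ∈ range (n + 1), CC n i ≤ 27375 / 10000 := by
  obtain ⟨h1, h2, h3, h4, h5, h6⟩ := CC_small n hn
  have ht := CC_tail n (by omega) (n - 8) 6 (by omega) le_rfl
  have e : ∑ i ∈ range (n + 1), CC n i = ∑ i ∈ range 6, CC n i + ∑ t ∈ Ico 6 (n + 1), CC n t := by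
    rw [Finset.range_eq_Ico, Finset.range_eq_Ico, sum_Ico_consecutive _ (by omega) (by omega)]
  rw [e]
  simp only [sum_range_succ, range_zero, sum_empty, CC_zero]
  linarith

theorem inv_fact_sum (n : ℕ) (hn : 196 ≤ n) :
    27166 / 10000 ≤ ∑ i ∈ range (n + 1), (1 : ℝ) / (i ! : ℝ) := by
  have h : ∑ i ∈ range 6, (1 : ℝ) / (i ! : ℝ) ≤ ∑ i ∈ range (n + 1), (1 : ℝ) / (i ! : ℝ) := by
    apply sum_le_sum_of_subset_of_nonneg
    · intro x hx; rw [mem_range] at *; omega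
    · intro i _ _; positivity
  refine le_trans ?_ h
  simp only [sum_range_succ, range_zero, sum_empty, Nat.factorial]
  norm_num

theorem exp_tail (n : ℕ) (hn : 196 ≤ n) (x : ℂ) (hx : ‖x‖ ≤ 1) :
    ‖∑ i ∈ range (n + 1), x ^ i / (i ! : ℂ) - Complex.exp x‖ ≤ 1 / 1000 := by
  rw [norm_sub_rev]
  refine (Complex.exp_bound hx (by omega : 0 < n + 1)).trans ?_
  have h1 : ‖x‖ ^ (n + 1) ≤ 1 := pow_le_one₀ (norm_nonneg _) hx
  have hfac : (5040 : ℝ) ≤ ((n + 1)! : ℝ) := by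
    have : Nat.factorial 7 ≤ (n + 1)! := Nat.factorial_le (by omega)
    have h7 : Nat.factorial 7 = 5040 := by decide
    rw [h7] at this
    exact_mod_cast this
  have hn' : (196 : ℝ) ≤ n := by exact_mod_cast hn
  have h2 : (((n + 1).succ : ℕ) : ℝ) * (((n + 1)! : ℝ) * ((n + 1 : ℕ) : ℝ))⁻¹ ≤ 1 / 1000 := by
    rw [← div_eq_mul_inv, div_le_iff₀ (by positivity)]
    push_cast
    nlinarith [mul_le_mul_of_nonneg_right hfac (by linarith : (0:ℝ) ≤ (n : ℝ) + 1)]
  calc ‖x‖ ^ (n + 1) * ((((n + 1).succ : ℕ) : ℝ) * (((n + 1)! : ℝ) * ((n + 1 : ℕ) : ℝ))⁻¹)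
      ≤ 1 * (1 / 1000) := by
        apply mul_le_mul h1 h2 (by positivity) (by norm_num)
    _ = 1 / 1000 := by norm_num

theorem gg_approx (n : ℕ) (hn : 196 ≤ n) (m : ℂ) (hm : ‖m‖ ≤ n) :
    ‖gg n m - Complex.exp (-(m / n))‖ ≤ 3 / 100 := by
  have hn0 : (0 : ℝ) < n := by
    have : (196 : ℝ) ≤ n := by exact_mod_cast hn
    linarith
  have hx : ‖-(m / n)‖ ≤ 1 := by
    rw [norm_neg, norm_div]
    have : ‖(n : ℂ)‖ = n := by simp
    rw [this]
    exact (div_le_one hn0).mpr hm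
  have h1 : ‖gg n m - ∑ i ∈ range (n + 1), (-(m / n)) ^ i / (i ! : ℂ)‖ ≤ 209 / 10000 := by
    rw [gg_eq, ← sum_sub_distrib]
    have hterm : ∀ i ∈ range (n + 1),
        ‖(-1) ^ i / (i ! : ℂ) * PP n m i - (-(m / n)) ^ i / (i ! : ℂ)‖
          ≤ CC n i - 1 / (i ! : ℝ) := by
      intro i hi
      have hi' : i ≤ n := by rw [mem_range] at hi; omega
      have e : (-1) ^ i / (i ! : ℂ) * PP n m i - (-(m / n)) ^ i / (i ! : ℂ)
          = (-1) ^ i / (i ! : ℂ) * (PP n m i - (m / n) ^ i) := by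
        rw [neg_pow]; ring
      rw [e, norm_mul, norm_div, norm_pow, norm_neg, norm_one, one_pow]
      have hf : ‖(i ! : ℂ)‖ = (i ! : ℝ) := by simp
      rw [hf]
      have hb := (PP_bound n m hm i hi').2
      have hfp : (0 : ℝ) < (i ! : ℝ) := by positivity
      calc 1 / (i ! : ℝ) * ‖PP n m i - (m / n) ^ i‖ ≤ 1 / (i ! : ℝ) * (BB n i - 1) :=
            mul_le_mul_of_nonneg_left hb (by positivity)
        _ = CC n i - 1 / (i ! : ℝ) := by unfold CC; ring
    refine (norm_sum_le _ _).trans ((sum_le_sum hterm).trans ?_)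
    rw [sum_sub_distrib]
    have := CC_sum n hn
    have := inv_fact_sum n hn
    linarith
  have h2 := exp_tail n hn (-(m / n)) hx
  calc ‖gg n m - Complex.exp (-(m / n))‖
      = ‖(gg n m - ∑ i ∈ range (n + 1), (-(m / n)) ^ i / (i ! : ℂ))
        + (∑ i ∈ range (n + 1), (-(m / n)) ^ i / (i ! : ℂ) - Complex.exp (-(m / n)))‖ := by
        congr 1; ring
    _ ≤ 209 / 10000 + 1 / 1000 := (norm_add_le _ _).trans (by linarith)
    _ ≤ 3 / 100 := by norm_num

/-- crude bound -/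
theorem gg_crude (n : ℕ) (hn : 196 ≤ n) (m : ℂ) (hm : ‖m‖ ≤ n) :
    1 / 3 ≤ ‖gg (n + 1) m‖ ∧ 1 / 3 ≤ ‖gg n m‖ ∧ ‖gg n m‖ ≤ 2 * ‖gg (n + 1) m‖ := by
  have hn' : (196 : ℝ) ≤ n := by exact_mod_cast hn
  have hn0 : (0 : ℝ) < n := by linarith
  have a1 := gg_approx n hn m hm
  have a2 := gg_approx (n + 1) (by omega) m (by push_cast; linarith)
  have hre : ∀ x : ℂ, ‖x‖ ≤ 1 → Real.exp (-1) ≤ ‖Complex.exp (-x)‖ := by
    intro x hx
    rw [Complex.norm_exp]
    apply Real.exp_le_exp.mpr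
    have h1 := Complex.abs_re_le_norm (-x)
    rw [norm_neg] at h1
    have := (abs_le.mp (h1.trans hx)).1
    linarith
  have hcast : ((n + 1 : ℕ) : ℂ) = (n : ℂ) + 1 := by push_cast; rfl
  have hx1 : ‖m / (n : ℂ)‖ ≤ 1 := by
    rw [norm_div]
    have : ‖(n : ℂ)‖ = n := by simp
    rw [this]
    exact (div_le_one hn0).mpr hm
  have hx2 : ‖m / ((n + 1 : ℕ) : ℂ)‖ ≤ 1 := by
    rw [norm_div]
    have : ‖((n + 1 : ℕ) : ℂ)‖ = n + 1 := by
      rw [Complex.norm_natCast]; push_cast; rfl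
    rw [this]
    rw [div_le_one (by linarith)]; linarith
  have b1 := hre _ hx1
  have b2 := hre _ hx2
  have he := Real.exp_neg_one_gt_d9
  have c1 : ‖Complex.exp (-(m / n))‖ - 3 / 100 ≤ ‖gg n m‖ := by
    have := norm_sub_norm_le (Complex.exp (-(m / n))) (gg n m)
    rw [norm_sub_rev] at this
    linarith
  have c2 : ‖Complex.exp (-(m / ((n + 1 : ℕ) : ℂ)))‖ - 3 / 100 ≤ ‖gg (n + 1) m‖ := by
    have := norm_sub_norm_le (Complex.exp (-(m / ((n + 1 : ℕ) : ℂ)))) (gg (n + 1) m)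
    rw [norm_sub_rev] at this
    linarith
  have c3 : ‖gg n m‖ ≤ ‖Complex.exp (-(m / n))‖ + 3 / 100 := by
    have := norm_sub_norm_le (gg n m) (Complex.exp (-(m / n)))
    linarith
  refine ⟨by linarith, by linarith, ?_⟩
  -- compare the two exponentials
  have hcmp : ‖Complex.exp (-(m / n))‖ ≤ ‖Complex.exp (-(m / ((n + 1 : ℕ) : ℂ)))‖ * Real.exp (1 / 196) := by
    have e : -(m / n) = -(m / ((n + 1 : ℕ) : ℂ)) + (-(m / (n * ((n : ℂ) + 1)))) := by
      have h1 : (n : ℂ) ≠ 0 := Nat.cast_ne_zero.mpr (by omega)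
      have h2 : (n : ℂ) + 1 ≠ 0 := Nat.cast_add_one_ne_zero n
      rw [hcast]
      field_simp
      ring
    rw [e, Complex.exp_add, norm_mul]
    apply mul_le_mul_of_nonneg_left _ (norm_nonneg _)
    rw [Complex.norm_exp]
    apply Real.exp_le_exp.mpr
    have h3 : ‖-(m / (n * ((n : ℂ) + 1)))‖ ≤ 1 / 196 := by
      rw [norm_neg, norm_div, norm_mul]
      have h4 : ‖(n : ℂ)‖ = n := by simp
      have h5 : ‖(n : ℂ) + 1‖ = n + 1 := by
        rw [← hcast, Complex.norm_natCast]; push_cast; rfl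
      rw [h4, h5, div_le_div_iff₀ (by positivity) (by norm_num)]
      nlinarith
    exact (Complex.re_le_norm _).trans h3
  have hexp : Real.exp (1 / 196) ≤ 102 / 100 := by
    have h := Real.exp_bound' (x := 1 / 196) (by norm_num) (by norm_num) (n := 2) (by norm_num)
    refine h.trans ?_
    simp only [sum_range_succ, range_zero, sum_empty, Nat.factorial]
    norm_num
  have hpos : 0 ≤ ‖Complex.exp (-(m / ((n + 1 : ℕ) : ℂ)))‖ := norm_nonneg _
  nlinarith

end Pool.Agent.H19.Euler
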