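import Pool.Agent.H19.Euler.Check

/-! Kernel check of the rows `140` to `169`. -/

set_option autoImplicit false

namespace Pool.Agent.H19.Euler

theorem rowsC : (List.range 30).all (fun i => chk (2 ^ 64) 8 (i + 140)) = true := by
  decide +kernel

end Pool.Agent.H19.Euler
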