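import Mathlib
import Pool.Agent.H19.Euler.Gbound

/-! The ratios `YY n m = gg n m / gg (n+1) m` and the second ratio of `gg n`. -/

set_option autoImplicit false

namespace Pool.Agent.H19.Euler

open Finset Nat

theorem CC_iter (n : ℕ) (i : ℕ) (hi : 6 ≤ i) :
    ∀ d, i + d + 2 ≤ n → CC n (i + d) ≤ (3 / 4) ^ d * CC n i := by
  intro d
  induction d with
  | zero => intro _; simp
  | succ d ih =>
    intro h
    have h1 := ih (by omega)
    have h2 := CC_ratio n (i + d) (by omega) (by omega)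
    rw [show i + (d + 1) = (i + d) + 1 from rfl, pow_succ]
    linarith

theorem pow_cube (n : ℕ) (hn : 197 ≤ n) : (3 / 4 : ℝ) ^ (n - 8) * (n : ℝ) ^ 3 ≤ 1 / 10 ^ 8 := by
  induction n, hn using Nat.le_induction with
  | base => norm_num
  | succ n hn ih =>
    have e : n + 1 - 8 = (n - 8) + 1 := by omega
    rw [e, pow_succ]
    have hn' : (197 : ℝ) ≤ n := by exact_mod_cast hn
    have h1 : 3 / 4 * (((n + 1 : ℕ) : ℝ)) ^ 3 ≤ (n : ℝ) ^ 3 := by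
      push_cast
      nlinarith [mul_nonneg (by linarith : (0 : ℝ) ≤ (n : ℝ)) (by linarith : (0 : ℝ) ≤ (n : ℝ)),
        mul_nonneg (mul_nonneg (by linarith : (0 : ℝ) ≤ (n : ℝ)) (by linarith : (0 : ℝ) ≤ (n : ℝ)))
        (by linarith : (0 : ℝ) ≤ (n : ℝ) - 197)]
    have hp : (0 : ℝ) ≤ (3 / 4) ^ (n - 8) := by positivity
    calc (3 / 4 : ℝ) ^ (n - 8) * (3 / 4) * ((n + 1 : ℕ) : ℝ) ^ 3
        = (3 / 4 : ℝ) ^ (n - 8) * (3 / 4 * ((n + 1 : ℕ) : ℝ) ^ 3) := by ring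
      _ ≤ (3 / 4 : ℝ) ^ (n - 8) * (n : ℝ) ^ 3 := mul_le_mul_of_nonneg_left h1 hp
      _ ≤ 1 / 10 ^ 8 := ih

/-- the remainder in the second identity -/
noncomputable def tau (n : ℕ) (m : ℂ) : ℂ := (-1) ^ n * ff m n / ((n ! : ℂ) * (n ! : ℂ))

theorem tau_bound (n : ℕ) (hn : 197 ≤ n) (m : ℂ) (hm : ‖m‖ ≤ n) :
    ‖tau n m‖ ≤ 1 / 10 ^ 6 / (n : ℝ) ^ 3 := by
  have hn' : (197 : ℝ) ≤ n := by exact_mod_cast hn
  have hprod : ∏ j ∈ range n, ((n : ℂ) - j) = n ! := by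
    have := fact_prod n n le_rfl
    simpa using this
  have hP : PP n m n = ff m n / (n ! : ℂ) := by
    unfold PP ff; rw [prod_div_distrib, hprod]
  have hb := (PP_bound n m hm n le_rfl).1
  have h1 : ‖tau n m‖ ≤ CC n n := by
    have e : tau n m = (-1) ^ n * (PP n m n / (n ! : ℂ)) := by
      unfold tau; rw [hP]; simp only [div_eq_mul_inv, mul_inv]; ring
    rw [e, norm_mul, norm_pow, norm_neg, norm_one, one_pow, one_mul, norm_div]
    have hf : ‖(n ! : ℂ)‖ = (n ! : ℝ) := by simp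
    rw [hf]
    unfold CC
    exact div_le_div_of_nonneg_right hb (by positivity)
  have h2 := (CC_last n (by omega)).2
  have h3 := CC_iter n 6 le_rfl (n - 8) (by omega)
  have e6 : 6 + (n - 8) = n - 2 := by omega
  rw [e6] at h3
  have h4 := (CC_small n (by omega)).2.2.2.2.2
  have h5 := pow_cube n hn
  have hp : (0 : ℝ) ≤ (3 / 4) ^ (n - 8) := by positivity
  have h6 : CC n n ≤ 2 * ((3 / 4) ^ (n - 8) * (162 / 100000)) := by
    have := mul_le_mul_of_nonneg_left h4 hp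
    linarith
  have hn3 : (0 : ℝ) < (n : ℝ) ^ 3 := by positivity
  rw [le_div_iff₀ hn3]
  calc ‖tau n m‖ * (n : ℝ) ^ 3 ≤ (2 * ((3 / 4) ^ (n - 8) * (162 / 100000))) * (n : ℝ) ^ 3 :=
        mul_le_mul_of_nonneg_right (h1.trans h6) hn3.le
    _ = (2 * (162 / 100000)) * ((3 / 4) ^ (n - 8) * (n : ℝ) ^ 3) := by ring
    _ ≤ (2 * (162 / 100000)) * (1 / 10 ^ 8) := mul_le_mul_of_nonneg_left h5 (by norm_num)
    _ ≤ 1 / 10 ^ 6 := by norm_num

/-- the ratios -/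
noncomputable def YY (n : ℕ) (m : ℂ) : ℂ := gg n m / gg (n + 1) m

theorem gg_shift (n : ℕ) (m : ℂ) (h : gg (n + 1) (m - 1) ≠ 0) :
    gg (n + 1) m = gg (n + 1) (m - 1) * (1 - YY n (m - 1) / (n + 1)) := by
  have h1 : ((n : ℂ) + 1) ≠ 0 := Nat.cast_add_one_ne_zero n
  rw [gg_F1]
  unfold YY
  field_simp

theorem YY_rec (n : ℕ) (m : ℂ) (h1 : gg (n + 1) m ≠ 0) (h2 : gg (n + 1) (m - 1) ≠ 0) :
    (YY (n + 1) m)⁻¹ = 1 + m / ((n : ℂ) + 2) * (YY n (m - 1) / (((n : ℂ) + 1) - YY n (m - 1)))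
      + tau (n + 2) m / gg (n + 1) m := by
  have c1 : ((n : ℂ) + 1) ≠ 0 := Nat.cast_add_one_ne_zero n
  have c2 : ((n : ℂ) + 2) ≠ 0 := by
    have := Nat.cast_add_one_ne_zero (R := ℂ) (n + 1)
    push_cast at this
    intro h; apply this; rw [← h]; ring
  have hs := gg_shift n m h2
  have hne : (n : ℂ) + 1 - YY n (m - 1) ≠ 0 := by
    intro h
    apply h1
    rw [hs]
    have : YY n (m - 1) = n + 1 := by linear_combination -h
    rw [this, div_self c1]; ring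
  have hq : gg (n + 1) (m - 1) / gg (n + 1) m = 1 + YY n (m - 1) / ((n : ℂ) + 1 - YY n (m - 1)) := by
    rw [hs]
    have h3 : 1 - YY n (m - 1) / ((n : ℂ) + 1) ≠ 0 := by
      intro h
      apply hne
      field_simp at h
      linear_combination h
    field_simp
    ring
  have hF := gg_F2 (n + 1) m
  have e : (YY (n + 1) m)⁻¹ = gg (n + 1 + 1) m / gg (n + 1) m := by
    unfold YY; rw [inv_div]
  rw [e, hF]
  have hcast : ((n + 1 : ℕ) : ℂ) + 1 = (n : ℂ) + 2 := by push_cast; ring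
  rw [hcast]
  have et : (-1) ^ (n + 1 + 1) * ff m (n + 1 + 1) / (((n + 1 + 1)! : ℂ) * ((n + 1 + 1)! : ℂ))
      = tau (n + 2) m := rfl
  rw [et, _root_.add_div, _root_.add_div, mul_div_assoc, div_self h1, mul_div_assoc, hq]
  field_simp
  ring

theorem stA (n : ℕ) (hn : 196 ≤ n) (m : ℂ) (hm : ‖m‖ ≤ n) :
    gg n m ≠ 0 ∧ gg (n + 1) m ≠ 0 ∧ ‖YY n m‖ ≤ 2 ∧ ‖(gg n m)⁻¹‖ ≤ 3 := by
  obtain ⟨h1, h2, h3⟩ := gg_crude n hn m hm
  have p1 : 0 < ‖gg (n + 1) m‖ := by linarith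
  have p2 : 0 < ‖gg n m‖ := by linarith
  refine ⟨norm_pos_iff.mp p2, norm_pos_iff.mp p1, ?_, ?_⟩
  · unfold YY
    rw [norm_div, div_le_iff₀ p1]; exact h3
  · rw [norm_inv]
    have : (‖gg n m‖)⁻¹ ≤ (1 / 3 : ℝ)⁻¹ := inv_anti₀ (by norm_num) h2
    linarith [this, (by norm_num : (1 / 3 : ℝ)⁻¹ = 3)]

theorem psi_bound {K c : ℝ} {a : ℂ} (ha : ‖a‖ ≤ c) (hc : c < K) :
    ‖a / ((K : ℂ) - a)‖ ≤ c / (K - c) := by
  have hc0 : 0 ≤ c := (norm_nonneg _).trans ha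
  have h1 : K - c ≤ ‖(K : ℂ) - a‖ := by
    have := norm_sub_norm_le (K : ℂ) a
    rw [Complex.norm_real, Real.norm_of_nonneg (by linarith)] at this
    linarith
  rw [norm_div]
  exact div_le_div₀ hc0 ha (by linarith) h1

theorem psi_diff {K c d : ℝ} {a b : ℂ} (ha : ‖a‖ ≤ c) (hb : ‖b‖ ≤ c) (hc : c < K)
    (hd : ‖a - b‖ ≤ d) :
    ‖a / ((K : ℂ) - a) - b / ((K : ℂ) - b)‖ ≤ K * d / (K - c) ^ 2 := by
  have hc0 : 0 ≤ c := (norm_nonneg _).trans ha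
  have hd0 : 0 ≤ d := (norm_nonneg _).trans hd
  have h1 : ∀ x : ℂ, ‖x‖ ≤ c → K - c ≤ ‖(K : ℂ) - x‖ := by
    intro x hx
    have := norm_sub_norm_le (K : ℂ) x
    rw [Complex.norm_real, Real.norm_of_nonneg (by linarith)] at this
    linarith
  have ha1 := h1 a ha
  have hb1 := h1 b hb
  have na : (K : ℂ) - a ≠ 0 := norm_pos_iff.mp (by linarith)
  have nb : (K : ℂ) - b ≠ 0 := norm_pos_iff.mp (by linarith)
  have e : a / ((K : ℂ) - a) - b / ((K : ℂ) - b) = K * (a - b) / (((K : ℂ) - a) * ((K : ℂ) - b)) := by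
    field_simp
    ring
  rw [e, norm_div, norm_mul, norm_mul, Complex.norm_real, Real.norm_of_nonneg (by linarith)]
  have hK : 0 < K := by linarith
  apply div_le_div₀ (by positivity) (mul_le_mul_of_nonneg_left hd hK.le)
    (by have : 0 < K - c := by linarith
        positivity)
  rw [pow_two]
  exact mul_le_mul ha1 hb1 (by linarith) (norm_nonneg _)

theorem norm_two (n : ℕ) : ‖(n : ℂ) + 2‖ = n + 2 := by
  have : (n : ℂ) + 2 = (((n : ℝ) + 2 : ℝ) : ℂ) := by push_cast; rfl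
  rw [this, Complex.norm_real, Real.norm_of_nonneg (by positivity)]

theorem stB (n : ℕ) (hn : 196 ≤ n) (m : ℂ) (h0 : ‖m‖ ≤ n + 1) (h1 : ‖m - 1‖ ≤ n) :
    ‖YY (n + 1) m - 1‖ ≤ 21 / 10 / ((n : ℝ) + 2) ∧ ‖YY (n + 1) m‖ ≤ 1011 / 1000 := by
  have hn' : (196 : ℝ) ≤ n := by exact_mod_cast hn
  obtain ⟨a1, a2, a3, a4⟩ := stA (n + 1) (by omega) m (by push_cast; exact h0)
  obtain ⟨b1, b2, b3, b4⟩ := stA n hn (m - 1) h1
  have hrec := YY_rec n m a1 b2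
  have ht := tau_bound (n + 2) (by omega) m (by push_cast; linarith)
  have hpsi := psi_bound (K := (n : ℝ) + 1) b3 (by linarith)
  have hc1 : (((n : ℝ) + 1 : ℝ) : ℂ) = (n : ℂ) + 1 := by push_cast; rfl
  rw [hc1] at hpsi
  set q := (YY (n + 1) m)⁻¹ with hq
  have hY0 : YY (n + 1) m ≠ 0 := by unfold YY; exact div_ne_zero a1 a2
  have hq0 : q ≠ 0 := inv_ne_zero hY0
  have hYq : YY (n + 1) m = q⁻¹ := by rw [hq, inv_inv]
  have hq1 : ‖q - 1‖ ≤ 2035 / 1000 / ((n : ℝ) + 2) := by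
    have e : q - 1 = m / ((n : ℂ) + 2) * (YY n (m - 1) / (((n : ℂ) + 1) - YY n (m - 1)))
      + tau (n + 2) m * (gg (n + 1) m)⁻¹ := by rw [hrec]; ring
    rw [e]
    refine (norm_add_le _ _).trans ?_
    rw [norm_mul, norm_mul, norm_div, norm_two]
    have t1 : ‖m‖ / ((n : ℝ) + 2) ≤ 1 := by
      rw [div_le_one (by linarith)]; linarith
    have t2 : ‖m‖ / ((n : ℝ) + 2) * ‖YY n (m - 1) / (((n : ℂ) + 1) - YY n (m - 1))‖
        ≤ 1 * (2 / ((n : ℝ) + 1 - 2)) :=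
      mul_le_mul t1 hpsi (norm_nonneg _) (by norm_num)
    have t3 : ‖tau (n + 2) m‖ * ‖(gg (n + 1) m)⁻¹‖
        ≤ 1 / 10 ^ 6 / (((n + 2 : ℕ)) : ℝ) ^ 3 * 3 := mul_le_mul ht a4 (norm_nonneg _) (by positivity)
    have t4 : 2 / ((n : ℝ) + 1 - 2) ≤ 2031 / 1000 / ((n : ℝ) + 2) := by
      rw [div_le_div_iff₀ (by linarith) (by linarith)]
      linarith
    have t5 : 1 / 10 ^ 6 / (((n + 2 : ℕ)) : ℝ) ^ 3 * 3 ≤ 4 / 1000 / ((n : ℝ) + 2) := by
      push_cast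
      have h3 : (0 : ℝ) < (n : ℝ) + 2 := by linarith
      have e3 : 1 / 10 ^ 6 / ((n : ℝ) + 2) ^ 3 * 3 = (3 / 10 ^ 6 / ((n : ℝ) + 2) ^ 2) / ((n : ℝ) + 2) := by
        field_simp
      rw [e3]
      apply div_le_div_of_nonneg_right _ h3.le
      rw [div_le_iff₀ (by positivity)]
      nlinarith
    have : 2031 / 1000 / ((n : ℝ) + 2) + 4 / 1000 / ((n : ℝ) + 2) = 2035 / 1000 / ((n : ℝ) + 2) := by
      ring
    linarith
  have hn2 : (0 : ℝ) < (n : ℝ) + 2 := by linarith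
  have hsm : 2035 / 1000 / ((n : ℝ) + 2) ≤ 1028 / 100000 := by
    rw [div_le_iff₀ hn2]; linarith
  have hqn : 98972 / 100000 ≤ ‖q‖ := by
    have := norm_sub_norm_le (1 : ℂ) q
    rw [norm_one, norm_sub_rev] at this
    linarith
  have hqp : 0 < ‖q‖ := by linarith
  rw [hYq]
  constructor
  · have e : q⁻¹ - 1 = -(q - 1) * q⁻¹ := by
      field_simp
      ring
    rw [e, norm_mul, norm_neg, norm_inv, ← div_eq_mul_inv, div_le_iff₀ hqp]
    refine hq1.trans ?_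
    have : 21 / 10 / ((n : ℝ) + 2) * ‖q‖ = (21 / 10 * ‖q‖) / ((n : ℝ) + 2) := by ring
    rw [this]
    apply div_le_div_of_nonneg_right _ hn2.le
    linarith
  · rw [norm_inv]
    rw [inv_le_comm₀ hqp (by norm_num)]
    refine le_trans ?_ hqn
    norm_num

theorem stCD (n : ℕ) (hn : 197 ≤ n) (m : ℂ) (δ : ℝ) (h0 : ‖m‖ ≤ n + 1) (h1 : ‖m - 1‖ ≤ n)
    (h2 : ‖m - 2‖ ≤ (n : ℝ) - 1) (h3 : ‖m - 3‖ ≤ (n : ℝ) - 1)
    (hδ : ‖YY n (m - 1) - YY n (m - 2)‖ ≤ δ) :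
    ‖YY (n + 1) m - YY (n + 1) (m - 1)‖ ≤ (1011 / 1000) ^ 2 *
      (1 / ((n : ℝ) + 2) * (1011 / 1000 / ((n : ℝ) + 1 - 1011 / 1000))
        + ((n : ℝ) + 1) * δ / ((n : ℝ) + 1 - 1011 / 1000) ^ 2
        + 6 / 10 ^ 6 / ((n : ℝ) + 2) ^ 3) := by
  have hn' : (197 : ℝ) ≤ n := by exact_mod_cast hn
  obtain ⟨k, rfl⟩ : ∃ k, n = k + 1 := ⟨n - 1, by omega⟩
  push_cast at *
  have hk : 196 ≤ k := by omega
  obtain ⟨a1, a2, a3, a4⟩ := stA (k + 1 + 1) (by omega) m (by push_cast; linarith)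
  obtain ⟨b1, b2, b3, b4⟩ := stA (k + 1) (by omega) (m - 1) (by push_cast; linarith)
  obtain ⟨c1, c2, c3, c4⟩ := stA (k + 1 + 1) (by omega) (m - 1) (by push_cast; linarith)
  have em : m - 1 - 1 = m - 2 := by ring
  have em2 : m - 2 - 1 = m - 3 := by ring
  obtain ⟨d1, d2, d3, d4⟩ := stA (k + 1) (by omega) (m - 2) (by push_cast; linarith)
  have r1 := YY_rec (k + 1) m a1 b2
  have r2 := YY_rec (k + 1) (m - 1) c1 (by rw [em]; exact d2)
  rw [em] at r2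
  have B1 := (stB (k + 1) (by omega) m (by push_cast; linarith) (by push_cast; linarith)).2
  have B2 := (stB (k + 1) (by omega) (m - 1) (by push_cast; linarith)
    (by rw [em]; push_cast; linarith)).2
  have B3 := (stB k hk (m - 1) (by linarith) (by rw [em]; linarith)).2
  have B4 := (stB k hk (m - 2) (by linarith) (by rw [em2]; linarith)).2
  have ht1 := tau_bound (k + 1 + 2) (by omega) m (by push_cast; linarith)
  have ht2 := tau_bound (k + 1 + 2) (by omega) (m - 1) (by push_cast; linarith)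
  push_cast at *
  have hc1 : (((k : ℝ) + 1 + 1 : ℝ) : ℂ) = (k : ℂ) + 1 + 1 := by push_cast; rfl
  have P1 := psi_bound (K := (k : ℝ) + 1 + 1) B3 (by linarith)
  have P2 := psi_diff (K := (k : ℝ) + 1 + 1) B3 B4 (by linarith) hδ
  rw [hc1] at P1 P2
  set Y1 := YY (k + 1 + 1) m with hY1
  set Y2 := YY (k + 1 + 1) (m - 1) with hY2
  set a := YY (k + 1) (m - 1) with ha
  set b := YY (k + 1) (m - 2) with hb
  have hY10 : Y1 ≠ 0 := by rw [hY1]; unfold YY; exact div_ne_zero a1 a2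
  have hY20 : Y2 ≠ 0 := by rw [hY2]; unfold YY; exact div_ne_zero c1 c2
  have e : Y1 - Y2 = -(Y1 * Y2 * (Y1⁻¹ - Y2⁻¹)) := by
    field_simp
    ring
  have n3 : ‖(k : ℂ) + 1 + 2‖ = (k : ℝ) + 1 + 2 := by
    have := norm_two (k + 1)
    push_cast at this
    exact this
  have hn2 : (0 : ℝ) < (k : ℝ) + 1 + 2 := by linarith
  have hcn : (k : ℂ) + 1 + 2 ≠ 0 := norm_pos_iff.mp (by rw [n3]; exact hn2)
  have e2 : Y1⁻¹ - Y2⁻¹ = 1 / ((k : ℂ) + 1 + 2) * (a / ((k : ℂ) + 1 + 1 - a))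
      + (m - 1) / ((k : ℂ) + 1 + 2) * (a / ((k : ℂ) + 1 + 1 - a) - b / ((k : ℂ) + 1 + 1 - b))
      + (tau (k + 1 + 2) m * (gg (k + 1 + 1) m)⁻¹
        - tau (k + 1 + 2) (m - 1) * (gg (k + 1 + 1) (m - 1))⁻¹) := by
    rw [r1, r2]; field_simp; ring
  have hfin : ‖Y1⁻¹ - Y2⁻¹‖ ≤ 1 / ((k : ℝ) + 1 + 2) * (1011 / 1000 / ((k : ℝ) + 1 + 1 - 1011 / 1000))
        + ((k : ℝ) + 1 + 1) * δ / ((k : ℝ) + 1 + 1 - 1011 / 1000) ^ 2
        + 6 / 10 ^ 6 / ((k : ℝ) + 1 + 2) ^ 3 := by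
    rw [e2]
    refine (norm_add_le _ _).trans ?_
    apply _root_.add_le_add
    · refine (norm_add_le _ _).trans ?_
      apply _root_.add_le_add
      · rw [norm_mul, norm_div, norm_one, n3]
        exact mul_le_mul_of_nonneg_left P1 (by positivity)
      · rw [norm_mul, norm_div, n3]
        have t1 : ‖m - 1‖ / ((k : ℝ) + 1 + 2) ≤ 1 := by
          rw [div_le_one hn2]; linarith
        calc _ ≤ 1 * (((k : ℝ) + 1 + 1) * δ / ((k : ℝ) + 1 + 1 - 1011 / 1000) ^ 2) :=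
              mul_le_mul t1 P2 (norm_nonneg _) (by norm_num)
          _ = _ := one_mul _
    · refine (norm_sub_le _ _).trans ?_
      rw [norm_mul, norm_mul]
      have t1 := mul_le_mul ht1 a4 (norm_nonneg _) (by positivity)
      have t2 := mul_le_mul ht2 c4 (norm_nonneg _) (by positivity)
      have : 1 / 10 ^ 6 / ((k : ℝ) + 1 + 2) ^ 3 * 3 + 1 / 10 ^ 6 / ((k : ℝ) + 1 + 2) ^ 3 * 3
        = 6 / 10 ^ 6 / ((k : ℝ) + 1 + 2) ^ 3 := by ring
      linarith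
  rw [e, norm_neg, norm_mul, norm_mul]
  have hYY : ‖Y1‖ * ‖Y2‖ ≤ (1011 / 1000) ^ 2 := by
    rw [pow_two]; exact mul_le_mul B1 B2 (norm_nonneg _) (by norm_num)
  exact mul_le_mul hYY hfin (norm_nonneg _) (by norm_num)

end Pool.Agent.H19.Euler
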