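import Mathlib
import Pool.Agent.H19.Euler.Theta
import Pool.Agent.H19.Euler.ChainHigh

/-! The second ratio of `gg N` and the initial function `w0`. -/

set_option autoImplicit false

namespace Pool.Agent.H19.Euler

open Finset Nat Metric

theorem stC (n : ℕ) (hn : 197 ≤ n) (m : ℂ) (h0 : ‖m‖ ≤ n + 1) (h1 : ‖m - 1‖ ≤ n)
    (h2 : ‖m - 2‖ ≤ (n : ℝ) - 1) (h3 : ‖m - 3‖ ≤ (n : ℝ) - 1) :
    ‖YY (n + 1) m - YY (n + 1) (m - 1)‖ ≤ 55 / 10 / ((n : ℝ) + 2) ^ 2 := by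
  have hn' : (197 : ℝ) ≤ n := by exact_mod_cast hn
  have hδ : ‖YY n (m - 1) - YY n (m - 2)‖ ≤ 42 / 10 / ((n : ℝ) + 1) := by
    obtain ⟨k, rfl⟩ : ∃ k, n = k + 1 := ⟨n - 1, by omega⟩
    push_cast at *
    have em : m - 1 - 1 = m - 2 := by ring
    have em2 : m - 2 - 1 = m - 3 := by ring
    have B1 := (stB k (by omega) (m - 1) (by linarith) (by rw [em]; linarith)).1
    have B2 := (stB k (by omega) (m - 2) (by linarith) (by rw [em2]; linarith)).1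
    have e : YY (k + 1) (m - 1) - YY (k + 1) (m - 2)
        = (YY (k + 1) (m - 1) - 1) - (YY (k + 1) (m - 2) - 1) := by ring
    rw [e]
    refine (norm_sub_le _ _).trans ?_
    have e2 : (k : ℝ) + 1 + 1 = k + 2 := by ring
    rw [e2]
    have : 42 / 10 / ((k : ℝ) + 2) = 21 / 10 / ((k : ℝ) + 2) + 21 / 10 / ((k : ℝ) + 2) := by ring
    linarith
  refine (stCD n hn m _ h0 h1 h2 h3 hδ).trans ?_
  have p1 : (0 : ℝ) < (n : ℝ) + 2 := by linarith
  have p2 : (0 : ℝ) < (n : ℝ) + 1 - 1011 / 1000 := by linarith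
  have q1 : 1 / ((n : ℝ) + 2) * (1011 / 1000 / ((n : ℝ) + 1 - 1011 / 1000))
      ≤ 1022 / 1000 / ((n : ℝ) + 2) ^ 2 := by
    rw [one_div_mul_eq_div, div_div, div_le_div_iff₀ (by positivity) (by positivity)]
    nlinarith
  have q2 : ((n : ℝ) + 1) * (42 / 10 / ((n : ℝ) + 1)) / ((n : ℝ) + 1 - 1011 / 1000) ^ 2
      ≤ 4287 / 1000 / ((n : ℝ) + 2) ^ 2 := by
    have e : ((n : ℝ) + 1) * (42 / 10 / ((n : ℝ) + 1)) = 42 / 10 := by field_simp
    rw [e, div_le_div_iff₀ (by positivity) (by positivity)]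
    nlinarith
  have q3 : 6 / 10 ^ 6 / ((n : ℝ) + 2) ^ 3 ≤ 1 / 1000 / ((n : ℝ) + 2) ^ 2 := by
    rw [div_le_div_iff₀ (by positivity) (by positivity)]
    nlinarith [sq_nonneg ((n : ℝ) + 2)]
  have hs : (1011 / 1000 : ℝ) ^ 2 * (1022 / 1000 / ((n : ℝ) + 2) ^ 2 + 4287 / 1000 / ((n : ℝ) + 2) ^ 2
      + 1 / 1000 / ((n : ℝ) + 2) ^ 2) ≤ 55 / 10 / ((n : ℝ) + 2) ^ 2 := by
    have e : (1011 / 1000 : ℝ) ^ 2 * (1022 / 1000 / ((n : ℝ) + 2) ^ 2
      + 4287 / 1000 / ((n : ℝ) + 2) ^ 2 + 1 / 1000 / ((n : ℝ) + 2) ^ 2)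
      = ((1011 / 1000 : ℝ) ^ 2 * (1022 / 1000 + 4287 / 1000 + 1 / 1000)) / ((n : ℝ) + 2) ^ 2 := by
      ring
    rw [e]
    apply div_le_div_of_nonneg_right _ (by positivity)
    norm_num
  refine le_trans ?_ hs
  apply mul_le_mul_of_nonneg_left _ (by norm_num)
  linarith

theorem stD (n : ℕ) (hn : 198 ≤ n) (m : ℂ) (h0 : ‖m‖ ≤ n + 1) (h1 : ‖m - 1‖ ≤ n)
    (h2 : ‖m - 2‖ ≤ (n : ℝ) - 1) (h3 : ‖m - 3‖ ≤ (n : ℝ) - 2) (h4 : ‖m - 4‖ ≤ (n : ℝ) - 3) :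
    ‖YY (n + 1) m - YY (n + 1) (m - 1)‖ ≤ 108 / 100 / ((n : ℝ) + 2) ^ 2 := by
  have hn' : (198 : ℝ) ≤ n := by exact_mod_cast hn
  have hδ : ‖YY n (m - 1) - YY n (m - 2)‖ ≤ 55 / 10 / ((n : ℝ) + 1) ^ 2 := by
    obtain ⟨k, rfl⟩ : ∃ k, n = k + 1 := ⟨n - 1, by omega⟩
    push_cast at *
    have em : m - 1 - 1 = m - 2 := by ring
    have em2 : m - 1 - 2 = m - 3 := by ring
    have em3 : m - 1 - 3 = m - 4 := by ring
    have B1 := stC k (by omega) (m - 1) (by linarith) (by rw [em]; linarith)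
      (by rw [em2]; linarith) (by rw [em3]; linarith)
    rw [em] at B1
    have e2 : (k : ℝ) + 1 + 1 = k + 2 := by ring
    rw [e2]
    exact B1
  refine (stCD n (by omega) m _ h0 h1 h2 (by linarith) hδ).trans ?_
  have p1 : (0 : ℝ) < (n : ℝ) + 2 := by linarith
  have p2 : (0 : ℝ) < (n : ℝ) + 1 - 1011 / 1000 := by linarith
  have q1 : 1 / ((n : ℝ) + 2) * (1011 / 1000 / ((n : ℝ) + 1 - 1011 / 1000))
      ≤ 1022 / 1000 / ((n : ℝ) + 2) ^ 2 := by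
    rw [one_div_mul_eq_div, div_div, div_le_div_iff₀ (by positivity) (by positivity)]
    nlinarith
  have q2 : ((n : ℝ) + 1) * (55 / 10 / ((n : ℝ) + 1) ^ 2) / ((n : ℝ) + 1 - 1011 / 1000) ^ 2
      ≤ 30 / 1000 / ((n : ℝ) + 2) ^ 2 := by
    have e : ((n : ℝ) + 1) * (55 / 10 / ((n : ℝ) + 1) ^ 2) = 55 / 10 / ((n : ℝ) + 1) := by
      field_simp
    rw [e, div_div, div_le_div_iff₀ (by positivity) (by positivity)]
    have h5 : ((n : ℝ) + 2) ^ 2 ≤ 103 / 100 * ((n : ℝ) + 1 - 1011 / 1000) ^ 2 := by nlinarith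
    have h6 : (55 / 10 : ℝ) * (103 / 100) ≤ 30 / 1000 * ((n : ℝ) + 1) := by linarith
    have h7 := mul_le_mul_of_nonneg_right h6 (sq_nonneg ((n : ℝ) + 1 - 1011 / 1000))
    nlinarith
  have q3 : 6 / 10 ^ 6 / ((n : ℝ) + 2) ^ 3 ≤ 1 / 1000 / ((n : ℝ) + 2) ^ 2 := by
    rw [div_le_div_iff₀ (by positivity) (by positivity)]
    nlinarith [sq_nonneg ((n : ℝ) + 2)]
  have hs : (1011 / 1000 : ℝ) ^ 2 * (1022 / 1000 / ((n : ℝ) + 2) ^ 2 + 30 / 1000 / ((n : ℝ) + 2) ^ 2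
      + 1 / 1000 / ((n : ℝ) + 2) ^ 2) ≤ 108 / 100 / ((n : ℝ) + 2) ^ 2 := by
    have e : (1011 / 1000 : ℝ) ^ 2 * (1022 / 1000 / ((n : ℝ) + 2) ^ 2
      + 30 / 1000 / ((n : ℝ) + 2) ^ 2 + 1 / 1000 / ((n : ℝ) + 2) ^ 2)
      = ((1011 / 1000 : ℝ) ^ 2 * (1022 / 1000 + 30 / 1000 + 1 / 1000)) / ((n : ℝ) + 2) ^ 2 := by
      ring
    rw [e]
    apply div_le_div_of_nonneg_right _ (by positivity)
    norm_num
  refine le_trans ?_ hs
  apply mul_le_mul_of_nonneg_left _ (by norm_num)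
  linarith

/-- the domain used for the bound of the second ratio -/
structure Dom (N : ℕ) (m : ℂ) : Prop where
  h0 : ‖m‖ ≤ (N : ℝ) - 1
  h1 : ‖m - 1‖ ≤ (N : ℝ) - 2
  h2 : ‖m - 2‖ ≤ (N : ℝ) - 3
  h3 : ‖m - 3‖ ≤ (N : ℝ) - 4
  h4 : ‖m - 4‖ ≤ (N : ℝ) - 5

theorem theta_bound (N : ℕ) (hN : 200 ≤ N) (m : ℂ) (hm : Dom N m) :
    gg N m ≠ 0 ∧ gg N (m - 1) ≠ 0 ∧ gg N (m + 1) ≠ 0 ∧
    ‖gg N (m + 1) * gg N (m - 1) / gg N m ^ 2 - 1‖ ≤ 11 / 10 / (N : ℝ) ^ 3 := by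
  obtain ⟨n, rfl⟩ : ∃ n, N = n + 2 := ⟨N - 2, by omega⟩
  obtain ⟨h0, h1, h2, h3, h4⟩ := hm
  push_cast at *
  have hn : 198 ≤ n := by omega
  have hn' : (198 : ℝ) ≤ n := by exact_mod_cast hn
  obtain ⟨a1, a2, a3, a4⟩ := stA (n + 1) (by omega) m (by push_cast; linarith)
  obtain ⟨b1, b2, b3, b4⟩ := stA (n + 1) (by omega) (m - 1) (by push_cast; linarith)
  have D := stD n hn m (by linarith) (by linarith) (by linarith) (by linarith) (by linarith)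
  have em : m - 1 - 1 = m - 2 := by ring
  have B1 := (stB n (by omega) m (by linarith) (by linarith)).2
  have B2 := (stB n (by omega) (m - 1) (by linarith) (by rw [em]; linarith)).2
  have s2 := gg_shift (n + 1) m b2
  have s1 := gg_shift (n + 1) (m + 1) (by rw [add_sub_cancel_right]; exact a2)
  rw [add_sub_cancel_right] at s1
  have hc : ((n + 1 : ℕ) : ℂ) + 1 = (n : ℂ) + 2 := by push_cast; ring
  rw [hc] at s1 s2
  have hN2 : (0 : ℝ) < (n : ℝ) + 2 := by linarith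
  have c0 : (n : ℂ) + 2 ≠ 0 := norm_pos_iff.mp (by rw [norm_two]; exact hN2)
  have key : ∀ y : ℂ, ‖y‖ ≤ 1011 / 1000 → 994 / 1000 ≤ ‖1 - y / ((n : ℂ) + 2)‖ := by
    intro y hy
    have h5 := norm_sub_norm_le (1 : ℂ) (y / ((n : ℂ) + 2))
    rw [norm_one, norm_div, norm_two] at h5
    have h6 : ‖y‖ / ((n : ℝ) + 2) ≤ 6 / 1000 := by
      rw [div_le_iff₀ hN2]; nlinarith
    linarith
  have k1 := key _ B1
  have k2 := key _ B2
  have e1 : 1 - YY (n + 1) m / ((n : ℂ) + 2) ≠ 0 := norm_pos_iff.mp (by linarith)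
  have e2 : 1 - YY (n + 1) (m - 1) / ((n : ℂ) + 2) ≠ 0 := norm_pos_iff.mp (by linarith)
  have g1 : gg (n + 2) m ≠ 0 := a2
  have g2 : gg (n + 2) (m - 1) ≠ 0 := b2
  have g3 : gg (n + 2) (m + 1) ≠ 0 := by
    have : gg (n + 2) (m + 1) = gg (n + 2) m * (1 - YY (n + 1) m / ((n : ℂ) + 2)) := s1
    rw [this]; exact mul_ne_zero g1 e1
  refine ⟨g1, g2, g3, ?_⟩
  have hth : gg (n + 2) (m + 1) * gg (n + 2) (m - 1) / gg (n + 2) m ^ 2 - 1
      = (-(YY (n + 1) m - YY (n + 1) (m - 1)) / ((n : ℂ) + 2))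
        / (1 - YY (n + 1) (m - 1) / ((n : ℂ) + 2)) := by
    have s1' : gg (n + 2) (m + 1) = gg (n + 2) m * (1 - YY (n + 1) m / ((n : ℂ) + 2)) := s1
    have s2' : gg (n + 2) m = gg (n + 2) (m - 1) * (1 - YY (n + 1) (m - 1) / ((n : ℂ) + 2)) := s2
    rw [s1', s2']
    generalize YY (n + 1) m = Y1 at *
    generalize YY (n + 1) (m - 1) = Y2 at *
    generalize gg (n + 2) (m - 1) = G at *
    have e3 : (n : ℂ) + 2 - Y2 ≠ 0 := by
      intro h; apply e2; field_simp; rw [h]; simp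
    field_simp
    ring
  rw [hth, norm_div, norm_div, norm_neg, norm_two]
  have hD2 : ‖YY (n + 1) m - YY (n + 1) (m - 1)‖ / ((n : ℝ) + 2) ≤ 108 / 100 / ((n : ℝ) + 2) ^ 3 := by
    have : 108 / 100 / ((n : ℝ) + 2) ^ 3 = 108 / 100 / ((n : ℝ) + 2) ^ 2 / ((n : ℝ) + 2) := by
      field_simp
    rw [this]
    exact div_le_div_of_nonneg_right D hN2.le
  rw [div_le_iff₀ (by linarith)]
  refine hD2.trans ?_
  have h7 : 11 / 10 / ((n : ℝ) + 2) ^ 3 * (994 / 1000)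
      ≤ 11 / 10 / ((n : ℝ) + 2) ^ 3 * ‖1 - YY (n + 1) (m - 1) / ((n : ℂ) + 2)‖ :=
    mul_le_mul_of_nonneg_left k2 (by positivity)
  refine le_trans ?_ h7
  have e8 : 11 / 10 / ((n : ℝ) + 2) ^ 3 * (994 / 1000) = (11 / 10 * (994 / 1000)) / ((n : ℝ) + 2) ^ 3 := by
    ring
  rw [e8]
  apply div_le_div_of_nonneg_right _ (by positivity)
  norm_num

theorem ff_differentiable (i : ℕ) : Differentiable ℂ (fun m => ff m i) := by
  induction i with
  | zero => simp only [ff_zero]; exact differentiable_const _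
  | succ i ih =>
    simp only [ff_succ]
    exact ih.mul (differentiable_id.sub_const _)

theorem gg_differentiable (n : ℕ) : Differentiable ℂ (gg n) := by
  have : gg n = fun m => (∑ i ∈ range (n + 1), (-1) ^ i * ((n - i)! : ℂ) / (i ! : ℂ) * ff m i) / (n ! : ℂ) := by
    funext m; rfl
  rw [this]
  apply Differentiable.div_const
  apply Differentiable.fun_sum
  intro i _
  exact (ff_differentiable i).const_mul _

/-- the deviation of the second ratio -/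
noncomputable def vt (N : ℕ) (z : ℂ) : ℂ :=
  gg N ((N : ℂ) - z + 1) * gg N ((N : ℂ) - z - 1) / gg N ((N : ℂ) - z) ^ 2 - 1

/-- the initial function -/
noncomputable def w0 (N : ℕ) (z : ℂ) : ℂ := (z + 1) / (1 - z * vt N z)

theorem dom_ball (N : ℕ) (hN : 200 ≤ N) (k : ℝ) (hk : 20 ≤ k) (hkN : k ≤ N) (z : ℂ)
    (hz : z ∈ closedBall (k : ℂ) (94 / 100 * k)) : Dom N ((N : ℂ) - z) := by
  have hN' : (200 : ℝ) ≤ N := by exact_mod_cast hN
  rw [mem_closedBall, dist_eq_norm] at hz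
  have key : ∀ i : ℝ, 0 ≤ i → i ≤ 4 → ‖(N : ℂ) - z - i‖ ≤ (N : ℝ) - 1 - i := by
    intro i hi0 hi4
    have e : (N : ℂ) - z - i = (((N : ℝ) - i - k : ℝ) : ℂ) - (z - k) := by push_cast; ring
    rw [e]
    refine (norm_sub_le _ _).trans ?_
    rw [Complex.norm_real, Real.norm_eq_abs]
    have : |(N : ℝ) - i - k| ≤ (N : ℝ) - 1 - i - 94 / 100 * k := by
      rw [abs_le]
      constructor
      · nlinarith
      · nlinarith
    linarith
  refine ⟨?_, ?_, ?_, ?_, ?_⟩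
  · have := key 0 le_rfl (by norm_num); simpa using this
  · have := key 1 (by norm_num) (by norm_num); push_cast at this; linarith
  · have := key 2 (by norm_num) (by norm_num); push_cast at this; linarith
  · have := key 3 (by norm_num) (by norm_num); push_cast at this; linarith
  · have := key 4 (by norm_num) (by norm_num); push_cast at this; linarith

theorem w0_err (N : ℕ) (hN : 200 ≤ N) (z : ℂ) (hD : Dom N ((N : ℂ) - z)) (hz : ‖z‖ ≤ 2 * N) :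
    1 - z * vt N z ≠ 0 ∧
    ‖w0 N z - (z + 1)‖ ≤ 1101 / 1000 * (‖z‖ * ‖z + 1‖) / (N : ℝ) ^ 3 := by
  have hN' : (200 : ℝ) ≤ N := by exact_mod_cast hN
  obtain ⟨-, -, -, hv⟩ := theta_bound N hN _ hD
  have hv' : ‖vt N z‖ ≤ 11 / 10 / (N : ℝ) ^ 3 := hv
  have hN3 : (0 : ℝ) < (N : ℝ) ^ 3 := by positivity
  have hzv : ‖z * vt N z‖ ≤ 1 / 10000 := by
    rw [norm_mul]
    calc ‖z‖ * ‖vt N z‖ ≤ (2 * N) * (11 / 10 / (N : ℝ) ^ 3) :=
          mul_le_mul hz hv' (norm_nonneg _) (by positivity)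
      _ = (22 / 10) / (N : ℝ) ^ 2 := by field_simp; ring
      _ ≤ 1 / 10000 := by
          rw [div_le_iff₀ (by positivity)]; nlinarith
  have h1 : 9999 / 10000 ≤ ‖1 - z * vt N z‖ := by
    have := norm_sub_norm_le (1 : ℂ) (z * vt N z)
    rw [norm_one] at this
    linarith
  have h0 : 1 - z * vt N z ≠ 0 := norm_pos_iff.mp (by linarith)
  refine ⟨h0, ?_⟩
  have e : w0 N z - (z + 1) = (z + 1) * z * vt N z / (1 - z * vt N z) := by
    unfold w0; field_simp; ring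
  rw [e, norm_div, norm_mul, norm_mul, div_le_iff₀ (by linarith)]
  have h2 : ‖z + 1‖ * ‖z‖ * ‖vt N z‖ ≤ ‖z + 1‖ * ‖z‖ * (11 / 10 / (N : ℝ) ^ 3) :=
    mul_le_mul_of_nonneg_left hv' (by positivity)
  refine h2.trans ?_
  have hb : (0 : ℝ) ≤ 1101 / 1000 * (‖z‖ * ‖z + 1‖) / (N : ℝ) ^ 3 := by positivity
  have h3 := mul_le_mul_of_nonneg_left h1 hb
  refine le_trans ?_ h3
  have e4 : ‖z + 1‖ * ‖z‖ * (11 / 10 / (N : ℝ) ^ 3) = (‖z‖ * ‖z + 1‖ / (N : ℝ) ^ 3) * (11 / 10) := by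
    ring
  have e5 : 1101 / 1000 * (‖z‖ * ‖z + 1‖) / (N : ℝ) ^ 3 * (9999 / 10000)
      = (‖z‖ * ‖z + 1‖ / (N : ℝ) ^ 3) * (1101 / 1000 * (9999 / 10000)) := by ring
  rw [e4, e5]
  exact mul_le_mul_of_nonneg_left (by norm_num) (by positivity)

theorem w0_Lvl (N : ℕ) (hN : 200 ≤ N) (k : ℝ) (hk : 20 ≤ k) (hkN : k ≤ N) (A : ℝ)
    (hA : 43 / 10 * k ^ 3 / (N : ℝ) ^ 3 ≤ A) : Lvl (w0 N) k (94 / 100 * k) 1 (A / (1 * k)) := by
  have hN' : (200 : ℝ) ≤ N := by exact_mod_cast hN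
  have kpos : 0 < k := by linarith
  have hN3 : (0 : ℝ) < (N : ℝ) ^ 3 := by positivity
  have hzn : ∀ z ∈ closedBall (k : ℂ) (94 / 100 * k), ‖z‖ ≤ 194 / 100 * k := by
    intro z hz
    rw [mem_closedBall, dist_eq_norm] at hz
    have e : z = (z - k) + k := by ring
    rw [e]
    refine (norm_add_le _ _).trans ?_
    rw [Complex.norm_real, Real.norm_of_nonneg kpos.le]
    linarith
  constructor
  · intro z hz
    have hz1 := hzn z hz
    have hD := dom_ball N hN k hk hkN z hz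
    obtain ⟨h0, h1⟩ := w0_err N hN z hD (by linarith)
    have e : ((1 : ℝ) : ℂ) * z + (bet 1 : ℝ) = z + 1 := by
      unfold bet; push_cast; ring
    rw [e]
    refine h1.trans ?_
    have hz2 : ‖z + 1‖ ≤ 199 / 100 * k := by
      refine (norm_add_le _ _).trans ?_
      rw [norm_one]; linarith
    have h3 : ‖z‖ * ‖z + 1‖ ≤ (194 / 100 * k) * (199 / 100 * k) :=
      mul_le_mul hz1 hz2 (norm_nonneg _) (by positivity)
    rw [one_mul, le_div_iff₀ kpos]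
    refine le_trans ?_ hA
    rw [div_mul_eq_mul_div]
    apply div_le_div_of_nonneg_right _ hN3.le
    nlinarith [mul_le_mul_of_nonneg_right h3 kpos.le, pow_pos kpos 3]
  · intro z hz
    have hz1 := hzn z hz
    have hD := dom_ball N hN k hk hkN z hz
    obtain ⟨h0, -⟩ := w0_err N hN z hD (by linarith)
    obtain ⟨g0, -, -, -⟩ := theta_bound N hN _ hD
    apply DifferentiableAt.differentiableWithinAt
    have hg : Differentiable ℂ (gg N) := gg_differentiable N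
    have hid : Differentiable ℂ (fun z : ℂ => z) := differentiable_id
    have d1 : DifferentiableAt ℂ (fun z : ℂ => gg N ((N : ℂ) - z)) z :=
      (hg.comp (hid.const_sub (N : ℂ))) z
    have d2 : DifferentiableAt ℂ (fun z : ℂ => gg N ((N : ℂ) - z + 1)) z :=
      (hg.comp ((hid.const_sub (N : ℂ)).add_const 1)) z
    have d3 : DifferentiableAt ℂ (fun z : ℂ => gg N ((N : ℂ) - z - 1)) z :=
      (hg.comp ((hid.const_sub (N : ℂ)).sub_const 1)) z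
    have dv : DifferentiableAt ℂ (vt N) z := by
      have : vt N = fun z => gg N ((N : ℂ) - z + 1) * gg N ((N : ℂ) - z - 1)
        / gg N ((N : ℂ) - z) ^ 2 - 1 := rfl
      rw [this]
      exact ((d2.mul d3).div (d1.pow 2) (pow_ne_zero 2 g0)).sub_const 1
    have : w0 N = fun z => (z + 1) / (1 - z * vt N z) := rfl
    rw [this]
    exact ((hid z).add_const 1).div (((hid z).mul dv).const_sub 1) h0

/-- the chain for every index `20 ≤ k ≤ N` -/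
theorem w0_Out (N : ℕ) (hN : 200 ≤ N) (k : ℕ) (hk : 20 ≤ k) (hkN : k ≤ N) :
    ∃ J, Out (w0 N) (k : ℝ) J := by
  have hN' : (200 : ℝ) ≤ N := by exact_mod_cast hN
  have hk' : (20 : ℝ) ≤ k := by exact_mod_cast hk
  have hkN' : (k : ℝ) ≤ N := by exact_mod_cast hkN
  have hN3 : (0 : ℝ) < (N : ℝ) ^ 3 := by positivity
  by_cases h40 : k ≤ 40
  · have h40' : (k : ℝ) ≤ 40 := by exact_mod_cast h40
    apply chain_low hk'
    · by_cases h24 : k ≤ 24
      · left; exact_mod_cast h24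
      · right
        exact ⟨by exact_mod_cast (by omega : 25 ≤ k), h40'⟩
    · apply w0_Lvl N hN (k : ℝ) hk' hkN'
      rw [div_le_iff₀ hN3]
      have h1 : (k : ℝ) ^ 3 ≤ 40 ^ 3 := pow_le_pow_left₀ (by linarith) h40' 3
      have h2 : (200 : ℝ) ^ 3 ≤ (N : ℝ) ^ 3 := pow_le_pow_left₀ (by norm_num) hN' 3
      nlinarith
  · have h41 : (41 : ℝ) ≤ k := by exact_mod_cast (by omega : 41 ≤ k)
    apply chain_high h41
    · by_cases h49 : k ≤ 49
      · left; exact_mod_cast h49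
      · right; exact_mod_cast (by omega : 50 ≤ k)
    · apply w0_Lvl N hN (k : ℝ) hk' hkN'
      rw [div_le_iff₀ hN3]
      have h1 : (k : ℝ) ^ 3 ≤ (N : ℝ) ^ 3 := pow_le_pow_left₀ (by linarith) hkN' 3
      linarith

end Pool.Agent.H19.Euler
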