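import Mathlib
import Pool.Agent.H19.Euler.Theta2
import Pool.Agent.H19.Euler.Interval

/-! Euler's difference table, its positivity, and the link with the analytic functions. -/

set_option autoImplicit false

namespace Pool.Agent.H19.Euler

open Nat Finset Metric

/-- the two relations which define Euler's difference table -/
structure IsEuler (e : ℕ → ℕ → ℤ) : Prop where
  diag : ∀ n, e n n = (n ! : ℤ)
  diff : ∀ n k, 1 ≤ k → k ≤ n → e n (k - 1) = e n k - e (n - 1) (k - 1)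

theorem e_eq_hh {e : ℕ → ℕ → ℤ} (he : IsEuler e) : ∀ m n, m ≤ n →
    ((e n (n - m) : ℤ) : ℂ) = hh n (m : ℂ) := by
  intro m
  induction m with
  | zero =>
    intro n _
    rw [Nat.sub_zero, he.diag, Nat.cast_zero, hh_zero_right]; simp
  | succ m ih =>
    intro n hmn
    obtain ⟨p, rfl⟩ : ∃ p, n = p + 1 := ⟨n - 1, by omega⟩
    have h1 := he.diff (p + 1) (p + 1 - m) (by omega) (by omega)
    have e1 : p + 1 - m - 1 = p + 1 - (m + 1) := by omega
    have e2 : p + 1 - 1 = p := by omega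
    have e3 : p + 1 - (m + 1) = p - m := by omega
    rw [e1, e2, e3] at h1
    rw [e3, h1]
    have i1 := ih (p + 1) (by omega)
    have i2 := ih p (by omega)
    push_cast
    rw [i1, i2, hh_F1 p ((m : ℂ) + 1)]
    congr 2 <;> ring

theorem ff_nat_zero (m : ℕ) : ff (m : ℂ) (m + 1) = 0 := by
  unfold ff
  apply Finset.prod_eq_zero (self_mem_range_succ m)
  ring

theorem ff_nat_zero' (m n : ℕ) (h : m ≤ n) : ff (m : ℂ) (n + 1) = 0 := by
  unfold ff
  apply Finset.prod_eq_zero (mem_range.mpr (Nat.lt_succ_of_le h))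
  ring

theorem ff_nat_self (n : ℕ) : ff (n : ℂ) n = (n ! : ℂ) := by
  have h := fact_prod n n le_rfl
  simp only [Nat.sub_self, Nat.factorial_zero, Nat.cast_one, one_mul] at h
  exact h

/-- second recursion of the table -/
theorem e_F2 {e : ℕ → ℕ → ℤ} (he : IsEuler e) (n k : ℕ) (hk : k < n) :
    e (n + 1) (k + 1) = (k + 1) * e n k + (n - k) * e n (k + 1) := by
  have h1 := e_eq_hh he (n - k) (n + 1) (by omega)
  have h2 := e_eq_hh he (n - k) n (by omega)
  have h3 := e_eq_hh he (n - k - 1) n (by omega)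
  rw [show n + 1 - (n - k) = k + 1 by omega] at h1
  rw [show n - (n - k) = k by omega] at h2
  rw [show n - (n - k - 1) = k + 1 by omega] at h3
  have h4 := hh_F2 n ((n - k : ℕ) : ℂ)
  rw [ff_nat_zero' _ _ (by omega)] at h4
  have c1 : ((n - k : ℕ) : ℂ) = (n : ℂ) - k := by rw [Nat.cast_sub hk.le]
  have c2 : ((n - k : ℕ) : ℂ) - 1 = ((n - k - 1 : ℕ) : ℂ) := by
    rw [Nat.cast_sub (by omega : 1 ≤ n - k)]; simp
  rw [c2, ← h1, ← h2, ← h3, c1] at h4
  have h5 : ((e (n + 1) (k + 1) : ℤ) : ℂ) = (((k + 1) * e n k + (n - k) * e n (k + 1) : ℤ) : ℂ) := by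
    rw [h4]; push_cast; ring
  exact_mod_cast h5

theorem e_F2_diag {e : ℕ → ℕ → ℤ} (he : IsEuler e) (n : ℕ) :
    e (n + 1) (n + 1) = (n + 1) * e n n := by
  rw [he.diag, he.diag, Nat.factorial_succ]; push_cast; ring

theorem e_zero {e : ℕ → ℕ → ℤ} (he : IsEuler e) (n : ℕ) :
    e (n + 1) 0 = (n + 1) * e n 0 + (-1) ^ (n + 1) := by
  have h1 := e_eq_hh he (n + 1) (n + 1) le_rfl
  have h2 := e_eq_hh he n n le_rfl
  rw [Nat.sub_self] at h1 h2
  have h4 := hh_F2 n ((n + 1 : ℕ) : ℂ)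
  rw [ff_nat_self] at h4
  have c2 : ((n + 1 : ℕ) : ℂ) - 1 = ((n : ℕ) : ℂ) := by push_cast; ring
  rw [c2, ← h1, ← h2] at h4
  have h6 : ((n + 1)! : ℂ) ≠ 0 := Nat.cast_ne_zero.mpr (Nat.factorial_ne_zero _)
  rw [mul_div_assoc, div_self h6] at h4
  have h5 : ((e (n + 1) 0 : ℤ) : ℂ) = (((n + 1) * e n 0 + (-1) ^ (n + 1) : ℤ) : ℂ) := by
    rw [h4]; push_cast; ring
  exact_mod_cast h5

theorem e_pos {e : ℕ → ℕ → ℤ} (he : IsEuler e) : ∀ n, 2 ≤ n → ∀ k, k ≤ n → 0 < e n k := by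
  intro n hn
  induction n, hn using Nat.le_induction with
  | base =>
    have d0 := he.diag 0
    have d1 := he.diag 1
    have d2 := he.diag 2
    have a1 := he.diff 1 1 le_rfl le_rfl
    have a2 := he.diff 2 2 (by norm_num) le_rfl
    have a3 := he.diff 2 1 le_rfl (by norm_num)
    simp only [Nat.sub_self, Nat.factorial] at *
    norm_num at *
    intro k hk
    interval_cases k
    · omega
    · omega
    · omega
  | succ n hn ih =>
    intro k hk
    rcases Nat.eq_zero_or_pos k with h | h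
    · subst h
      rw [e_zero he n]
      have h0 := ih 0 (by omega)
      have h1 : (-1 : ℤ) ≤ (-1) ^ (n + 1) := by
        rcases neg_one_pow_eq_or ℤ (n + 1) with h | h <;> rw [h]; norm_num
      have hn' : (2 : ℤ) ≤ n := by exact_mod_cast hn
      nlinarith
    · obtain ⟨j, rfl⟩ : ∃ j, k = j + 1 := ⟨k - 1, by omega⟩
      by_cases hj : j < n
      · rw [e_F2 he n j hj]
        have h0 := ih j (by omega)
        have h1 := ih (j + 1) (by omega)
        have hj' : (j : ℤ) < n := by exact_mod_cast hj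
        have hj0 : (0 : ℤ) ≤ j := Nat.cast_nonneg j
        have t1 : 0 < ((j : ℤ) + 1) * e n j := mul_pos (by linarith) h0
        have t2 : 0 < ((n : ℤ) - j) * e n (j + 1) := mul_pos (by linarith) h1
        linarith
      · have : j = n := by omega
        subst this
        rw [e_F2_diag he]
        exact mul_pos (by positivity) (ih j le_rfl)

/-- three-term recursion in a row -/
theorem e_three {e : ℕ → ℕ → ℤ} (he : IsEuler e) (n k : ℕ) (hk : k + 2 ≤ n) :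
    (k + 1) * e n k + n * e n (k + 1) = (2 * k + 1) * e n (k + 1) + (n - k - 1) * e n (k + 2) := by
  have h1 := e_F2 he n k (by omega)
  have h2 := e_F2 he n (k + 1) (by omega)
  have h3 := he.diff (n + 1) (k + 2) (by omega) (by omega)
  rw [show k + 2 - 1 = k + 1 by omega, show n + 1 - 1 = n by omega] at h3
  rw [h3] at h1
  have h2' : e (n + 1) (k + 2) = (((k + 1 : ℕ) : ℤ) + 1) * e n (k + 1)
      + (n - ((k + 1 : ℕ) : ℤ)) * e n (k + 2) := h2
  rw [h2'] at h1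
  push_cast at h1
  linarith

/-- the operator -/
def Lop (a : ℕ → ℝ) : ℕ → ℝ := fun k => a k ^ 2 - a (k - 1) * a (k + 1)

/-- the normalised row -/
noncomputable def drow (e : ℕ → ℕ → ℤ) (n : ℕ) : ℕ → ℝ := fun k => (e n k : ℝ) / (k ! : ℝ)

/-- all levels -/
noncomputable def lev (e : ℕ → ℕ → ℤ) (n : ℕ) : ℕ → ℕ → ℝ := fun j => Lop^[j] (drow e n)

theorem lev_tab (e : ℕ → ℕ → ℤ) (n : ℕ) : IsTab (lev e n) := by
  intro j k
  unfold lev
  rw [Function.iterate_succ_apply']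
  rfl

theorem lev_pos0 {e : ℕ → ℕ → ℤ} (he : IsEuler e) (n : ℕ) (hn : 2 ≤ n) :
    PosUpTo (lev e n) n 0 := by
  intro i hi k hk hk2
  have : i = 0 := by omega
  subst this
  have h := e_pos he n hn k (by omega)
  show 0 < (e n k : ℝ) / (k ! : ℝ)
  have h' : (0 : ℝ) < e n k := by exact_mod_cast h
  positivity

theorem UU_zero {e : ℕ → ℕ → ℤ} (he : IsEuler e) (n : ℕ) (hn : 2 ≤ n) (k : ℕ) (hk : k + 2 ≤ n) :
    UU (lev e n) 0 (k + 1) = ((k + 2) * (e n (k + 1) : ℝ) ^ 2)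
      / ((k + 2) * (e n (k + 1) : ℝ) ^ 2 - (k + 1) * ((e n k : ℝ) * (e n (k + 2) : ℝ))) := by
  have h1 := e_pos he n hn (k + 1) (by omega)
  have h1' : (0 : ℝ) < e n (k + 1) := by exact_mod_cast h1
  have f0 : (k ! : ℝ) ≠ 0 := Nat.cast_ne_zero.mpr (Nat.factorial_ne_zero k)
  have hk1 : (0 : ℝ) < (k : ℝ) + 1 := by positivity
  have hk2 : (0 : ℝ) < (k : ℝ) + 2 := by positivity
  have e0 : lev e n 0 (k + 1) = (e n (k + 1) : ℝ) / ((k + 1) * (k ! : ℝ)) := by
    show (e n (k + 1) : ℝ) / ((k + 1)! : ℝ) = _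
    rw [Nat.factorial_succ]; push_cast; rfl
  have e1 : lev e n (0 + 1) (k + 1) = ((e n (k + 1) : ℝ) / ((k + 1) * (k ! : ℝ))) ^ 2
      - ((e n k : ℝ) / (k ! : ℝ)) * ((e n (k + 2) : ℝ) / ((k + 2) * ((k + 1) * (k ! : ℝ)))) := by
    rw [lev_tab e n 0 (k + 1), e0]
    congr 1
    show (e n (k + 1 - 1) : ℝ) / ((k + 1 - 1)! : ℝ) * ((e n (k + 1 + 1) : ℝ) / ((k + 1 + 1)! : ℝ)) = _
    rw [show k + 1 - 1 = k by omega, Nat.factorial_succ, Nat.factorial_succ]
    push_cast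
    rw [show (k : ℝ) + 1 + 1 = k + 2 by ring]
  unfold UU
  rw [e1, e0]
  have hd : ((e n (k + 1) : ℝ) / ((k + 1) * (k ! : ℝ))) ^ 2
      - ((e n k : ℝ) / (k ! : ℝ)) * ((e n (k + 2) : ℝ) / ((k + 2) * ((k + 1) * (k ! : ℝ))))
      = ((k + 2) * (e n (k + 1) : ℝ) ^ 2 - (k + 1) * ((e n k : ℝ) * (e n (k + 2) : ℝ)))
        * (1 / ((k + 2) * ((k + 1) * (k ! : ℝ)) ^ 2)) := by
    field_simp
  have hnum : ((e n (k + 1) : ℝ) / ((k + 1) * (k ! : ℝ))) ^ 2
      = ((k + 2) * (e n (k + 1) : ℝ) ^ 2) * (1 / ((k + 2) * ((k + 1) * (k ! : ℝ)) ^ 2)) := by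
    field_simp
  rw [hd, hnum, mul_div_mul_right _ _ (by positivity)]

theorem gg_int {e : ℕ → ℕ → ℤ} (he : IsEuler e) (n k : ℕ) (hk : k ≤ n) (z : ℂ)
    (hz : z = (n : ℂ) - k) : gg n z = (((e n k : ℤ) : ℝ) / (n ! : ℝ) : ℝ) := by
  have h := e_eq_hh he (n - k) n (by omega)
  rw [show n - (n - k) = k by omega] at h
  have : z = ((n - k : ℕ) : ℂ) := by rw [hz, Nat.cast_sub hk]
  unfold gg
  rw [this, ← h]
  push_cast
  rfl

theorem w0_int {e : ℕ → ℕ → ℤ} (he : IsEuler e) (n : ℕ) (hn : 2 ≤ n) (k : ℕ) (hk : k + 2 ≤ n) :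
    w0 n ((k + 1 : ℕ) : ℂ) = ((UU (lev e n) 0 (k + 1) : ℝ) : ℂ) := by
  rw [UU_zero he n hn k hk]
  have h1 := e_pos he n hn (k + 1) (by omega)
  have h1' : (e n (k + 1) : ℂ) ≠ 0 := by exact_mod_cast h1.ne'
  have hf : (n ! : ℂ) ≠ 0 := Nat.cast_ne_zero.mpr (Nat.factorial_ne_zero n)
  unfold w0 vt
  have g1 := gg_int he n k (by omega) ((n : ℂ) - ((k + 1 : ℕ) : ℂ) + 1) (by push_cast; ring)
  have g2 := gg_int he n (k + 1) (by omega) ((n : ℂ) - ((k + 1 : ℕ) : ℂ)) rfl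
  have g3 := gg_int he n (k + 2) (by omega) ((n : ℂ) - ((k + 1 : ℕ) : ℂ) - 1) (by push_cast; ring)
  rw [g1, g2, g3]
  push_cast
  have hd : 1 - ((k : ℂ) + 1) * ((e n k : ℂ) / (n ! : ℂ) * ((e n (k + 2) : ℂ) / (n ! : ℂ))
      / ((e n (k + 1) : ℂ) / (n ! : ℂ)) ^ 2 - 1)
      = ((k + 2) * (e n (k + 1) : ℂ) ^ 2 - (k + 1) * ((e n k : ℂ) * (e n (k + 2) : ℂ)))
        / (e n (k + 1) : ℂ) ^ 2 := by
    field_simp
    ring
  rw [hd]
  rw [div_div_eq_mul_div]
  congr 1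
  ring

theorem itr_int {e : ℕ → ℕ → ℤ} (he : IsEuler e) (n : ℕ) (hn : 2 ≤ n) :
    ∀ j, PosUpTo (lev e n) n j → ∀ k, j + 1 ≤ k → k + j + 1 ≤ n → ∀ z : ℂ, z = (k : ℂ) →
      itr (w0 n) j z = ((UU (lev e n) j k : ℝ) : ℂ) := by
  intro j
  induction j with
  | zero =>
    intro _ k hk hk2 z hz
    obtain ⟨p, rfl⟩ : ∃ p, k = p + 1 := ⟨k - 1, by omega⟩
    rw [hz]
    exact w0_int he n hn p (by omega)
  | succ j ih =>
    intro hp k hk hk2 z hz
    have hp' := hp.mono (Nat.le_succ j)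
    show nxt (itr (w0 n) j) z = _
    unfold nxt
    rw [ih hp' (k - 1) (by omega) (by omega) (z - 1) (by
        rw [hz, Nat.cast_sub (by omega)]; simp),
      ih hp' (k + 1) (by omega) (by omega) (z + 1) (by rw [hz]; push_cast; rfl),
      ih hp' k (by omega) (by omega) z hz]
    rw [UU_rec (lev_tab e n) hp (by omega) (by omega)]
    push_cast
    rfl

/-- the local property for the indices handled by the analytic part -/
theorem loc_analytic {e : ℕ → ℕ → ℤ} (he : IsEuler e) (n : ℕ) (hn : 200 ≤ n) (k : ℕ)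
    (hk : 20 ≤ k) (hkn : k ≤ n) : ∃ T, Loc (lev e n) n k T := by
  obtain ⟨J, hJ⟩ := w0_Out n hn k hk hkn
  refine ⟨J + 1, ?_⟩
  intro j hp h1 h2
  have hcast : (((k : ℝ)) : ℂ) = (k : ℂ) := by push_cast; rfl
  have hlow : j ≤ J → 0 < lev e n (j + 1) k := by
    intro hj
    have hpos := hJ.pos j hj
    rw [hcast, itr_int he n (by omega) j hp k h1 h2 (k : ℂ) rfl, Complex.ofReal_re] at hpos
    exact UU_pos_iff hp h1 h2 hpos
  have hhigh : j = J + 1 → 0 < lev e n (j + 1) k ∧ UU (lev e n) j k ≤ 323 / 200 := by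
    intro hj
    subst hj
    have hp' := hp.mono (Nat.le_succ J)
    have i1 := itr_int he n (by omega) J hp' (k - 1) (by omega) (by omega) ((k : ℂ) - 1) (by
      rw [Nat.cast_sub (by omega)]; simp)
    have i2 := itr_int he n (by omega) J hp' k (by omega) (by omega) (k : ℂ) rfl
    have i3 := itr_int he n (by omega) J hp' (k + 1) (by omega) (by omega) ((k : ℂ) + 1) (by
      push_cast; rfl)
    obtain ⟨-, -, -, hq⟩ := hJ.fin (UU (lev e n) J (k - 1)) (UU (lev e n) J k)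
      (UU (lev e n) J (k + 1)) (by rw [hcast]; exact i1.symm)
      (by rw [hcast]; exact i2.symm) (by rw [hcast]; exact i3.symm)
    exact fin_step (lev_tab e n) hp (by omega) (by omega) hq
  refine ⟨fun hj => ?_, fun hj => (hhigh hj).2⟩
  by_cases hjJ : j ≤ J
  · exact hlow hjJ
  · exact (hhigh (by omega)).1

end Pool.Agent.H19.Euler
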