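import Mathlib
import Pool.Agent.H19.Euler.Table
import Pool.Agent.H19.Euler.Check
import Pool.Agent.H19.Euler.RowsA
import Pool.Agent.H19.Euler.RowsB
import Pool.Agent.H19.Euler.RowsC
import Pool.Agent.H19.Euler.RowsD

/-! Positivity of all levels for every row. -/

set_option autoImplicit false

namespace Pool.Agent.H19.Euler

open Nat Finset Metric

theorem small_run : run (2 ^ 64) 7 (ini (2 ^ 64) 1 26) = true := by decide +kernel

theorem rows_all (n : ℕ) (h3 : 3 ≤ n) (h200 : n < 200) : chk (2 ^ 64) 8 n = true := by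
  have key : ∀ st ct : ℕ, (List.range ct).all (fun i => chk (2 ^ 64) 8 (i + st)) = true →
      st ≤ n → n < st + ct → chk (2 ^ 64) 8 n = true := by
    intro st ct h h1 h2
    rw [List.all_eq_true] at h
    have := h (n - st) (List.mem_range.mpr (by omega))
    rwa [Nat.sub_add_cancel h1] at this
  by_cases hA : n < 100
  · exact key 3 97 rowsA h3 (by omega)
  by_cases hB : n < 140
  · exact key 100 40 rowsB (by omega) (by omega)
  by_cases hC : n < 170
  · exact key 140 30 rowsC (by omega) (by omega)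
  · exact key 170 30 rowsD (by omega) (by omega)

/-- short rows -/
theorem short_rows {e : ℕ → ℕ → ℤ} (he : IsEuler e) (n : ℕ) (h3 : 3 ≤ n) (h200 : n < 200) :
    ∀ j, PosUpTo (lev e n) n j := by
  have hchk := rows_all n h3 h200
  simp only [chk, Bool.and_eq_true] at hchk
  obtain ⟨hge, hrun⟩ := hchk
  have hpos := e_pos he n (by omega)
  set E : ℕ → ℕ := fun k => (e n k).toNat with hE
  have hEc : ∀ k ≤ n, ((E k : ℕ) : ℤ) = e n k := fun k hk => Int.toNat_of_nonneg (hpos k hk).le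
  have hEr : ∀ k ≤ n, ((E k : ℕ) : ℝ) = (e n k : ℝ) := by
    intro k hk
    have := hEc k hk
    exact_mod_cast congrArg (fun x : ℤ => (x : ℝ)) this
  have hstart : start (2 ^ 64) n = mk (2 ^ 64) n (n - 1) (E (n - 1)) (E (n - 1 + 1)) [] := by
    have h1 : E (n - 1 + 1) = Nat.factorial n := by
      have := hEc n le_rfl
      rw [he.diag] at this
      rw [show n - 1 + 1 = n by omega]
      exact_mod_cast this
    have h2 : E (n - 1) = (n - 1) * Nat.factorial (n - 1) := by
      have h3 := hEc (n - 1) (by omega)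
      have h4 := he.diff n n (by omega) le_rfl
      rw [he.diag n, he.diag (n - 1)] at h4
      rw [h4] at h3
      have h5 : (n ! : ℤ) = n * ((n - 1)! : ℤ) := by
        have := Nat.mul_factorial_pred (by omega : n ≠ 0)
        exact_mod_cast this.symm
      rw [h5] at h3
      have h6 : (((n - 1 : ℕ) : ℤ)) = (n : ℤ) - 1 := by
        rw [Nat.cast_sub (by omega)]; simp
      have h7 : ((E (n - 1) : ℕ) : ℤ) = (((n - 1) * Nat.factorial (n - 1) : ℕ) : ℤ) := by
        rw [h3]; push_cast; rw [h6]; ring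
      exact_mod_cast h7
    rw [h1, h2]; rfl
  rw [hstart] at hge hrun
  have hcov : Cov (2 ^ 64) (mk (2 ^ 64) n (n - 1) (E (n - 1)) (E (n - 1 + 1)) [])
      (UU (lev e n) 0) 1 := by
    apply mk_sound (2 ^ 64) n (by norm_num) E (UU (lev e n) 0) _ _ _ (n - 1) [] (by omega) hge
      trivial
    · intro k hk
      have := hpos k hk
      rw [← hEc k hk] at this
      exact_mod_cast this
    · intro k hk
      have h := e_three he n k hk
      rw [← hEc k (by omega), ← hEc (k + 1) (by omega), ← hEc (k + 2) hk] at h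
      have h6 : (((n - k - 1 : ℕ) : ℤ)) = (n : ℤ) - k - 1 := by
        rw [Nat.cast_sub (by omega), Nat.cast_sub (by omega)]; simp
      have h7 : (((k + 1) * E k + n * E (k + 1) : ℕ) : ℤ)
          = (((2 * k + 1) * E (k + 1) + (n - k - 1) * E (k + 2) : ℕ) : ℤ) := by
        push_cast; rw [h6]; exact h
      exact_mod_cast h7
    · intro k hk
      rw [UU_zero he n (by omega) k hk, hEr k (by omega), hEr (k + 1) (by omega), hEr (k + 2) hk]
  have hlen := mk_length (2 ^ 64) n (n - 1) (E (n - 1)) (E (n - 1 + 1)) []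
  apply assembly (lev_tab e n) (lev_pos0 he n (by omega))
  intro k _ _
  refine ⟨8, window_Loc (lev_tab e n) (2 ^ 64) (by norm_num) _ (by rw [hlen]; simp; omega) hcov 8
    hrun k ?_⟩
  intro j _ h
  rw [hlen]; simp; omega

theorem dom_int (N : ℕ) (hN : 200 ≤ N) (j : ℕ) (hj : 1 ≤ j) (hj2 : j ≤ 26) :
    Dom N ((N : ℂ) - j) := by
  have hN' : (200 : ℝ) ≤ N := by exact_mod_cast hN
  have hj' : (1 : ℝ) ≤ j := by exact_mod_cast hj
  have hj2' : (j : ℝ) ≤ 26 := by exact_mod_cast hj2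
  have key : ∀ i : ℝ, 0 ≤ i → i ≤ 4 → ‖(N : ℂ) - j - i‖ ≤ (N : ℝ) - 1 - i := by
    intro i hi0 hi4
    have e : (N : ℂ) - j - i = (((N : ℝ) - j - i : ℝ) : ℂ) := by push_cast; ring
    rw [e, Complex.norm_real, Real.norm_of_nonneg (by linarith)]
    linarith
  refine ⟨?_, ?_, ?_, ?_, ?_⟩
  · have := key 0 le_rfl (by norm_num); simpa using this
  · have := key 1 (by norm_num) (by norm_num); push_cast at this; linarith
  · have := key 2 (by norm_num) (by norm_num); push_cast at this; linarith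
  · have := key 3 (by norm_num) (by norm_num); push_cast at this; linarith
  · have := key 4 (by norm_num) (by norm_num); push_cast at this; linarith

/-- long rows -/
theorem long_rows {e : ℕ → ℕ → ℤ} (he : IsEuler e) (n : ℕ) (hn : 200 ≤ n) :
    ∀ j, PosUpTo (lev e n) n j := by
  have hn' : (200 : ℝ) ≤ n := by exact_mod_cast hn
  have hp0 := lev_pos0 he n (by omega)
  have hcov : Cov (2 ^ 64) (ini (2 ^ 64) 1 26) (UU (lev e n) 0) 1 := by
    apply ini_sound (2 ^ 64) (by norm_num)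
    intro i hi
    obtain ⟨-, h1⟩ := w0_err n hn ((1 + i : ℕ) : ℂ) (dom_int n hn (1 + i) (by omega) (by omega)) (by
      rw [Complex.norm_natCast]
      have : ((1 + i : ℕ) : ℝ) ≤ 26 := by exact_mod_cast (by omega : 1 + i ≤ 26)
      linarith)
    have h2 := w0_int he n (by omega) i (by omega)
    rw [show i + 1 = 1 + i by omega] at h2
    rw [h2] at h1
    have hz : ‖((1 + i : ℕ) : ℂ)‖ = ((1 + i : ℕ) : ℝ) := Complex.norm_natCast _
    have hz1 : ‖((1 + i : ℕ) : ℂ) + 1‖ = ((1 + i : ℕ) : ℝ) + 1 := by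
      have : ((1 + i : ℕ) : ℂ) + 1 = ((1 + i + 1 : ℕ) : ℂ) := by push_cast; ring
      rw [this, Complex.norm_natCast]; push_cast; ring
    rw [hz, hz1] at h1
    have e1 : ((UU (lev e n) 0 (1 + i) : ℝ) : ℂ) - (((1 + i : ℕ) : ℂ) + 1)
        = ((UU (lev e n) 0 (1 + i) - (((1 + i : ℕ) : ℝ) + 1) : ℝ) : ℂ) := by
      push_cast; ring
    rw [e1, Complex.norm_real, Real.norm_eq_abs] at h1
    have h3 : 1101 / 1000 * (((1 + i : ℕ) : ℝ) * (((1 + i : ℕ) : ℝ) + 1)) / (n : ℝ) ^ 3
        ≤ 1101 * (((1 + i : ℕ) : ℝ) * (((1 + i : ℕ) : ℝ) + 1)) / (8 * 10 ^ 9) := by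
      have hn3 : (200 : ℝ) ^ 3 ≤ (n : ℝ) ^ 3 := pow_le_pow_left₀ (by norm_num) hn' 3
      have hx : (0 : ℝ) ≤ ((1 + i : ℕ) : ℝ) * (((1 + i : ℕ) : ℝ) + 1) := by positivity
      rw [div_le_div_iff₀ (by positivity) (by norm_num)]
      nlinarith [mul_le_mul_of_nonneg_left hn3 hx]
    have h4 := h1.trans h3
    refine ⟨?_, h4⟩
    have h5 := (abs_le.mp h4).1
    have h6 : ((1 + i : ℕ) : ℝ) ≤ 26 := by exact_mod_cast (by omega : 1 + i ≤ 26)
    have h7 : (1 : ℝ) ≤ ((1 + i : ℕ) : ℝ) := by exact_mod_cast (by omega : 1 ≤ 1 + i)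
    have h8 : 1101 * (((1 + i : ℕ) : ℝ) * (((1 + i : ℕ) : ℝ) + 1)) / (8 * 10 ^ 9) ≤ 1 := by
      rw [div_le_one (by norm_num)]
      nlinarith
    linarith
  apply assembly (lev_tab e n) hp0
  intro k hk1 hk2
  by_cases hk : k < 20
  · refine ⟨7, window_Loc (lev_tab e n) (2 ^ 64) (by norm_num) _ (by rw [ini_length]; omega) hcov 7
      small_run k ?_⟩
    intro j hj _
    rw [ini_length]; omega
  · exact loc_analytic he n hn k (by omega) (by omega)

/-- all levels of all rows -/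
theorem all_rows {e : ℕ → ℕ → ℤ} (he : IsEuler e) (n : ℕ) (h3 : 3 ≤ n) :
    ∀ j, PosUpTo (lev e n) n j := by
  by_cases h : n < 200
  · exact short_rows he n h3 h
  · exact long_rows he n (by omega)

theorem levels_pos {e : ℕ → ℕ → ℤ} (he : IsEuler e) (n : ℕ) (h3 : 3 ≤ n) (l k : ℕ) (h1 : l ≤ k)
    (h2 : k + l ≤ n) : 0 < (Lop^[l] (drow e n)) k :=
  all_rows he n h3 l l le_rfl k h1 h2

end Pool.Agent.H19.Euler
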